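import Pool.Agent.Lib.MP_d439b2_co.RB.SpecA

/-!
# MP_d439b2_co, RB/AG: alpha-families from a cut of bounded rank
-/

set_option autoImplicit false

namespace Pool.Agent.MPd439b2.RB

open Pool.Agent.MPd439b2 Pool.Agent.MPd439b2.Rep Pool.Agent.MPd439b2.NK Pool.Agent.MPd439b2.H1T
open Pool.Agent.MPd439b2.P41N (LS Mi)

/-- the traces of every second element of a homogeneous half graph are different -/
theorem AG_tr {V : Type} [Finite V] {G : SimpleGraph V} {A A' : Set V} {k : ℕ}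
    (hrk : LK.rk G A A' ≤ k) (J : Finset ℕ) (r y' : ℕ → V) (c₁ c₂ : Prop)
    (hc : 2 ^ (k + 1) + 1 ≤ J.card) (hr : ∀ i ∈ J, r i ∈ A) (hy : ∀ i ∈ J, y' i ∈ A')
    (h1 : ∀ i ∈ J, ∀ j ∈ J, i < j → (G.Adj (r i) (y' j) ↔ c₁))
    (h2 : ∀ i ∈ J, ∀ j ∈ J, i < j → (G.Adj (r j) (y' i) ↔ c₂)) : (c₁ ↔ c₂) := by
  by_contra hne
  have hp : 2 ^ (k + 1) = 2 * 2 ^ k := pow_succ' 2 k
  set t : ℕ → ℕ := fun i => if hi : i < J.card then J.orderEmbOfFin rfl ⟨i, hi⟩ else 0 with ht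
  have htm : ∀ i, i < J.card → t i ∈ J := by
    intro i hi
    rw [ht]
    dsimp only
    rw [dif_pos hi]
    exact J.orderEmbOfFin_mem rfl _
  have htl : ∀ i j, i < j → j < J.card → t i < t j := by
    intro i j hij hj
    have hi : i < J.card := lt_trans hij hj
    rw [ht]
    dsimp only
    rw [dif_pos hi, dif_pos hj]
    exact (J.orderEmbOfFin rfl).strictMono hij
  set f : ℕ → Set V := fun u => {b | b ∈ A' ∧ G.Adj (r (t (2 * u))) b} with hf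
  have hinj : ∀ u v, u < v → v ≤ 2 ^ k → f u ≠ f v := by
    intro u v huv hv h
    have b1 : 2 * u + 1 < J.card := by omega
    have b2 : 2 * v < J.card := by omega
    have b3 : 2 * u < J.card := by omega
    have e1 := h1 _ (htm _ b3) _ (htm _ b1) (htl _ _ (Nat.lt_succ_self _) b1)
    have e2 := h2 _ (htm _ b1) _ (htm _ b2) (htl _ _ (by omega) b2)
    have e3 : (y' (t (2 * u + 1)) ∈ f u) ↔ c₁ :=
      ⟨fun h => e1.mp h.2, fun h => ⟨hy _ (htm _ b1), e1.mpr h⟩⟩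
    have e4 : (y' (t (2 * u + 1)) ∈ f v) ↔ c₂ :=
      ⟨fun h => e2.mp h.2, fun h => ⟨hy _ (htm _ b1), e2.mpr h⟩⟩
    rw [h] at e3
    exact hne (e3.symm.trans e4)
  have hio : Set.InjOn f (Finset.range (2 ^ k + 1) : Set ℕ) := by
    intro u hu v hv huv
    have hu' : u ≤ 2 ^ k := Nat.lt_succ_iff.mp (Finset.mem_range.mp hu)
    have hv' : v ≤ 2 ^ k := Nat.lt_succ_iff.mp (Finset.mem_range.mp hv)
    rcases lt_trichotomy u v with h | h | h
    · exact absurd huv (hinj u v h hv')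
    · exact h
    · exact absurd huv.symm (hinj v u h hu')
  have hsub : f '' (Finset.range (2 ^ k + 1) : Set ℕ) ⊆ Tr G A A' := by
    rintro _ ⟨u, hu, rfl⟩
    have hu' : u ≤ 2 ^ k := Nat.lt_succ_iff.mp (Finset.mem_range.mp hu)
    exact ⟨r (t (2 * u)), hr _ (htm _ (by omega)), rfl⟩
  have h3 := ON.oTR V G A A'
  have h4 := (Set.encard_le_encard hsub).trans h3
  rw [hio.encard_image, Set.encard_coe_eq_coe_finsetCard, Finset.card_range] at h4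
  have h5 : 2 ^ k + 1 ≤ 2 ^ LK.rk G A A' := by exact_mod_cast h4
  have h6 : 2 ^ LK.rk G A A' ≤ 2 ^ k := Nat.pow_le_pow_right (by norm_num) hrk
  omega

theorem uAG : S_AG := by
  intro hRf hEq hGd hK5 hF1 L₁ hAn N B k m
  obtain ⟨n, hn⟩ := hF1
  obtain ⟨m₂, hm₂⟩ := hRf (Prop × Prop × Prop) (m + N + n + 2 ^ (k + 1) + 2)
  obtain ⟨M₁, hM₁⟩ := hAn m₂
  refine ⟨(2 * B + 1) * M₁, ?_⟩
  intro V _ G L hE hL A A' hrk I K r y y' hM hI hIJ
  obtain ⟨J₁, hJ₁, hc₁, hR₁⟩ := thin B M₁ I (fun i j => y j ∈ Mi G (K i)) (by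
    intro i hi J hJ h
    refine (count1 (X := Mi G (K i)) (fun a ha b hb hab => (hIJ a (hJ ha) b (hJ hb) hab).2.1)
      fun j hj => (h j hj).2).trans (hI i hi).1.mi) hM
  have hxc : ∀ i ∈ J₁, ∀ j ∈ J₁, i ≠ j → y j ∉ Xc G (K i) := by
    intro i hi j hj hij h
    rcases h with h | h
    · exact (hIJ i (hJ₁ hi) j (hJ₁ hj) hij).2.2.1 h
    · exact hR₁ i hi j hj hij h
  have hco : ∀ i ∈ J₁, ∀ j ∈ J₁, i ≠ j → G.Adj (r i) (y' j) → ∀ x ∈ K i, G.Adj (y j) x := by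
    intro i hi j hj hij h
    rcases ho (hxc i hi j hj hij) with h1 | h1
    · exact h1
    · exact absurd ((hIJ i (hJ₁ hi) j (hJ₁ hj) hij).2.2.2.mpr h).symm (h1 _ (hI i (hJ₁ hi)).2.1)
  have han : ∀ i ∈ J₁, ∀ j ∈ J₁, i ≠ j → ¬ G.Adj (r i) (y' j) → ∀ x ∈ K i, ¬ G.Adj (y j) x := by
    intro i hi j hj hij h
    rcases ho (hxc i hi j hj hij) with h1 | h1
    · exact absurd ((hIJ i (hJ₁ hi) j (hJ₁ hj) hij).2.2.2.mp (h1 _ (hI i (hJ₁ hi)).2.1).symm) h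
    · exact h1
  obtain ⟨J₂, hJ₂, hc₂, hAn₂⟩ := hM₁ V G B L N hE hL J₁ K hc₁.ge (fun i hi => (hI i (hJ₁ hi)).1)
    fun i hi j hj hij => (hIJ i (hJ₁ hi) j (hJ₁ hj) hij).1
  obtain ⟨J₃, hJ₃, hc₃, ⟨c₁, c₂, c₃⟩, hχ⟩ := hm₂
    (fun i j => (G.Adj (r i) (y' j), G.Adj (r j) (y' i), G.Adj (y i) (y j))) J₂ hc₂.ge
  have hq : 0 < 2 ^ k := Nat.pow_pos (by norm_num)
  have s1 : ∀ i ∈ J₃, i ∈ J₁ := fun i hi => hJ₂ (hJ₃ hi)
  have s0 : ∀ i ∈ J₃, i ∈ I := fun i hi => hJ₁ (s1 i hi)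
  have e1 : ∀ i ∈ J₃, ∀ j ∈ J₃, i < j → (G.Adj (r i) (y' j) ↔ c₁) := fun i hi j hj hij =>
    iff_of_eq (congrArg Prod.fst (hχ i hi j hj hij))
  have e2 : ∀ i ∈ J₃, ∀ j ∈ J₃, i < j → (G.Adj (r j) (y' i) ↔ c₂) := fun i hi j hj hij =>
    iff_of_eq (congrArg (fun p => p.2.1) (hχ i hi j hj hij))
  have e3 : ∀ i ∈ J₃, ∀ j ∈ J₃, i < j → (G.Adj (y i) (y j) ↔ c₃) := fun i hi j hj hij =>
    iff_of_eq (congrArg (fun p => p.2.2) (hχ i hi j hj hij))
  have hcc : c₁ ↔ c₂ := AG_tr hrk J₃ r y' c₁ c₂ (by omega) (fun i hi => (hI i (s0 i hi)).2.2.1)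
    (fun i hi => (hI i (s0 i hi)).2.2.2.2) e1 e2
  have e4 : ∀ i ∈ J₃, ∀ j ∈ J₃, i ≠ j → (G.Adj (r i) (y' j) ↔ c₁) := by
    intro i hi j hj hij
    rcases lt_or_gt_of_ne hij with h | h
    · exact e1 i hi j hj h
    · exact (e2 j hj i hi h).trans hcc.symm
  have e5 : ∀ i ∈ J₃, ∀ j ∈ J₃, i ≠ j → (G.Adj (y i) (y j) ↔ c₃) := by
    intro i hi j hj hij
    rcases lt_or_gt_of_ne hij with h | h
    · exact e3 i hi j hj h
    · exact (G.adj_comm _ _).trans (e3 j hj i hi h)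
  have hmi : ∀ i ∈ J₃, y i ∈ Mi G (K i) := fun i hi => (hI i (s0 i hi)).2.2.2.1
  by_cases h₁ : c₁
  · have hcp : ∀ i ∈ J₃, ∀ j ∈ J₃, i ≠ j → ∀ x ∈ K j, G.Adj (y i) x := fun i hi j hj hij =>
      hco j (s1 j hj) i (s1 i hi) hij.symm ((e4 j hj i hi hij.symm).mpr h₁)
    by_cases h₃ : c₃
    · obtain ⟨J, hJ, hJc⟩ := Finset.exists_subset_card_eq (s := J₃) (n := m) (by omega)
      refine ⟨J, fun i hi => s0 i (hJ hi), hJc, AF.mono ?_ hJ⟩
      exact ⟨fun i hi => (hI i (s0 i hi)).1, hmi, fun i hi j hj hij =>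
        hAn₂ i (hJ₃ hi) j (hJ₃ hj) hij, hcp, fun i hi j hj hij => (e5 i hi j hj hij).mpr h₃⟩
    · exfalso
      have hch : ∀ i ∈ J₃, ∃ x ∈ K i, ¬ G.Adj (y i) x := fun i hi => (hmi i hi).2.2
      have : Nonempty V := by
        have hne : J₃.Nonempty := Finset.card_pos.mp (by omega)
        exact ⟨y hne.choose⟩
      choose! a ha using hch
      refine hn V G hE.fj J₃ a y (by omega) (fun i hi j hj => ⟨?_, ?_⟩) fun i hi j hj => ⟨?_, ?_⟩
      · by_cases hij : i = j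
        · rw [hij]
          exact G.irrefl
        · exact hAn₂ i (hJ₃ hi) j (hJ₃ hj) hij _ (ha i hi).1 _ (ha j hj).1
      · by_cases hij : i = j
        · rw [hij]
          exact G.irrefl
        · exact fun h => h₃ ((e5 i hi j hj hij).mp h)
      · intro h
        have h1 := (ha i hi).1
        rw [h] at h1
        by_cases hij : i = j
        · subst hij
          exact (hmi i hi).1 h1
        · exact (hIJ i (s0 i hi) j (s0 j hj) hij).2.2.1 h1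
      · constructor
        · intro h hij
          subst hij
          exact (ha i hi).2 h.symm
        · intro hij
          exact (hcp j hj i hi (Ne.symm hij) _ (ha i hi).1).symm
  · exfalso
    have hac : ∀ i ∈ J₃, ∀ j ∈ J₃, i ≠ j → ∀ x ∈ K j, ¬ G.Adj (y i) x := fun i hi j hj hij =>
      han j (s1 j hj) i (s1 i hi) hij.symm fun h => h₁ ((e4 j hj i hi hij.symm).mp h)
    have : Nonempty V := by
      have hne : J₃.Nonempty := Finset.card_pos.mp (by omega)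
      exact ⟨y hne.choose⟩
    have hed : ∀ i ∈ J₃, ∃ a b, a ∈ K i ∧ b ∈ K i ∧ G.Adj a b := by
      intro i hi
      obtain ⟨a, ha, b, hb, hab⟩ := (hI i (s0 i hi)).1.edge
      exact ⟨a, b, ha, hb, hab⟩
    choose! a b hab using hed
    obtain ⟨i, hi, h⟩ := hK5 hEq hGd V G B L N hE J₃ K a b (by omega)
      (fun i hi => (hI i (s0 i hi)).1) (fun i hi j hj hij => hAn₂ i (hJ₃ hi) j (hJ₃ hj) hij)
      fun i hi => hab i hi
    obtain ⟨j, hj, hji, h1, _⟩ := h (y i) (hmi i hi).1 (hmi i hi).2.1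
    exact hac i hi j hj hji.symm _ (hab j hj).1 h1

end Pool.Agent.MPd439b2.RB
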