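import Pool.Agent.Lib.MP_d439b2_co.RB.Eq

/-!
# MP_d439b2_co, RB: `S_Al`, long matchings have a letter in a good cell without alpha-vertices (helper26)
-/

set_option autoImplicit false

namespace Pool.Agent.MPd439b2.RB

open Pool.Agent.MPd439b2 Pool.Agent.MPd439b2.Rep Pool.Agent.MPd439b2.NK Pool.Agent.MPd439b2.H1T
open Pool.Agent.MPd439b2.P41N (LS Mi)

theorem ncard_bU {V : Type} [Finite V] (T : ℕ → Set V) (b : ℕ) (J : Finset ℕ)
    (h : ∀ l ∈ J, (T l).ncard ≤ b) : {x | ∃ l ∈ J, x ∈ T l}.ncard ≤ J.card * b := by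
  classical
  induction J using Finset.induction_on with
  | empty => simp
  | insert a J ha ih =>
    have h1 : {x | ∃ l ∈ insert a J, x ∈ T l} = T a ∪ {x | ∃ l ∈ J, x ∈ T l} := by
      ext x
      simp only [Finset.mem_insert, Set.mem_ofPred_eq, Set.mem_union]
      constructor
      · rintro ⟨l, rfl | hl, hx⟩
        · exact Or.inl hx
        · exact Or.inr ⟨l, hl, hx⟩
      · rintro (hx | ⟨l, hl, hx⟩)
        · exact ⟨a, Or.inl rfl, hx⟩
        · exact ⟨l, Or.inr hl, hx⟩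
    rw [h1, Finset.card_insert_of_notMem ha]
    have h2 := Set.ncard_union_le (T a) {x | ∃ l ∈ J, x ∈ T l}
    have h3 := h a (Finset.mem_insert_self _ _)
    have h4 := ih fun l hl => h l (Finset.mem_insert_of_mem hl)
    have h5 : (J.card + 1) * b = J.card * b + b := by ring
    omega

theorem uAl : S_Al := by
  classical
  intro hEq hGd L₁ hAn B N n₀
  obtain ⟨m₁, hm₁⟩ := hAn ((2 * (n₀ * (B + 1)) + 1) * N)
  refine ⟨(2 * B + 1) * m₁ + N, fun V _ G L hE hL₁ e S hL hS => ?_⟩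
  by_contra hcon
  push Not at hcon
  -- the letters in good cells
  obtain ⟨S₀, hS₀⟩ : ∃ S₀, S₀ = S.filter fun i => ∃ K, GK G B L K ∧ ∀ s, e s i ∈ K := ⟨_, rfl⟩
  have hS₀S : S₀ ⊆ S := by
    rw [hS₀]
    exact Finset.filter_subset _ _
  have h0 : (S \ S₀).card < N := by
    by_contra h1
    push Not at h1
    have h2 : LS G e (S \ S₀) := hL.mono Finset.sdiff_subset
    obtain ⟨i, hi, K, hK⟩ := hE.gb e (S \ S₀) h2 h1
    refine (Finset.mem_sdiff.1 hi).2 ?_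
    rw [hS₀, Finset.mem_filter]
    exact ⟨(Finset.mem_sdiff.1 hi).1, K, ⟨e, S \ S₀, i, h2, hi, hK⟩, hK.mem⟩
  have h1 : (2 * B + 1) * m₁ ≤ S₀.card := by
    have h2 := Finset.card_sdiff_add_card_eq_card hS₀S
    omega
  have h2 : ∀ i, ∃ K, i ∈ S₀ → GK G B L K ∧ ∀ s, e s i ∈ K := by
    intro i
    by_cases hi : i ∈ S₀
    · rw [hS₀, Finset.mem_filter] at hi
      obtain ⟨K, hK⟩ := hi.2
      exact ⟨K, fun _ => hK⟩
    · exact ⟨∅, fun h => absurd h hi⟩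
  choose K hK using h2
  -- different cells
  obtain ⟨S₁, hS₁, hc₁, hd₁⟩ := thin B m₁ S₀ (fun i j => K i = K j) (fun i hi J hJ h => by
    refine (count1 (X := K i) (y := fun j => e false j) (fun j hj j' hj' hne =>
      hL.ne (hS₀S (hJ hj)) (hS₀S (hJ hj')) hne _ _) fun j hj => ?_).trans (hK i hi).1.kb
    rw [(h j hj).2]
    exact (hK j (hJ hj)).2 false) h1
  -- no edges between the cells
  obtain ⟨S₂, hS₂, hc₂, hd₂⟩ := hm₁ V G B L N hE hL₁ S₁ K (by omega)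
    (fun i hi => (hK i (hS₁ hi)).1) hd₁
  have hS₂₀ : S₂ ⊆ S₀ := hS₂.trans hS₁
  -- the alpha-families
  have h3 : ∀ i, ∃ (I : Finset ℕ) (u : ℕ → V) (C : ℕ → Set V) (c : ℕ), i ∈ S₂ →
      AF G B L I u C ∧ Rg G I u C ∧ B + 1 ≤ I.card ∧ I.card ≤ n₀ ∧ c ∈ I ∧ u c ∈ K i := by
    intro i
    by_cases hi : i ∈ S₂
    · have h4 : ¬ KS G B L n₀ (K i) := fun h4 => by
        obtain ⟨s, hs⟩ := hcon i (hS₀S (hS₂₀ hi)) (K i) h4
        exact hs ((hK i (hS₂₀ hi)).2 s)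
      have h5 : ∃ w ∈ K i, ∃ C, Ap G B L n₀ w C := by
        by_contra h5
        push Not at h5
        exact h4 ⟨(hK i (hS₂₀ hi)).1, h5⟩
      obtain ⟨w, hw, C₀, I, u, C, g1, g2, g3, g4, c, hc, rfl, -⟩ := h5
      exact ⟨I, u, C, c, fun _ => ⟨g1, g2, g3, g4, hc, hw⟩⟩
    · exact ⟨∅, fun _ => e false 0, fun _ => ∅, 0, fun h => absurd h hi⟩
  choose I u C c hI using h3
  obtain ⟨S₃, hS₃, hc₃, hd₃⟩ := thin (n₀ * (B + 1)) N S₂
    (fun i j => ∃ l ∈ I i, u i l ∈ K j ∨ ∃ x ∈ K j, G.Adj (u i l) x) (fun i hi J hJ h => by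
      obtain ⟨g1, g2, g3, g4, g5, g6⟩ := hI i hi
      have h4 : {x | ∃ l ∈ I i, x ∈ insert (u i l) (Xc G (C i l))}.ncard ≤ n₀ * (B + 1) := by
        refine (ncard_bU _ (B + 1) (I i) fun l hl => ?_).trans (Nat.mul_le_mul_right _ g4)
        exact (Set.ncard_insert_le _ _).trans (Nat.add_le_add_right (g1.gk l hl).bd 1)
      refine (count (T := K) (fun j hj j' hj' hne => an_disj hEq hE (hK j (hS₂₀ (hJ hj))).1
        (hK j' (hS₂₀ (hJ hj'))).1 (hd₂ j (hJ hj) j' (hJ hj') hne)) fun j hj => ?_).trans h4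
      obtain ⟨hne, l, hl, h5 | ⟨x, hx, h5⟩⟩ := h j hj
      · exact ⟨u i l, h5, l, hl, Or.inl rfl⟩
      · by_contra h6
        have h7 : ∀ l' ∈ I i, x ∉ Xc G (C i l') := fun l' hl' h8 => h6 ⟨x, hx, l', hl', Or.inr h8⟩
        exact hd₂ i hi j (hJ hj) (fun h8 => hne h8.symm) _ g6 x hx ((g2 x h7 l hl _ g5).1 h5)) (by omega)
  have hS₃₀ : S₃ ⊆ S₀ := hS₃.trans hS₂₀
  -- a good letter
  obtain ⟨i, hi, hG⟩ := hGd hEq V G B L N hE e S₃ K (hL.mono (hS₃₀.trans hS₀S)) (by omega)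
    fun i hi => hK i (hS₃₀ hi)
  obtain ⟨g1, g2, g3, g4, g5, g6⟩ := hI i (hS₃ hi)
  have h4 : ∀ l ∈ I i, u i l ∈ K i := by
    intro l hl
    by_cases hlc : l = c i
    · rw [hlc]
      exact g6
    · by_contra h5
      obtain ⟨F, -, hF, hfr⟩ := hG.fr
      obtain ⟨s, hs⟩ := hfr _ h5 ⟨_, g6, g1.cl l hl _ g5 hlc⟩
      obtain ⟨hFS, hiF, hFc, -⟩ := hF s
      have h6 := hE.bl
      obtain ⟨j, hj⟩ : (F s).Nonempty := by
        rw [← Finset.card_pos]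
        omega
      exact hd₃ i hi j (hFS hj) (fun h => hiF (h ▸ hj))
        ⟨l, hl, Or.inr ⟨_, (hK j (hS₃₀ (hFS hj))).2 false, hs j hj false⟩⟩
  have h5 : (I i).card ≤ (K i).ncard :=
    count1 (y := u i) (fun l hl l' hl' hne h => hne (g1.inj hl hl' h)) h4
  have h6 := (hK i (hS₃₀ hi)).1.kb
  omega

end Pool.Agent.MPd439b2.RB
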