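import Pool.Agent.Lib.MP_d439b2_co.RB.SpecA
import Pool.Agent.Lib.MP_d439b2_co.W.Dirt

/-!
# MP_d439b2_co, RB: `S_An`, many good cells: many of them without edges between them (helper28)
-/

set_option autoImplicit false

namespace Pool.Agent.MPd439b2.RB

open Pool.Agent.MPd439b2 Pool.Agent.MPd439b2.Rep Pool.Agent.MPd439b2.NK Pool.Agent.MPd439b2.H1T
open Pool.Agent.MPd439b2.P41N (LS Mi)

variable {V : Type}

/-- the far letters of a good cell -/
theorem GK.far {G : SimpleGraph V} {B L : ℕ} {K : Set V} (h : GK G B L K) :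
    ∃ e' : Bool → ℕ → Bool → V, (∀ s, ∀ a < L, G.Adj (e' s a false) (e' s a true)) ∧
      (∀ s s', ∀ a < L, ∀ a' < L, (s, a) ≠ (s', a') → ∀ b b',
        e' s a b ≠ e' s' a' b' ∧ ¬ G.Adj (e' s a b) (e' s' a' b')) ∧
      (∀ s, ∀ a < L, ∀ b, e' s a b ∉ K ∧ ∀ x ∈ K, ¬ G.Adj (e' s a b) x) ∧
      ∀ v, v ∉ K → (∃ x ∈ K, G.Adj v x) → ∃ s, ∀ a < L, ∀ b, G.Adj v (e' s a b) := by
  obtain ⟨e, S, i, hL, hi, hG⟩ := h
  obtain ⟨F, hF, hF1, hF2⟩ := hG.fr
  have h1 := fun s => W.Dirt56.enum (F s) L (le_of_eq (hF1 s).2.2.1.symm)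
  choose f hf hf' using h1
  have hS : ∀ s, ∀ a < L, f s a ∈ S := fun s a ha => (hF1 s).1 (hf s a ha)
  have hne : ∀ s s', ∀ a < L, ∀ a' < L, (s, a) ≠ (s', a') → f s a ≠ f s' a' := by
    intro s s' a ha a' ha' h1 h2
    rcases eq_or_ne s s' with rfl | h3
    · exact h1 (by rw [hf' s a ha a' ha' h2])
    · have h4 := hf s a ha
      have h5 := hf s' a' ha'
      rw [← h2] at h5
      rcases s with _ | _ <;> rcases s' with _ | _
      · exact h3 rfl
      · exact Finset.disjoint_left.1 hF h4 h5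
      · exact Finset.disjoint_left.1 hF h5 h4
      · exact h3 rfl
  refine ⟨fun s a b => e b (f s a), fun s a ha => hL.adj (hS s a ha) false,
    fun s s' a ha a' ha' h1 b b' => ?_, fun s a ha b => ?_, fun v hv hx => ?_⟩
  · have h2 := hne s s' a ha a' ha' h1
    exact ⟨hL.ne (hS s a ha) (hS s' a' ha') h2 b b', hL.nadj (hS s a ha) (hS s' a' ha') h2 b b'⟩
  · have h2 : ∀ x ∈ K, ¬ Tc G e x (f s a) := fun x hx => (hF1 s).2.2.2 x hx _ (hf s a ha)
    refine ⟨fun h3 => h2 _ h3 ((hL.tc (hS s a ha) (hS s a ha) b).2 rfl), fun x hx h3 => h2 x hx ⟨b, h3.symm⟩⟩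
  · obtain ⟨s, hs⟩ := hF2 v hv hx
    exact ⟨s, fun a ha b => hs _ (hf s a ha) b⟩

theorem uAn : S_An := by
  classical
  intro hRf hEq M₁ L₁ hC m
  obtain ⟨M, hM⟩ := hRf Prop (max m M₁)
  refine ⟨M, fun V _ G B L N hE hL I K hI hK hne => ?_⟩
  obtain ⟨J, hJI, hJc, c, hc⟩ := hM (fun i j => An G (K i) (K j)) I hI
  rcases isEmpty_or_nonempty V with hV | hV
  · have h0 : J = ∅ := Finset.eq_empty_of_forall_notMem fun i hi => by
      obtain ⟨x, _⟩ := (hK i (hJI hi)).cn.1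
      exact hV.false x
    rw [h0, Finset.card_empty] at hJc
    exact ⟨∅, by simp, by simp; omega, fun i hi => absurd hi (by simp)⟩
  by_cases hcc : c
  · obtain ⟨J', hJ', hJ'c⟩ := Finset.exists_subset_card_eq (show m ≤ J.card by omega)
    refine ⟨J', hJ'.trans hJI, hJ'c, fun i hi j hj hij => ?_⟩
    rcases lt_or_gt_of_ne hij with h1 | h1
    · have := hc i (hJ' hi) j (hJ' hj) h1
      exact this ▸ hcc
    · have := hc j (hJ' hj) i (hJ' hi) h1
      exact An.symm (this ▸ hcc)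
  · exfalso
    have htou : ∀ i ∈ J, ∀ j ∈ J, i < j → ∃ x ∈ K i, ∃ y ∈ K j, G.Adj x y := by
      intro i hi j hj hij
      have h1 := hc i hi j hj hij
      by_contra h2
      push Not at h2
      exact hcc (h1 ▸ h2)
    obtain ⟨t, ht, ht'⟩ := W.Dirt56.enum J M₁ (by omega)
    have hfar := fun i => fun (hi : i < M₁) => (hK (t i) (hJI (ht i hi))).far
    choose! e h1 h2 h3 h4 using hfar
    refine hC V G hE.fh hE.fj (fun i => K (t i)) e (fun i hi j hj hij => ?_)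
      (fun i hi s a ha => h1 i hi s a (ha.trans_le hL))
      (fun i hi s s' a ha a' ha' hn b b' => h2 i hi s s' a (ha.trans_le hL) a' (ha'.trans_le hL) hn b b')
      (fun i hi s a ha b => h3 i hi s a (ha.trans_le hL) b) (fun i hi v hv hx => ?_) fun i hi j hj hij => ?_
    · have h5 : t i ≠ t j := fun h => hij (ht' i hi j hj h)
      rw [Set.disjoint_left]
      intro x hx hx'
      exact hne _ (hJI (ht i hi)) _ (hJI (ht j hj)) h5
        (hEq V G B L N hE _ _ (hK _ (hJI (ht i hi))) (hK _ (hJI (ht j hj))) ⟨x, hx, hx'⟩)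
    · obtain ⟨s, hs⟩ := h4 i hi v hv hx
      exact ⟨s, fun a ha b => hs a (ha.trans_le hL) b⟩
    · have h5 : t i ≠ t j := fun h => hij (ht' i hi j hj h)
      rcases lt_or_gt_of_ne h5 with h6 | h6
      · exact htou _ (ht i hi) _ (ht j hj) h6
      · obtain ⟨x, hx, y, hy, hxy⟩ := htou _ (ht j hj) _ (ht i hi) h6
        exact ⟨y, hy, x, hx, hxy.symm⟩

end Pool.Agent.MPd439b2.RB
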