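import Pool.Agent.Lib.MP_d439b2_co.P41N.Base
import Pool.Agent.Lib.MP_d439b2_co.X3.H1R.Base
import Pool.Agent.Lib.MP_d439b2_co.W.Dig
import Pool.Agent.Lib.MP_d439b2_co.ON.Spec

/-!
# MP_d439b2_co, RB: bounded cells (STEP B of the removal of large induced matchings; helper79, after helper90's note 2970)

`G` has no induced minor `K3:0,1,02` (`FH G`) and no `co(P_3 + 2 P_2)` (`FJ 2 G`).  A matching is `e : Bool → ℕ → V` with a finite
set `S` of letters (`P41N.LS G e S`); `NK.Tc G e v i`: `v` touches the letter `i`; `P41N.Mi G K`: the vertices which are mixed on `K`.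
`Gl G B L e S i K`: `K` is a good cell of the letter `i`; `GK`: good cells; `En`: the environment; `AF`: alpha-families; `Rg`: regular
families; `Ap`: alpha-pairs; `KS`: good cells without alpha-vertices; `Pl`: the placement.
-/

set_option autoImplicit false

namespace Pool.Agent.MPd439b2.RB

open Pool.Agent.MPd439b2 Pool.Agent.MPd439b2.Rep Pool.Agent.MPd439b2.NK Pool.Agent.MPd439b2.H1T
open Pool.Agent.MPd439b2.P41N (LS Mi)

variable {V : Type}

/-- no edges between `X` and `Y` -/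
def An (G : SimpleGraph V) (X Y : Set V) : Prop := ∀ x ∈ X, ∀ y ∈ Y, ¬ G.Adj x y

/-- the cell with its mixed vertices -/
def Xc (G : SimpleGraph V) (K : Set V) : Set V := K ∪ Mi G K

/-- `K` is a good cell of the letter `i` of the matching `e`, `S`: two sets of `L` letters of `S` without `i`, not touched by
`K`; every vertex outside `K` with a neighbour in `K` is complete to the letters of one of these sets -/
structure Gl (G : SimpleGraph V) (B L : ℕ) (e : Bool → ℕ → V) (S : Finset ℕ) (i : ℕ) (K : Set V) :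
    Prop where
  cn : Conn G K
  mem : ∀ s, e s i ∈ K
  bd : (Xc G K).ncard ≤ B
  fr : ∃ F : Bool → Finset ℕ, Disjoint (F false) (F true) ∧
    (∀ s, F s ⊆ S ∧ i ∉ F s ∧ (F s).card = L ∧ ∀ x ∈ K, ∀ j ∈ F s, ¬ Tc G e x j) ∧
    ∀ v, v ∉ K → (∃ x ∈ K, G.Adj v x) → ∃ s, ∀ j ∈ F s, ∀ t, G.Adj v (e t j)

/-- good cells -/
def GK (G : SimpleGraph V) (B L : ℕ) (K : Set V) : Prop :=
  ∃ (e : Bool → ℕ → V) (S : Finset ℕ) (i : ℕ), LS G e S ∧ i ∈ S ∧ Gl G B L e S i K

/-- the environment: every matching with `N` letters has a good letter -/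
structure En (G : SimpleGraph V) (B L N : ℕ) : Prop where
  fh : FH G
  fj : FJ 2 G
  bl : B + 1 ≤ L
  gb : ∀ (e : Bool → ℕ → V) (S : Finset ℕ), LS G e S → N ≤ S.card →
    ∃ i ∈ S, ∃ K, Gl G B L e S i K

/-- alpha-families: the vertex `w i` is mixed on the good cell `K i` and complete to the others -/
structure AF (G : SimpleGraph V) (B L : ℕ) (I : Finset ℕ) (w : ℕ → V) (K : ℕ → Set V) : Prop where
  gk : ∀ i ∈ I, GK G B L (K i)
  mx : ∀ i ∈ I, w i ∈ Mi G (K i)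
  an : ∀ i ∈ I, ∀ j ∈ I, i ≠ j → An G (K i) (K j)
  cp : ∀ i ∈ I, ∀ j ∈ I, i ≠ j → ∀ x ∈ K j, G.Adj (w i) x
  cl : ∀ i ∈ I, ∀ j ∈ I, i ≠ j → G.Adj (w i) (w j)

/-- regular families: the `w i` have the same trace outside the cells `K i` and their mixed vertices -/
def Rg (G : SimpleGraph V) (I : Finset ℕ) (w : ℕ → V) (K : ℕ → Set V) : Prop :=
  ∀ v, (∀ i ∈ I, v ∉ Xc G (K i)) → ∀ i ∈ I, ∀ j ∈ I, (G.Adj (w i) v ↔ G.Adj (w j) v)

/-- alpha-pairs -/
def Ap (G : SimpleGraph V) (B L n₀ : ℕ) (w : V) (K : Set V) : Prop :=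
  ∃ (I : Finset ℕ) (u : ℕ → V) (C : ℕ → Set V), AF G B L I u C ∧ Rg G I u C ∧
    B + 1 ≤ I.card ∧ I.card ≤ n₀ ∧ ∃ i ∈ I, u i = w ∧ C i = K

/-- good cells without alpha-vertices -/
def KS (G : SimpleGraph V) (B L n₀ : ℕ) (K : Set V) : Prop :=
  GK G B L K ∧ ∀ w ∈ K, ∀ C, ¬ Ap G B L n₀ w C

/-- alpha-vertices which have to be moved -/
def Wm (G : SimpleGraph V) (B L n₀ : ℕ) : Set V := {w | ∃ K, KS G B L n₀ K ∧ Ap G B L n₀ w K}

/-- the placement: `r K` is the representative of the cell `K`, `κ w` the cell of the alpha-vertex `w`, `p x` the representative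
of the cell of `x`, and `π x` the final place of `x` -/
structure Pl (G : SimpleGraph V) (B L n₀ : ℕ) (r : Set V → V) (κ : V → Set V) (p π : V → V) :
    Prop where
  rm : ∀ K, KS G B L n₀ K → r K ∈ K
  p1 : ∀ K, KS G B L n₀ K → ∀ x ∈ K, p x = r K
  p2 : ∀ x, (∀ K, KS G B L n₀ K → x ∉ K) → p x = x
  k1 : ∀ w ∈ Wm G B L n₀, KS G B L n₀ (κ w) ∧ Ap G B L n₀ w (κ w)
  q1 : ∀ w ∈ Wm G B L n₀, π w = r (κ w)
  q2 : ∀ w, w ∉ Wm G B L n₀ → π w = p w

/-- the vertices which survive -/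
def Sv (p : V → V) : Set V := {x | p x = x}

/-! ### easy facts -/

variable {G : SimpleGraph V} {B L N n₀ : ℕ}

theorem An.symm {X Y : Set V} (h : An G X Y) : An G Y X := fun y hy x hx h' => h x hx y hy h'.symm

theorem mi_sub {K : Set V} : Mi G K ⊆ Xc G K := fun _ h => Or.inr h

theorem k_sub {K : Set V} : K ⊆ Xc G K := fun _ h => Or.inl h

theorem GK.bd {K : Set V} (h : GK G B L K) : (Xc G K).ncard ≤ B := by
  obtain ⟨_, _, _, _, _, h1⟩ := h
  exact h1.bd

theorem GK.cn {K : Set V} (h : GK G B L K) : Conn G K := by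
  obtain ⟨_, _, _, _, _, h1⟩ := h
  exact h1.cn

/-- a good cell contains an edge -/
theorem GK.edge {K : Set V} (h : GK G B L K) : ∃ a ∈ K, ∃ b ∈ K, G.Adj a b := by
  obtain ⟨e, S, i, hL, hi, h1⟩ := h
  exact ⟨_, h1.mem false, _, h1.mem true, hL.adj hi false⟩

theorem GK.mi [Finite V] {K : Set V} (h : GK G B L K) : (Mi G K).ncard ≤ B :=
  (Set.ncard_le_ncard mi_sub (Set.toFinite _)).trans h.bd

theorem GK.kb [Finite V] {K : Set V} (h : GK G B L K) : K.ncard ≤ B :=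
  (Set.ncard_le_ncard k_sub (Set.toFinite _)).trans h.bd

/-- a vertex outside a cell which is not mixed on it is complete or anticomplete -/
theorem ho {K : Set V} {y : V} (h : y ∉ Xc G K) :
    (∀ x ∈ K, G.Adj y x) ∨ ∀ x ∈ K, ¬ G.Adj y x :=
  P41N.ho (fun h' => h (Or.inl h')) fun h' => h (Or.inr h')

/-- a part of an alpha-family -/
theorem AF.mono {I J : Finset ℕ} {w : ℕ → V} {K : ℕ → Set V} (h : AF G B L I w K) (hJ : J ⊆ I) :
    AF G B L J w K :=
  ⟨fun i hi => h.gk i (hJ hi), fun i hi => h.mx i (hJ hi), fun i hi j hj => h.an i (hJ hi) j (hJ hj),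
    fun i hi j hj => h.cp i (hJ hi) j (hJ hj), fun i hi j hj => h.cl i (hJ hi) j (hJ hj)⟩

/-- the vertices of an alpha-family are different -/
theorem AF.inj {I : Finset ℕ} {w : ℕ → V} {K : ℕ → Set V} (h : AF G B L I w K) {i j : ℕ}
    (hi : i ∈ I) (hj : j ∈ I) (hij : w i = w j) : i = j := by
  by_contra h1
  obtain ⟨_, _, x, hx, h2⟩ := h.mx j hj
  rw [← hij] at h2
  exact h2 (h.cp i hi j hj h1 x hx)

theorem Ap.mx {w : V} {K : Set V} (h : Ap G B L n₀ w K) : w ∈ Mi G K := by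
  obtain ⟨I, u, C, h1, _, _, _, i, hi, rfl, rfl⟩ := h
  exact h1.mx i hi

/-- counting: sets which meet `X` and are pairwise disjoint -/
theorem count {X : Set V} [Finite V] {J : Finset ℕ} {T : ℕ → Set V}
    (hT : ∀ i ∈ J, ∀ j ∈ J, i ≠ j → Disjoint (T i) (T j)) (hX : ∀ i ∈ J, (T i ∩ X).Nonempty) :
    J.card ≤ X.ncard := by
  classical
  rcases J.eq_empty_or_nonempty with rfl | ⟨i₀, hi₀⟩
  · simp
  have : Nonempty V := ⟨(hX i₀ hi₀).some⟩
  choose! f hf using hX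
  rw [← Set.ncard_coe_finset]
  refine Set.ncard_le_ncard_of_injOn f (fun i hi => (hf i hi).2) (fun i hi j hj h => ?_) (Set.toFinite _)
  by_contra h1
  exact Set.disjoint_left.1 (hT i hi j hj h1) (hf i hi).1 (h ▸ (hf j hj).1)

/-- counting: different vertices in `X` -/
theorem count1 {X : Set V} [Finite V] {J : Finset ℕ} {y : ℕ → V}
    (hy : ∀ i ∈ J, ∀ j ∈ J, i ≠ j → y i ≠ y j) (hX : ∀ i ∈ J, y i ∈ X) : J.card ≤ X.ncard :=
  count (T := fun i => {y i}) (fun i hi j hj h => Set.disjoint_singleton.2 (hy i hi j hj h))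
    fun i hi => ⟨y i, rfl, hX i hi⟩

/-- sparse digraphs (`W.dig`) in the form in which it is used -/
theorem thin (τ m : ℕ) (I : Finset ℕ) (R : ℕ → ℕ → Prop)
    (h : ∀ i ∈ I, ∀ J ⊆ I, (∀ j ∈ J, j ≠ i ∧ R i j) → J.card ≤ τ) (hc : (2 * τ + 1) * m ≤ I.card) :
    ∃ J ⊆ I, J.card = m ∧ ∀ i ∈ J, ∀ j ∈ J, i ≠ j → ¬ R i j := W.dig τ m I R h hc

end Pool.Agent.MPd439b2.RB
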