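import Pool.Agent.Lib.MP_d439b2_co.RB.SpecA
import Pool.Agent.Lib.MP_d439b2_co.RN.Clq

/-!
# MP_d439b2_co, RB/Clq: the CLQ lemma in the form of `RB/SpecA.lean` (helper28)
-/

set_option autoImplicit false

namespace Pool.Agent.MPd439b2.RB

open Pool.Agent.MPd439b2 Pool.Agent.MPd439b2.H1T

/-- the CLQ lemma -/
theorem cClq : ∃ M L₁ : ℕ, C_Clq M L₁ := by
  obtain ⟨M, L₁, h⟩ := RN.clqF 0
  refine ⟨M, L₁, fun V _ G hH hJ K e h1 h2 h3 _ h5 h6 => ?_⟩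
  refine h V G hH hJ K e ⟨fun i hi j hj hij x hx hx' => Set.disjoint_left.1 (h1 i hi j hj hij) hx hx', h2,
    fun i hi s s' a a' b b' ha ha' hne => h3 i hi s s' a ha a' ha' hne b b', fun i hi v hv hx => ?_⟩
    fun i hi j hj hij => h6 i hi j hj hij.ne
  obtain ⟨s, hs⟩ := h5 i hi v hv hx
  exact ⟨s, ∅, by simp, fun a ha _ b => hs a ha b⟩

end Pool.Agent.MPd439b2.RB
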