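import Pool.Agent.Lib.MP_d439b2_co.RB.SpecA

/-!
# MP_d439b2_co, RB: `S_Eq`, `S_Gd`, `S_K5`, `S_Mx` (helper26)
-/

set_option autoImplicit false

namespace Pool.Agent.MPd439b2.RB

open Pool.Agent.MPd439b2 Pool.Agent.MPd439b2.Rep Pool.Agent.MPd439b2.NK Pool.Agent.MPd439b2.H1T
open Pool.Agent.MPd439b2.P41N (LS Mi)

theorem uEq : S_Eq := by
  have key : ∀ (V : Type) [Finite V] (G : SimpleGraph V) (B L N : ℕ), En G B L N →
      ∀ K K', GK G B L K → GK G B L K' → (K ∩ K').Nonempty → K' ⊆ K := by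
    intro V _ G B L N hE K K' hK hK' hne
    by_contra hcon
    obtain ⟨u, hu, z, hz, huz⟩ := hK'.cn.2 (K ∩ K') Set.inter_subset_right hne
      fun h => hcon (by rw [← h]; exact Set.inter_subset_left)
    have hzK : z ∉ K := fun h => hz.2 ⟨h, hz.1⟩
    obtain ⟨e, S, i, hL, hi, hG⟩ := hK
    obtain ⟨F, -, hF, hfr⟩ := hG.fr
    obtain ⟨s, hs⟩ := hfr z hzK ⟨u, hu.1, huz.symm⟩
    obtain ⟨hFS, -, hFc, hFt⟩ := hF s
    have h1 : (F s).card ≤ (Xc G K').ncard := by
      refine count1 (y := fun j => e false j) (fun j hj j' hj' hne => hL.ne (hFS hj) (hFS hj') hne _ _)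
        fun j hj => ?_
      by_contra h2
      rcases ho h2 with h3 | h3
      · exact hFt u hu.1 j hj ⟨false, (h3 u hu.2).symm⟩
      · exact h3 z hz.1 (hs j hj false).symm
    have h2 := hK'.bd
    have h3 := hE.bl
    omega
  intro V _ G B L N hE K K' hK hK' hne
  exact Set.Subset.antisymm (key V G B L N hE K' K hK' hK (by rwa [Set.inter_comm]))
    (key V G B L N hE K K' hK hK' hne)

theorem uGd : S_Gd := by
  intro hEq V _ G B L N hE e S K hL hN hK
  obtain ⟨i, hi, K', hK'⟩ := hE.gb e S hL hN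
  refine ⟨i, hi, ?_⟩
  have h1 : K' = K i := hEq V G B L N hE K' (K i) ⟨e, S, i, hL, hi, hK'⟩ (hK i hi).1
    ⟨e false i, hK'.mem false, (hK i hi).2 false⟩
  rwa [← h1]

/-- good cells without edges between them are disjoint -/
theorem an_disj (hEq : S_Eq) {V : Type} [Finite V] {G : SimpleGraph V} {B L N : ℕ} (hE : En G B L N)
    {K K' : Set V} (hK : GK G B L K) (hK' : GK G B L K') (h : An G K K') : Disjoint K K' := by
  rw [Set.disjoint_left]
  intro x hx hx'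
  have h1 := hEq V G B L N hE K K' hK hK' ⟨x, hx, hx'⟩
  obtain ⟨a, ha, b, hb, hab⟩ := hK.edge
  exact h a ha b (h1 ▸ hb) hab

theorem uK5 : S_K5 := by
  intro hEq hGd V _ G B L N hE I K a b hN hK hAn hab
  let e : Bool → ℕ → V := fun s i => if s then b i else a i
  have he : ∀ i ∈ I, ∀ s, e s i ∈ K i := by
    intro i hi s
    cases s
    · exact (hab i hi).1
    · exact (hab i hi).2.1
  have hL : LS G e I := by
    intro i hi j hj s t
    by_cases hij : i = j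
    · subst hij
      have h1 := (hab i hi).2.2
      cases s <;> cases t <;> simp [e, h1, h1.symm]
    · constructor
      · intro h
        exact absurd h (hAn i hi j hj hij _ (he i hi s) _ (he j hj t))
      · intro h
        exact absurd h.1 hij
  obtain ⟨i, hi, hG⟩ := hGd hEq V G B L N hE e I K hL hN fun i hi => ⟨hK i hi, he i hi⟩
  refine ⟨i, hi, fun y hy hyx => ?_⟩
  obtain ⟨F, -, hF, hfr⟩ := hG.fr
  obtain ⟨s, hs⟩ := hfr y hy hyx
  obtain ⟨hFS, hiF, hFc, -⟩ := hF s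
  have h1 := hE.bl
  obtain ⟨j, hj⟩ : (F s).Nonempty := by
    rw [← Finset.card_pos]
    omega
  exact ⟨j, hFS hj, fun h => hiF (h ▸ hj), hs j hj false, hs j hj true⟩

theorem uMx : S_Mx := by
  intro hEq hGd hK5 V _ G B L N hE I K v hN hK hAn hv
  have h1 : ∀ i, ∃ ab : V × V, i ∈ I → ab.1 ∈ K i ∧ ab.2 ∈ K i ∧ G.Adj ab.1 ab.2 ∧
      ¬ G.Adj v ab.1 ∧ G.Adj v ab.2 := by
    intro i
    by_cases hi : i ∈ I
    · obtain ⟨b, hb, a, ha, h2, h3, h4⟩ := P41N.mi_edge (hK i hi).cn (hv i hi)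
      exact ⟨(b, a), fun _ => ⟨hb, ha, h2, h3, h4⟩⟩
    · exact ⟨(v, v), fun h => absurd h hi⟩
  choose f hf using h1
  obtain ⟨i, hi, h2⟩ := hK5 hEq hGd V G B L N hE I K (fun i => (f i).1) (fun i => (f i).2) hN hK hAn
    fun i hi => ⟨(hf i hi).1, (hf i hi).2.1, (hf i hi).2.2.1⟩
  obtain ⟨j, hj, -, h3, -⟩ := h2 v (hv i hi).1 ⟨_, (hf i hi).2.1, (hf i hi).2.2.2.2⟩
  exact (hf j hj).2.2.2.1 h3

end Pool.Agent.MPd439b2.RB
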