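import Pool.Agent.Lib.MP_d439b2_co.RB.SpecA
import Pool.Agent.Lib.MP_d439b2_co.RN.Eng

/-!
# MP_d439b2_co, RB/F2: the finite tables of the alpha-families (helper79)

`F1`: two stable rails with a co-matching contain `J_2` (6 indices).  `F2`: four rails `a, b, w, y` with 4 indices, 95 patterns, one
certificate (a model of `K3:0,1,02` or of `J_2` with 16 vertices) for each of them.
-/

set_option autoImplicit false

namespace Pool.Agent.MPd439b2.RB

open Pool.Agent.MPd439b2 Pool.Agent.MPd439b2.H1T Pool.Agent.MPd439b2.HC Pool.Agent.MPd439b2.BU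

namespace F2Aux

/-- the increasing enumeration -/
theorem incr {I : Finset ℕ} {n : ℕ} (h : n ≤ I.card) :
    ∃ t : ℕ → ℕ, (∀ i < n, t i ∈ I) ∧ ∀ i j, i < j → j < n → t i < t j := by
  refine ⟨fun i => if hi : i < I.card then I.orderEmbOfFin rfl ⟨i, hi⟩ else 0, fun i hi => ?_,
    fun i j hij hj => ?_⟩
  · have h1 : i < I.card := by omega
    simp only [h1, dif_pos]
    exact I.orderEmbOfFin_mem rfl _
  · have h1 : i < I.card := by omega
    have h2 : j < I.card := by omega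
    simp only [h1, h2, dif_pos]
    exact (I.orderEmbOfFin rfl).strictMono hij

/-- a pattern of single vertices -/
theorem sp_sg {V : Type} {G : SimpleGraph V} {x : ℕ → V} {r : ℕ → ℕ → Bool} {n : ℕ}
    (h : ∀ p < n, ∀ q < p, x p ≠ x q ∧ (G.Adj (x p) (x q) ↔ r p q = true)) :
    SP G Set.univ n (fun p => {x p}) r := by
  refine ⟨fun _ _ => Set.subset_univ _, fun _ _ => Conn.singleton G _, fun p hp q hq => ?_,
    fun p hp q hq => ?_⟩
  · exact Set.disjoint_singleton.2 (h p hp q hq).1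
  · rw [tch_single]
    exact (h p hp q hq).2

theorem bf {a b : ℕ} : Nat.beq a b = false ↔ a ≠ b := by
  constructor
  · rintro h rfl
    rw [Nat.beq_refl] at h
    exact absurd h (by decide)
  · intro h
    rw [Bool.eq_false_iff]
    exact fun h' => h (Nat.eq_of_beq_eq_true h')

/-- the table of the co-matching -/
def tab1 (u v : ℕ) : Bool := !(Nat.beq (u % 2) (v % 2)) && !(Nat.beq (u / 2) (v / 2))

theorem ck1 : chkG 12 7 tab1 FT.qJ2 [[0], [2, 1], [3], [7, 4], [6, 5], [11, 8], [10, 9]] = true := by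
  decide

/-- the relations of the rails for `i = j` -/
def eT (p₂ q₂ : Bool) (d c : ℕ) : Bool :=
  [false, true, true, p₂, false, false, false, p₂, false, false, false, q₂].getD (4 * d + c) false

/-- the relations of the rails, `d` at the smaller index, `c` at the larger one -/
def lT (p₁ p₃ q₁ q₃ s : Bool) (d c : ℕ) : Bool :=
  [false, false, true, p₁, false, false, true, p₁, true, true, true, q₁, p₃, p₃, q₃, s].getD (4 * d + c) false

/-- the table -/
def tab (p₁ p₂ p₃ q₁ q₂ q₃ s : Bool) (u v : ℕ) : Bool :=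
  bif Nat.beq (u / 4) (v / 4) then eT p₂ q₂ (v % 4) (u % 4) else lT p₁ p₃ q₁ q₃ s (v % 4) (u % 4)

/-- the number of a pattern -/
def num (p₁ p₂ p₃ q₁ q₂ q₃ s : Bool) : ℕ :=
  s.toNat + 2 * p₁.toNat + 4 * p₂.toNat + 8 * p₃.toNat + 16 * q₁.toNat + 32 * q₂.toNat + 64 * q₃.toNat

/-- the certificates -/
def cert : List (Bool × List (List ℕ)) :=
  [(true, []), (true, []), (true, []), (true, []), (true, []), (true, []), (true, []), (true, []), (true, []),
  (true, []), (true, []), (true, []), (true, []), (true, []), (true, []), (true, []),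
  (true, [[2], [6], [4], [7], [1], [5]]), (true, [[2], [6], [4], [7], [1], [5]]),
  (true, [[6], [0], [11], [8], [7], [4]]), (true, [[7], [2], [0], [3], [4], [1]]),
  (true, [[6], [0], [10], [9], [3], [4]]), (true, [[2], [0], [6], [5], [3], [8]]),
  (true, [[2], [0], [6], [5], [3], [8]]), (true, [[10], [0], [6], [5], [3], [8]]),
  (true, [[2], [6], [4], [7], [1], [5]]), (true, [[2], [6], [4], [7], [1], [5]]),
  (true, [[2], [5], [11], [7], [3], [6]]), (false, [[6, 0], [3], [2], [10, 8], [11], [5, 4], [7]]),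
  (true, [[2], [10], [4], [11], [1], [7]]), (false, [[2], [3], [6], [10, 1], [11, 7], [5, 4], [9, 8]]),
  (false, [[5, 4], [9], [10, 0], [2], [3, 1], [6], [7]]), (false, [[10], [7], [6], [3, 1], [2], [5, 4], [9, 8]]),
  (true, [[6], [2], [0], [7], [3], [1]]), (true, [[6], [2], [0], [7], [5], [1]]),
  (true, [[2], [6], [4], [3], [1], [5]]), (true, [[2], [6], [4], [3], [1], [5]]),
  (true, [[6], [8], [2], [7], [11], [0]]), (true, [[3], [2], [0], [11], [4], [1]]),
  (true, [[2], [5], [10], [3], [7], [8]]), (true, [[7], [6], [0], [5], [8], [3]]),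
  (true, [[6], [2], [0], [7], [3], [1]]), (true, [[6], [2], [0], [7], [5], [1]]),
  (true, [[4], [6], [2], [11], [7], [3]]), (false, [[0], [4, 3], [1], [6, 2], [11], [7], [10, 5]]),
  (true, [[10], [4], [2], [11], [7], [0]]), (true, [[6], [8], [2], [1], [11], [4]]),
  (false, [[11, 5], [6], [3], [4], [0], [2], [7, 1]]), (false, [[4], [0], [5], [2], [11], [3], [10]]),
  (true, [[2], [6], [4], [3], [1], [5]]), (true, [[2], [6], [7], [5], [1], [3]]),
  (true, [[2], [6], [4], [3], [1], [5]]), (true, [[2], [6], [4], [3], [1], [5]]),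
  (true, [[2], [10], [11], [7], [1], [9]]), (true, [[2], [3], [11], [4], [1], [9]]),
  (true, [[10], [1], [6], [5], [3], [8]]), (true, [[7], [6], [0], [5], [8], [3]]),
  (true, [[2], [10], [4], [7], [1], [3]]), (false, [[6, 0], [3], [10, 1], [8], [15], [11, 7], [14, 4]]),
  (false, [[0], [12, 3], [1], [13, 11], [15, 8], [7], [14, 10]]),
  (false, [[6, 0], [3], [10, 1], [13, 12], [15, 4], [7], [14, 5]]), (true, [[2], [3], [4], [11], [1], [7]]),
  (false, [[8], [4], [11], [3], [6], [10, 1], [9, 7]]), (false, [[1], [9], [0], [6], [5, 3], [11, 10], [7]]),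
  (false, [[0], [9, 8], [1], [5, 3], [6], [10], [7]]), (true, [[6], [2], [0], [3], [5], [1]]),
  (true, [[6], [2], [0], [3], [5], [1]]), (true, [[6], [2], [0], [3], [5], [1]]),
  (true, [[6], [2], [0], [3], [5], [1]]), (true, [[10], [2], [0], [7], [9], [1]]),
  (true, [[10], [2], [0], [7], [9], [1]]), (true, [[10], [2], [4], [3], [9], [7]]),
  (false, [[5], [0], [4], [10], [11], [7, 1], [9, 2]]), (true, [[2], [9], [6], [5], [7], [0]]),
  (true, [[6], [3], [4], [1], [7], [2]]), (true, [[10], [5], [3], [7], [11], [6]]),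
  (false, [[10, 8], [11], [6], [3], [0], [4, 2], [7, 1]]), (true, [[6], [8], [2], [1], [11], [4]]),
  (true, [[6], [8], [2], [1], [11], [4]]), (false, [[3], [2], [7, 1], [6], [11, 5], [0], [9, 8]]),
  (false, [[7, 1], [2], [3], [6], [11, 5], [0], [9, 8]]), (true, [[6], [2], [0], [3], [5], [1]]),
  (true, [[6], [2], [0], [3], [5], [1]]), (true, [[6], [2], [0], [3], [5], [1]]),
  (true, [[7], [2], [0], [3], [4], [1]]), (true, []), (true, [[6, 1], [7, 4], [11], [0], [5], [9, 8]]),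
  (true, [[6], [4], [11], [3], [7], [9]]), (false, [[3], [4], [1], [7], [6], [11], [10]]),
  (true, [[6], [2], [0], [3], [7], [1]]), (true, [[2], [6], [4], [7], [1], [5]]),
  (false, [[4, 3], [1], [8, 2], [12, 7], [15, 5], [11], [10]]), (false, [[2], [3], [0], [10], [11], [6], [7]]),
  (true, [[6], [4], [3], [11], [7], [0]]), (false, [[4], [9], [10], [3], [2], [7], [6]]),
  (false, [[0], [8], [1], [7, 2], [3], [10], [11, 9]]), (false, [[0], [9], [10], [3], [2], [7], [6]]),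
  (true, [[6], [2], [0], [7], [5], [1]]), (true, [[6], [2], [0], [7], [5], [1]]),
  (true, [[6], [4], [2], [7], [11], [3]]), (false, [[12, 2], [15], [13, 10], [0], [3], [9, 6], [11, 5]]),
  (true, [[10], [2], [0], [7], [9], [1]]), (true, [[3], [2], [0], [11], [4], [1]]),
  (true, [[10], [11], [4], [3], [9], [7]]), (false, [[0], [4], [3], [6], [11, 5], [7, 1], [8, 2]]),
  (true, [[6], [2], [0], [7], [5], [1]]), (true, [[6], [2], [0], [7], [5], [1]]),
  (false, [[4], [12, 7], [5], [11, 1], [9, 2], [13, 3], [15, 0]]),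
  (false, [[11], [6], [15, 5], [7, 1], [4, 2], [13, 3], [0]]), (true, [[3], [8], [2], [1], [11], [4]]),
  (true, [[6], [8], [2], [1], [11], [4]]), (false, [[2], [7], [3], [6], [11, 5], [9], [10, 0]]),
  (false, [[9], [4], [8], [11, 5], [6], [2], [7]]), (true, []), (true, []), (true, []), (true, []), (true, []),
  (true, []), (true, []), (true, []), (true, []), (true, []), (true, []), (true, []), (true, []), (true, []),
  (true, []), (true, [])]

/-- the check of one certificate -/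
def ck2 (p₁ p₂ p₃ q₁ q₂ q₃ s : Bool) (c : Bool × List (List ℕ)) : Bool :=
  bif c.1 then chkG 16 6 (tab p₁ p₂ p₃ q₁ q₂ q₃ s) R3.q2 c.2 else chkG 16 7 (tab p₁ p₂ p₃ q₁ q₂ q₃ s) FT.qJ2 c.2

/-- constant, or the exceptional pattern -/
def exc (p₁ p₂ p₃ q₁ q₂ q₃ s : Bool) : Bool :=
  ((q₁ == q₂) && (q₂ == q₃)) || (!p₁ && p₂ && !p₃ && q₁ && !q₂ && q₃ && !s)

theorem ckAll : ∀ p₁ p₂ p₃ q₁ q₂ q₃ s : Bool, exc p₁ p₂ p₃ q₁ q₂ q₃ s = true ∨
    ck2 p₁ p₂ p₃ q₁ q₂ q₃ s (cert.getD (num p₁ p₂ p₃ q₁ q₂ q₃ s) (true, [])) = true := by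
  decide

end F2Aux

open F2Aux

theorem uF1 : S_F1 := by
  refine ⟨6, fun V G hJ I a w hI h1 h2 => ?_⟩
  obtain ⟨t, ht, hlt⟩ := incr hI
  have hne : ∀ i < 6, ∀ j < 6, i ≠ j → t i ≠ t j := by
    intro i hi j hj hij
    rcases Nat.lt_or_gt_of_ne hij with h | h
    · exact (hlt i j h hj).ne
    · exact (hlt j i h hi).ne'
  have haw : ∀ i ∈ I, ∀ j ∈ I, i ≠ j → a i ≠ a j := by
    intro i hi j hj hij h
    exact ((h2 j hj j hj).2.1 (h ▸ (h2 i hi j hj).2.2 hij)) rfl
  have hww : ∀ i ∈ I, ∀ j ∈ I, i ≠ j → w i ≠ w j := by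
    intro i hi j hj hij h
    exact ((h2 i hi i hi).2.1 (h.symm ▸ (h2 i hi j hj).2.2 hij)) rfl
  refine FT.spfJ2 hJ _ (chkG_sp (sp_sg (x := fun u => if u % 2 = 0 then a (t (u / 2)) else w (t (u / 2))) ?_) ck1)
  intro p hp q hq
  have e1 : p / 2 < 6 := by omega
  have e2 : q / 2 < 6 := by omega
  have i1 := ht _ e1
  have i2 := ht _ e2
  have key : p / 2 ≠ q / 2 → t (p / 2) ≠ t (q / 2) := hne _ e1 _ e2
  have tb : tab1 p q = true ↔ p % 2 ≠ q % 2 ∧ p / 2 ≠ q / 2 := by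
    simp only [tab1, Bool.and_eq_true, Bool.not_eq_true', bf]
  rcases Nat.mod_two_eq_zero_or_one p with hp2 | hp2 <;> rcases Nat.mod_two_eq_zero_or_one q with hq2 | hq2
  · have h3 : p / 2 ≠ q / 2 := by omega
    simp only [hp2, hq2, if_true, tb]
    exact ⟨haw _ i1 _ i2 (key h3), iff_of_false (h1 _ i1 _ i2).1 (by omega)⟩
  · simp only [hp2, hq2, if_true, tb, if_neg (by decide : ¬ (1 = 0))]
    refine ⟨(h2 _ i1 _ i2).1, (h2 _ i1 _ i2).2.trans ?_⟩
    constructor
    · intro h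
      exact ⟨by omega, fun h' => h (by rw [h'])⟩
    · exact fun h => key h.2
  · simp only [hp2, hq2, if_true, tb, if_neg (by decide : ¬ (1 = 0))]
    refine ⟨(h2 _ i2 _ i1).1.symm, (G.adj_comm _ _).trans ((h2 _ i2 _ i1).2.trans ?_)⟩
    constructor
    · intro h
      exact ⟨by omega, fun h' => h (by rw [h'])⟩
    · exact fun h => (key h.2).symm
  · have h3 : p / 2 ≠ q / 2 := by omega
    simp only [hp2, hq2, tb, if_neg (by decide : ¬ (1 = 0))]
    exact ⟨hww _ i1 _ i2 (key h3), iff_of_false (h1 _ i1 _ i2).2 (by omega)⟩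

theorem uF2 : S_F2 := by
  classical
  refine ⟨4, fun V G hH hJ I a b w y p₁ p₂ p₃ q₁ q₂ q₃ s hI h1 h2 h3 h4 h5 => ?_⟩
  obtain ⟨t, ht, hlt⟩ := incr hI
  set P₁ := decide p₁ with hP₁
  set P₂ := decide p₂ with hP₂
  set P₃ := decide p₃ with hP₃
  set Q₁ := decide q₁ with hQ₁
  set Q₂ := decide q₂ with hQ₂
  set Q₃ := decide q₃ with hQ₃
  set S := decide s with hS
  have d1 : (p₁ ↔ P₁ = true) := by simp [hP₁]
  have d2 : (p₂ ↔ P₂ = true) := by simp [hP₂]
  have d3 : (p₃ ↔ P₃ = true) := by simp [hP₃]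
  have d4 : (q₁ ↔ Q₁ = true) := by simp [hQ₁]
  have d5 : (q₂ ↔ Q₂ = true) := by simp [hQ₂]
  have d6 : (q₃ ↔ Q₃ = true) := by simp [hQ₃]
  have d7 : (s ↔ S = true) := by simp [hS]
  rw [d1, d2, d3, d4, d5, d6, d7]
  rw [d4, d5, d6] at h5
  simp only [d2, d5] at h3
  simp only [d1, d3, d4, d6, d7] at h4
  clear_value P₁ P₂ P₃ Q₁ Q₂ Q₃ S
  clear d1 d2 d3 d4 d5 d6 d7
  let X : ℕ → ℕ → V := fun c i => match c with
    | 0 => a i
    | 1 => b i
    | 2 => w i
    | _ => y i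
  -- the same index
  have he : ∀ i ∈ I, ∀ c < 4, ∀ d < c, X c i ≠ X d i ∧ (G.Adj (X c i) (X d i) ↔ eT P₂ Q₂ d c = true) := by
    intro i hi c hc d hd
    obtain ⟨g1, g2, g3, g4, g5, g6, g7, g8⟩ := h2 i hi i hi
    obtain ⟨k1, k2, k3⟩ := h3 i hi
    interval_cases c
    · omega
    · interval_cases d
      exact ⟨g7.symm, (G.adj_comm _ _).trans (iff_of_true (g1.2 rfl) rfl)⟩
    · interval_cases d
      · exact ⟨g2.ne, iff_of_true g2 rfl⟩
      · exact ⟨g8, iff_of_false (fun h => g3.1 h rfl) (by simp [eT])⟩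
    · interval_cases d
      · exact ⟨g4, (G.adj_comm _ _).trans k1⟩
      · exact ⟨g5, (G.adj_comm _ _).trans k2⟩
      · exact ⟨g6, (G.adj_comm _ _).trans k3⟩
  -- different indices
  have hl : ∀ i ∈ I, ∀ j ∈ I, j < i → ∀ c < 4, ∀ d < 4, X c i ≠ X d j ∧
      (G.Adj (X c i) (X d j) ↔ lT P₁ P₃ Q₁ Q₃ S d c = true) := by
    intro i hi j hj hji c hc d hd
    obtain ⟨u1, u2, u3, u4, u5, u6⟩ := h1 i hi j hj hji.ne'
    obtain ⟨g1, g2, g3, g4, g5, g6, g7, g8⟩ := h2 i hi j hj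
    obtain ⟨f1, f2, f3, f4, f5, f6, f7, f8⟩ := h2 j hj i hi
    obtain ⟨k1, k2, k3, k4, k5, k6, k7⟩ := h4 j hj i hi hji
    interval_cases c <;> interval_cases d
    · exact ⟨u4, iff_of_false u1 (by simp [lT])⟩
    · exact ⟨g7, iff_of_false (fun h => hji.ne' (g1.1 h)) (by simp [lT])⟩
    · exact ⟨f2.ne', iff_of_true f2.symm rfl⟩
    · exact ⟨f4.symm, k3⟩
    · exact ⟨f7.symm, iff_of_false (fun h => hji.ne (f1.1 h.symm)) (by simp [lT])⟩
    · exact ⟨u5, iff_of_false u2 (by simp [lT])⟩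
    · exact ⟨f8.symm, iff_of_true (f3.2 hji.ne).symm rfl⟩
    · exact ⟨f5.symm, k4⟩
    · exact ⟨g2.ne, iff_of_true g2 rfl⟩
    · exact ⟨g8, iff_of_true (g3.2 hji.ne') rfl⟩
    · exact ⟨u3.ne, iff_of_true u3 rfl⟩
    · exact ⟨f6.symm, k6⟩
    · exact ⟨g4, (G.adj_comm _ _).trans k1⟩
    · exact ⟨g5, (G.adj_comm _ _).trans k2⟩
    · exact ⟨g6, (G.adj_comm _ _).trans k5⟩
    · exact ⟨u6, (G.adj_comm _ _).trans k7⟩
  have hsp : SP G Set.univ 16 (fun p => {X (p % 4) (t (p / 4))}) (tab P₁ P₂ P₃ Q₁ Q₂ Q₃ S) := by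
    refine sp_sg (x := fun p => X (p % 4) (t (p / 4))) fun p hp q hq => ?_
    have e1 : p / 4 < 4 := by omega
    have e2 : q / 4 < 4 := by omega
    by_cases h : p / 4 = q / 4
    · have h6 : tab P₁ P₂ P₃ Q₁ Q₂ Q₃ S p q = eT P₂ Q₂ (q % 4) (p % 4) := by
        unfold tab
        rw [h, Nat.beq_refl, cond_true]
      rw [h6]
      simp only [h]
      exact he _ (ht _ e2) _ (by omega) _ (by omega)
    · have h6 : tab P₁ P₂ P₃ Q₁ Q₂ Q₃ S p q = lT P₁ P₃ Q₁ Q₃ S (q % 4) (p % 4) := by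
        unfold tab
        rw [bf.2 h, cond_false]
      rw [h6]
      exact hl _ (ht _ e1) _ (ht _ e2) (hlt _ _ (by omega) e1) _ (by omega) _ (by omega)
  rcases ckAll P₁ P₂ P₃ Q₁ Q₂ Q₃ S with h6 | h6
  · simp only [exc, Bool.or_eq_true, Bool.and_eq_true, beq_iff_eq, Bool.not_eq_true'] at h6
    rcases h6 with h6 | h6
    · exact absurd ⟨by rw [h6.1], by rw [h6.2]⟩ h5
    · obtain ⟨⟨⟨⟨⟨⟨c1, c2⟩, c3⟩, c4⟩, c5⟩, c6⟩, c7⟩ := h6
      refine ⟨by simp [c1], c2, by simp [c3], c4, by simp [c5], c6, by simp [c7]⟩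
  · exfalso
    unfold ck2 at h6
    rcases hb : (cert.getD (num P₁ P₂ P₃ Q₁ Q₂ Q₃ S) (true, [])).1 with _ | _
    · rw [hb, cond_false] at h6
      exact FT.spfJ2 hJ _ (chkG_sp hsp h6)
    · rw [hb, cond_true] at h6
      exact R3.spf2 hH _ (chkG_sp hsp h6)

end Pool.Agent.MPd439b2.RB
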