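import Pool.Agent.Lib.MP_d439b2_co.RB.SpecB
import Pool.Agent.Lib.MP_d439b2_co.X3.H1R.FinalA
import Pool.Agent.Lib.MP_d439b2_co.X3.H3T.Final

/-!
# MP_d439b2_co, RB/Fin: the removal of the large induced matchings from (G) and STEP B (helper85)

`C_GP` is `C_G` for graphs without homogeneous sets (`H1R.Pm`).
-/

set_option autoImplicit false

namespace Pool.Agent.MPd439b2.RB

open Pool.Agent.MPd439b2 Pool.Agent.MPd439b2.Rep Pool.Agent.MPd439b2.NK Pool.Agent.MPd439b2.H1T
open Pool.Agent.MPd439b2.P41N (LS Mi)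

/-- **(G)** for graphs without homogeneous sets -/
def C_GP : Prop := ∀ m : ℕ, 1 ≤ m → ∀ β : ℕ → ℕ, ∃ B : ℕ, ∀ L : ℕ, ∃ c N : ℕ, ∀ (V : Type) [Finite V]
  (G : SimpleGraph V), Rep.Fr K302 (A0.JP 2) G → NoT {(true, false, false)} m G → Link β c G → H1R.Pm G →
  ∀ (e : Bool → ℕ → V) (S : Finset ℕ), LS G e S → N ≤ S.card → ∃ i ∈ S, ∃ K, Gl G B L e S i K

/-- **Fin.** -/
theorem finP (hG : C_GP) (L₁ : ℕ) (hSB : C_SB L₁)
    (hB : BLT K302 (A0.JP 2) {(false, false, false), (true, false, false)}) :
    BLT K302 (A0.JP 2) {(true, false, false)} := by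
  refine blt_removeS H3T.hlsF (T := {(true, false, false)}) (false, false, false) (fun m hm β => ?_) hB
  obtain ⟨B, hB'⟩ := hG m hm β
  obtain ⟨c, N, hN⟩ := hB' (max (B + 1) L₁)
  obtain ⟨N₁, f, hf⟩ := hSB B N
  refine ⟨N₁, fun k => ⟨c, f k, fun V _ G hF hT hL hSp => ?_⟩⟩
  have hE : En G B (max (B + 1) L₁) N :=
    { fh := hF.1
      fj := hF.2
      bl := le_max_left _ _
      gb := fun e S hS hc => hN V G hF hT hL (H1R.pm_of_spo hSp) e S hS hc }
  obtain ⟨S, h1, h2⟩ := hf V G _ hE (le_max_right _ _)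
  refine ⟨Sᶜ, ?_, ?_⟩
  · rw [compl_compl]
    intro a b hab
    have h3 : LS G (fun s i => if s then (b i : V) else (a i : V)) (Finset.range N₁) := by
      intro i hi j hj s t
      have hi' := Finset.mem_range.1 hi
      have hj' := Finset.mem_range.1 hj
      have aa : G.Adj (a i : V) (a j : V) ↔ False := by
        by_cases hij : i = j
        · subst hij
          exact ⟨fun h => h.ne rfl, False.elim⟩
        · exact ⟨fun h => Bool.false_ne_true ((hab.aa i hi' j hj' hij).1 h), False.elim⟩
      have bb : G.Adj (b i : V) (b j : V) ↔ False := by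
        by_cases hij : i = j
        · subst hij
          exact ⟨fun h => h.ne rfl, False.elim⟩
        · exact ⟨fun h => Bool.false_ne_true ((hab.bb i hi' j hj' hij).1 h), False.elim⟩
      have ab : G.Adj (a i : V) (b j : V) ↔ i = j := by
        have h4 := hab.ab i hi' j hj'
        constructor
        · intro h5
          exact (h4.1 h5).2 rfl
        · intro h5
          exact h4.2 ⟨fun _ => rfl, fun _ => h5⟩
      have ba : G.Adj (b i : V) (a j : V) ↔ i = j := by
        have h4 := hab.ab j hj' i hi'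
        constructor
        · intro h5
          exact ((h4.1 h5.symm).2 rfl).symm
        · intro h5
          exact (h4.2 ⟨fun _ => rfl, fun _ => h5.symm⟩).symm
      cases s <;> cases t <;> simp [aa, bb, ab, ba]
    have h4 := h1 _ _ h3 (fun i hi s => by cases s <;> simp)
    rw [Finset.card_range] at h4
    exact lt_irrefl _ h4
  · rw [compl_compl]
    exact h2 k

end Pool.Agent.MPd439b2.RB
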