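import Pool.Agent.Lib.MP_d439b2_co.RB.SpecA
import Pool.Agent.Lib.MP_d439b2_co.W.RamC

/-!
# MP_d439b2_co, RB: `S_Rf`, Ramsey's theorem for sets of indices, and `S_Sq`, a sequence of distinguishing vertices (helper40)
-/

set_option autoImplicit false

namespace Pool.Agent.MPd439b2.RB

theorem uRf : S_Rf := by
  classical
  intro κ _ m
  obtain ⟨N, hN⟩ := W.ramC κ m
  refine ⟨N, fun χ I hI => ?_⟩
  obtain ⟨I', hI'I, hI'⟩ := Finset.exists_subset_card_eq hI
  obtain ⟨f, hf⟩ : ∃ f : ℕ → ℕ, ∀ k, ∀ h : k < N, f k = I'.orderEmbOfFin hI' ⟨k, h⟩ :=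
    ⟨fun k => if h : k < N then I'.orderEmbOfFin hI' ⟨k, h⟩ else 0, fun k h => by simp [h]⟩
  have hlt : ∀ a b, a < b → b < N → f a < f b := by
    intro a b hab hb
    rw [hf a (hab.trans hb), hf b hb]
    exact (I'.orderEmbOfFin hI').strictMono (by simpa using hab)
  have hfI : ∀ a < N, f a ∈ I := by
    intro a ha
    rw [hf a ha]
    exact hI'I (Finset.orderEmbOfFin_mem _ _ _)
  obtain ⟨s, c, h1, h2, h3⟩ := hN (fun a b => χ (f a) (f b))
  have h4 : ∀ k l, k < l → l < m → f (s k) < f (s l) := fun k l hkl hl =>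
    hlt _ _ (h1 k l hkl hl) (h2 l hl)
  refine ⟨(Finset.range m).image (fun k => f (s k)), ?_, ?_, c, ?_⟩
  · intro x hx
    obtain ⟨k, hk, rfl⟩ := Finset.mem_image.1 hx
    exact hfI _ (h2 k (Finset.mem_range.1 hk))
  · rw [Finset.card_image_of_injOn, Finset.card_range]
    intro k hk l hl hkl
    have hk' : k < m := by simpa using hk
    have hl' : l < m := by simpa using hl
    rcases lt_trichotomy k l with h | h | h
    · exact absurd hkl (h4 k l h hl').ne
    · exact h
    · exact absurd hkl (h4 l k h hk').ne'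
  · intro i hi j hj hij
    obtain ⟨k, hk, rfl⟩ := Finset.mem_image.1 hi
    obtain ⟨l, hl, rfl⟩ := Finset.mem_image.1 hj
    have hk' : k < m := Finset.mem_range.1 hk
    have hl' : l < m := Finset.mem_range.1 hl
    rcases lt_trichotomy k l with h | h | h
    · exact h3 k l h hl'
    · rw [h] at hij
      exact absurd hij (lt_irrefl _)
    · exact absurd hij (not_lt.2 (h4 l k h hk').le)

theorem uSq : S_Sq := by
  classical
  intro V m s Q U I hm
  induction s generalizing I with
  | zero =>
    intro hI h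
    obtain ⟨v, _⟩ := h I (Finset.Subset.refl _) (by simpa using hI)
    exact ⟨fun _ => 0, fun _ => v, fun t ht => absurd ht (Nat.not_lt_zero _),
      fun t ht => absurd ht (Nat.not_lt_zero _), fun t t' _ ht => absurd ht (Nat.not_lt_zero _),
      fun t t' _ ht => absurd ht (Nat.not_lt_zero _)⟩
  | succ s ih =>
    intro hI h
    have h2s : 1 ≤ 2 ^ s := Nat.one_le_two_pow
    have hpow : m * 2 ^ (s + 1) = m * 2 ^ s + m * 2 ^ s := by rw [pow_succ]; ring
    have hms : m ≤ m * 2 ^ s := Nat.le_mul_of_pos_right m h2s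
    obtain ⟨v, hv, ⟨i1, hi1, hq1⟩, i2, hi2, hq2⟩ := h I (Finset.Subset.refl _) (by omega)
    have hsum := Finset.card_filter_add_card_filter_not (s := I) (fun i => Q i v)
    obtain ⟨I', i₀, hI'I, hI'c, hi₀, hq⟩ : ∃ (I' : Finset ℕ) (i₀ : ℕ), I' ⊆ I ∧
        m * 2 ^ s ≤ I'.card ∧ i₀ ∈ I ∧ ∀ j ∈ I', (Q j v ↔ ¬ Q i₀ v) := by
      by_cases hc : m * 2 ^ s ≤ (I.filter (fun i => Q i v)).card
      · exact ⟨_, i2, Finset.filter_subset _ _, hc, hi2, fun j hj =>
          ⟨fun _ => hq2, fun _ => (Finset.mem_filter.1 hj).2⟩⟩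
      · exact ⟨I.filter (fun i => ¬ Q i v), i1, Finset.filter_subset _ _, by omega, hi1, fun j hj =>
          ⟨fun h1 => absurd h1 (Finset.mem_filter.1 hj).2, fun h1 => absurd hq1 h1⟩⟩
    obtain ⟨σ', y', g1, g2, g3, g4⟩ := ih I' hI'c (fun J hJ hJm => h J (hJ.trans hI'I) hJm)
    refine ⟨fun t => Nat.casesOn t i₀ σ', fun t => Nat.casesOn t v y', ?_, ?_, ?_, ?_⟩
    · intro t ht
      cases t with
      | zero => exact hi₀
      | succ t => exact hI'I (g1 t (by omega))
    · intro t ht
      cases t with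
      | zero => exact ⟨⟨i1, hi1, hq1⟩, i2, hi2, hq2⟩
      | succ t =>
        obtain ⟨⟨a, ha, ha'⟩, b, hb, hb'⟩ := g2 t (by omega)
        exact ⟨⟨a, hI'I ha, ha'⟩, b, hI'I hb, hb'⟩
    · intro t t' htt ht'
      cases t' with
      | zero =>
        cases t with
        | zero => exact hv _ hi₀
        | succ t => exact absurd htt (by omega)
      | succ t' =>
        cases t with
        | zero => exact hv _ (hI'I (g1 t' (by omega)))
        | succ t => exact g3 t t' (by omega) (by omega)
    · intro t t' htt ht'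
      cases t' with
      | zero => exact absurd htt (Nat.not_lt_zero _)
      | succ t' =>
        have h1 := g1 t' (by omega)
        cases t with
        | zero =>
          refine ⟨fun h2 => ?_, fun h2 => ?_, hq _ h1⟩
          · have h3 := hq _ h1
            change i₀ = σ' t' at h2
            rw [← h2] at h3
            tauto
          · change v = y' t' at h2
            obtain ⟨⟨a, ha, ha'⟩, b, hb, hb'⟩ := g2 t' (by omega)
            rw [← h2] at ha' hb'
            exact hb' ((hq b hb).2 ((hq a ha).1 ha'))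
        | succ t => exact g4 t t' (by omega) (by omega)

end Pool.Agent.MPd439b2.RB
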