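import Pool.Agent.Lib.MP_d439b2_co.RB.SpecA

/-!
# MP_d439b2_co, RB: `S_Rg`, large alpha-families contain regular ones (helper28)
-/

set_option autoImplicit false

namespace Pool.Agent.MPd439b2.RB

open Pool.Agent.MPd439b2 Pool.Agent.MPd439b2.Rep Pool.Agent.MPd439b2.NK Pool.Agent.MPd439b2.H1T
open Pool.Agent.MPd439b2.P41N (LS Mi)

theorem uRg : S_Rg := by
  classical
  intro hRf hEq hGd hK5 hF2 hSq B N m hm
  obtain ⟨n₂, hn₂⟩ := hF2
  obtain ⟨n₃, hn₃⟩ := hRf (Fin 7 → Prop) (n₂ + N + 2 + 1)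
  refine ⟨m * 2 ^ ((2 * B + 1) * n₃), fun L V _ G hE I₀ w K hA₀ hI₀ => ?_⟩
  obtain ⟨I, hII, hIc⟩ := Finset.exists_subset_card_eq hI₀
  have hA := hA₀.mono hII
  by_contra hcon
  push Not at hcon
  obtain ⟨S, hS⟩ : ∃ S, S = (2 * B + 1) * n₃ := ⟨_, rfl⟩
  rw [← hS] at hIc hcon
  obtain ⟨σ, y, h1, -, h3, h4⟩ := hSq V m S (fun i v => G.Adj (w i) v) (fun i => Xc G (K i)) I hm hIc.ge (by
    intro J hJ hJm
    have h1 := hcon J (hJ.trans hII) hJm ((Finset.card_le_card hJ).trans_eq hIc)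
    unfold Rg at h1
    push Not at h1
    obtain ⟨v, hv, i, hi, j, hj, hij⟩ := h1
    refine ⟨v, hv, ?_⟩
    by_cases h2 : G.Adj (w i) v
    · exact ⟨⟨i, hi, h2⟩, j, hj, fun h3 => by simp [h2, h3] at hij⟩
    · refine ⟨⟨j, hj, ?_⟩, i, hi, h2⟩
      by_contra h3
      simp [h2, h3] at hij)
  -- the sequence
  have hσ : ∀ t < S, ∀ t' < S, t ≠ t' → σ t ≠ σ t' := by
    intro t ht t' ht' hne
    rcases lt_or_gt_of_ne hne with h | h
    · exact (h4 t t' h ht').1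
    · exact (h4 t' t h ht).1.symm
  have hy : ∀ t < S, ∀ t' < S, t ≠ t' → y t ≠ y t' := by
    intro t ht t' ht' hne
    rcases lt_or_gt_of_ne hne with h | h
    · exact (h4 t t' h ht').2.1
    · exact (h4 t' t h ht).2.1.symm
  obtain ⟨u, hu⟩ : ∃ u : ℕ → V, u = fun t => w (σ t) := ⟨_, rfl⟩
  obtain ⟨C, hC⟩ : ∃ C : ℕ → Set V, C = fun t => K (σ t) := ⟨_, rfl⟩
  have hF : AF G B L (Finset.range S) u C := by
    rw [hu, hC]
    refine ⟨fun t ht => hA.gk _ (h1 t (Finset.mem_range.1 ht)), fun t ht => hA.mx _ (h1 t (Finset.mem_range.1 ht)),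
      fun t ht t' ht' hne => hA.an _ (h1 t (Finset.mem_range.1 ht)) _ (h1 t' (Finset.mem_range.1 ht'))
        (hσ t (Finset.mem_range.1 ht) t' (Finset.mem_range.1 ht') hne),
      fun t ht t' ht' hne => hA.cp _ (h1 t (Finset.mem_range.1 ht)) _ (h1 t' (Finset.mem_range.1 ht'))
        (hσ t (Finset.mem_range.1 ht) t' (Finset.mem_range.1 ht') hne),
      fun t ht t' ht' hne => hA.cl _ (h1 t (Finset.mem_range.1 ht)) _ (h1 t' (Finset.mem_range.1 ht'))
        (hσ t (Finset.mem_range.1 ht) t' (Finset.mem_range.1 ht') hne)⟩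
  have hyX : ∀ t < S, y t ∉ Xc G (C t) := by
    intro t ht
    rw [hC]
    exact h3 t t le_rfl ht
  have hq : ∀ t t', t < t' → t' < S → (G.Adj (u t') (y t) ↔ ¬ G.Adj (u t) (y t)) := by
    intro t t' ht ht'
    rw [hu]
    exact (h4 t t' ht ht').2.2
  -- (1)
  obtain ⟨T₁, hT₁, hT₁c, hT₁X⟩ := thin B n₃ (Finset.range S) (fun t' t => y t ∈ Xc G (C t')) (by
    intro i hi J hJ hJ'
    refine (count1 (X := Xc G (C i)) (y := y) (fun t ht t' ht' hne => hy t (Finset.mem_range.1 (hJ ht)) t'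
      (Finset.mem_range.1 (hJ ht')) hne) fun t ht => (hJ' t ht).2).trans (hF.gk i hi).bd) (by
    rw [Finset.card_range, hS])
  have hX : ∀ t ∈ T₁, ∀ t' ∈ T₁, y t ∉ Xc G (C t') := by
    intro t ht t' ht'
    rcases eq_or_ne t' t with rfl | hne
    · exact hyX _ (Finset.mem_range.1 (hT₁ ht))
    · exact hT₁X t' ht' t ht hne
  -- (2)
  have hab : ∀ t, ∃ a b : V, t ∈ Finset.range S → b ∈ C t ∧ a ∈ C t ∧ G.Adj b a ∧ ¬ G.Adj (u t) b ∧
      G.Adj (u t) a := by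
    intro t
    by_cases ht : t ∈ Finset.range S
    · obtain ⟨b, hb, a, ha, h5, h6, h7⟩ := P41N.mi_edge (hF.gk t ht).cn (hF.mx t ht)
      exact ⟨a, b, fun _ => ⟨hb, ha, h5, h6, h7⟩⟩
    · exact ⟨y 0, y 0, fun h => absurd h ht⟩
  choose a b hab using hab
  obtain ⟨T', hT', hT'c, c, hc⟩ := hn₃ (fun t t' => ![G.Adj (a t) (y t'), G.Adj (a t') (y t), G.Adj (a t) (y t),
    G.Adj (u t) (y t'), G.Adj (u t') (y t), G.Adj (u t) (y t), G.Adj (y t) (y t')]) T₁ hT₁c.ge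
  have hne : T'.Nonempty := Finset.card_pos.1 (by omega)
  obtain ⟨M, hM⟩ : ∃ M, M = T'.max' hne := ⟨_, rfl⟩
  have hMm : M ∈ T' := by
    rw [hM]
    exact T'.max'_mem hne
  obtain ⟨T, hT⟩ : ∃ T, T = T'.erase M := ⟨_, rfl⟩
  have hTT' : T ⊆ T' := by
    rw [hT]
    exact Finset.erase_subset _ _
  have hTc : T.card = n₂ + N + 2 := by
    rw [hT, Finset.card_erase_of_mem hMm, hT'c]
    omega
  have hTM : ∀ t ∈ T, t < M := by
    intro t ht
    rw [hT] at ht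
    refine lt_of_le_of_ne ?_ (Finset.ne_of_mem_erase ht)
    rw [hM]
    exact T'.le_max' _ (Finset.mem_of_mem_erase ht)
  have hTr : ∀ t ∈ T, t ∈ Finset.range S := fun t ht => hT₁ (hT' (hTT' ht))
  have hTS : ∀ t ∈ T, t < S := fun t ht => Finset.mem_range.1 (hTr t ht)
  have hd : ∀ t ∈ T, (G.Adj (a t) (y t) ↔ c 2) ∧ (G.Adj (u t) (y t) ↔ c 5) := by
    intro t ht
    have h5 := hc t (hTT' ht) M hMm (hTM t ht)
    have h6 := congrFun h5 2
    have h7 := congrFun h5 5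
    simp only [Matrix.cons_val] at h6 h7
    exact ⟨by rw [h6], by rw [h7]⟩
  have ho' : ∀ t ∈ T, ∀ t' ∈ T, (G.Adj (b t) (y t') ↔ G.Adj (a t) (y t')) := by
    intro t ht t' ht'
    obtain ⟨h5, h6, -⟩ := hab t (hTr t ht)
    rcases ho (hX t' (hT' (hTT' ht')) t (hT' (hTT' ht))) with h7 | h7
    · exact iff_of_true (h7 _ h5).symm (h7 _ h6).symm
    · exact iff_of_false (fun h => h7 _ h5 h.symm) fun h => h7 _ h6 h.symm
  have hdj : ∀ t ∈ T, ∀ t' ∈ T, t ≠ t' → ∀ x ∈ C t, x ∉ C t' := by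
    intro t ht t' ht' hne' x hx hx'
    have h5 := hEq V G B L N hE _ _ (hF.gk t (hTr t ht)) (hF.gk t' (hTr t' ht')) ⟨x, hx, hx'⟩
    obtain ⟨p, hp, q, hq', hpq⟩ := (hF.gk t (hTr t ht)).edge
    exact hF.an t (hTr t ht) t' (hTr t' ht') hne' p hp q (h5 ▸ hq') hpq
  have hYX : ∀ t ∈ T, ∀ t' ∈ T, y t ∉ Xc G (C t') := fun t ht t' ht' => hX t (hT' (hTT' ht)) t' (hT' (hTT' ht'))
  -- (3)
  have hres := hn₂ V G hE.fh hE.fj T a b u y (c 0) (c 2) (c 1) (c 3) (c 5) (c 4) (c 6) (by omega) (by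
    intro i hi j hj hij
    obtain ⟨h5, h6, h7, h8, h9⟩ := hab i (hTr i hi)
    obtain ⟨k5, k6, k7, k8, k9⟩ := hab j (hTr j hj)
    have han := hF.an i (hTr i hi) j (hTr j hj) hij
    refine ⟨han _ h6 _ k6, han _ h5 _ k5, hF.cl i (hTr i hi) j (hTr j hj) hij, ?_, ?_,
      hy i (hTS i hi) j (hTS j hj) hij⟩
    · intro h
      exact hdj i hi j hj hij _ h6 (h ▸ k6)
    · intro h
      exact hdj i hi j hj hij _ h5 (h ▸ k5)) (by
    intro i hi j hj
    obtain ⟨h5, h6, h7, h8, h9⟩ := hab i (hTr i hi)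
    obtain ⟨k5, k6, k7, k8, k9⟩ := hab j (hTr j hj)
    have hmx := hF.mx j (hTr j hj)
    refine ⟨?_, ?_, ?_, fun h => hYX i hi j hj (h ▸ k_sub k6), fun h => hYX i hi j hj (h ▸ k_sub k5),
      fun h => hYX i hi j hj (h ▸ mi_sub hmx), ?_, ?_⟩
    · rcases eq_or_ne i j with rfl | hij
      · exact iff_of_true h7.symm rfl
      · exact iff_of_false (hF.an i (hTr i hi) j (hTr j hj) hij _ h6 _ k5) hij
    · rcases eq_or_ne i j with rfl | hij
      · exact h9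
      · exact hF.cp i (hTr i hi) j (hTr j hj) hij _ k6
    · rcases eq_or_ne i j with rfl | hij
      · exact iff_of_false h8 fun h => h rfl
      · exact iff_of_true (hF.cp i (hTr i hi) j (hTr j hj) hij _ k5) hij
    · rcases eq_or_ne i j with rfl | hij
      · exact h7.ne'
      · intro h
        exact hdj i hi j hj hij _ h6 (h ▸ k5)
    · rcases eq_or_ne i j with rfl | hij
      · intro h
        exact hmx.1 (h ▸ h5)
      · exact (hF.cp i (hTr i hi) j (hTr j hj) hij _ k5).ne) (by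
    intro i hi
    exact ⟨(hd i hi).1, (ho' i hi i hi).trans (hd i hi).1, (hd i hi).2⟩) (by
    intro i hi j hj hij
    have h5 := hc i (hTT' hi) j (hTT' hj) hij
    have e0 := congrFun h5 0
    have e1 := congrFun h5 1
    have e3 := congrFun h5 3
    have e4 := congrFun h5 4
    have e6 := congrFun h5 6
    simp only [Matrix.cons_val] at e0 e1 e3 e4 e6
    refine ⟨by rw [e0], ?_, by rw [e1], ?_, by rw [e3], by rw [e4], by rw [e6]⟩
    · rw [ho' i hi j hj, e0]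
    · rw [ho' j hj i hi, e1]) (by
    -- two elements of `T`
    obtain ⟨i, hi, j, hj, hij⟩ := Finset.one_lt_card.1 (show 1 < T.card by omega)
    rintro ⟨-, h6⟩
    rcases lt_or_gt_of_ne hij with h | h
    · have h7 := hq i j h (hTS j hj)
      have h8 := congrFun (hc i (hTT' hi) j (hTT' hj) h) 4
      simp only [Matrix.cons_val] at h8
      rw [h8, (hd i hi).2] at h7
      tauto
    · have h7 := hq j i h (hTS i hi)
      have h8 := congrFun (hc j (hTT' hj) i (hTT' hi) h) 4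
      simp only [Matrix.cons_val] at h8
      rw [h8, (hd j hj).2] at h7
      tauto)
  obtain ⟨p1, p2, p3, -⟩ := hres
  have hay : ∀ t ∈ T, ∀ t' ∈ T, t ≠ t' → ¬ G.Adj (a t) (y t') := by
    intro t ht t' ht' hne' h5
    rcases lt_or_gt_of_ne hne' with h | h
    · have h8 := congrFun (hc t (hTT' ht) t' (hTT' ht') h) 0
      simp only [Matrix.cons_val] at h8
      exact p1 (h8 ▸ h5)
    · have h8 := congrFun (hc t' (hTT' ht') t (hTT' ht) h) 1
      simp only [Matrix.cons_val] at h8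
      exact p3 (h8 ▸ h5)
  -- (4)
  obtain ⟨t, ht, h5⟩ := hK5 hEq hGd V G B L N hE T C a b (by omega) (fun t ht => hF.gk t (hTr t ht))
    (fun t ht t' ht' hne' => hF.an t (hTr t ht) t' (hTr t' ht') hne')
    fun t ht => ⟨(hab t (hTr t ht)).2.1, (hab t (hTr t ht)).1, (hab t (hTr t ht)).2.2.1.symm⟩
  obtain ⟨j, hj, hjt, h6, -⟩ := h5 (y t) (fun h => hYX t ht t ht (k_sub h))
    ⟨a t, (hab t (hTr t ht)).2.1, (((hd t ht).1).2 p2).symm⟩
  exact hay j hj t ht hjt h6.symm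

end Pool.Agent.MPd439b2.RB
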