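import Pool.Agent.Lib.MP_d439b2_co.RB.Eq
import Pool.Agent.Lib.MP_d439b2_co.RB.Al
import Pool.Agent.Lib.MP_d439b2_co.RB.AG
import Pool.Agent.Lib.MP_d439b2_co.RB.An
import Pool.Agent.Lib.MP_d439b2_co.RB.Rg
import Pool.Agent.Lib.MP_d439b2_co.RB.Clq
import Pool.Agent.Lib.MP_d439b2_co.RB.Rf
import Pool.Agent.Lib.MP_d439b2_co.RB.F2

/-!
# MP_d439b2_co, RB/FinA: bounded cells, part A, without hypotheses (helper28)
-/

set_option autoImplicit false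

namespace Pool.Agent.MPd439b2.RB

open Pool.Agent.MPd439b2 Pool.Agent.MPd439b2.Rep Pool.Agent.MPd439b2.NK Pool.Agent.MPd439b2.H1T
open Pool.Agent.MPd439b2.P41N (LS Mi)

/-- the conclusion of `S_Al` -/
def C_Al (L₁ : ℕ) : Prop := ∀ B N n₀ : ℕ, ∃ N₁ : ℕ, ∀ (V : Type) [Finite V]
  (G : SimpleGraph V) (L : ℕ), En G B L N → L₁ ≤ L → ∀ (e : Bool → ℕ → V) (S : Finset ℕ), LS G e S →
  N₁ ≤ S.card → ∃ i ∈ S, ∃ K, KS G B L n₀ K ∧ ∀ s, e s i ∈ K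

/-- a vertex is mixed on few good cells of a family without edges between them -/
theorem fMx {V : Type} [Finite V] {G : SimpleGraph V} {B L N : ℕ} (hE : En G B L N) {I : Finset ℕ} {K : ℕ → Set V}
    {v : V} (hI : N ≤ I.card) (h1 : ∀ i ∈ I, GK G B L (K i))
    (h2 : ∀ i ∈ I, ∀ j ∈ I, i ≠ j → An G (K i) (K j)) (h3 : ∀ i ∈ I, v ∈ Mi G (K i)) : False :=
  uMx uEq uGd uK5 V G B L N hE I K v hI h1 h2 h3

/-- good cells are equal or disjoint -/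
theorem fEq {V : Type} [Finite V] {G : SimpleGraph V} {B L N : ℕ} (hE : En G B L N) {K K' : Set V}
    (h1 : GK G B L K) (h2 : GK G B L K') (h : (K ∩ K').Nonempty) : K = K' :=
  uEq V G B L N hE K K' h1 h2 h

/-- the number `L₁` and its three consequences -/
theorem finA' (hF1 : S_F1) : ∃ L₁ : ℕ, C_An L₁ ∧ C_AG L₁ ∧ C_Al L₁ := by
  obtain ⟨M₁, L₁, h⟩ := cClq
  have hAn := uAn uRf uEq M₁ L₁ h
  exact ⟨L₁, hAn, uAG uRf uEq uGd uK5 hF1 L₁ hAn, uAl uEq uGd L₁ hAn⟩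

/-- large alpha-families contain regular ones -/
theorem fRg' (hF2 : S_F2) : ∀ B N m : ℕ, 1 ≤ m → ∃ M : ℕ, ∀ L : ℕ, C_Rg B L N m M :=
  uRg uRf uEq uGd uK5 hF2 uSq

/-- **Part A**: the number `L₁` and its three consequences -/
theorem finA : ∃ L₁ : ℕ, C_An L₁ ∧ C_AG L₁ ∧ C_Al L₁ := finA' uF1

/-- **Part A**: large alpha-families contain regular ones -/
theorem fRg : ∀ B N m : ℕ, 1 ≤ m → ∃ M : ℕ, ∀ L : ℕ, C_Rg B L N m M := fRg' uF2

end Pool.Agent.MPd439b2.RB
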