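import Pool.Agent.Lib.MP_d439b2_co.RB.SpecB
import Pool.Agent.Lib.MP_d439b2_co.ON.RI

/-!
# MP_d439b2_co, RB: `S_LW` (extension of layouts) and `S_Cu` (the cut lemma) (helper40)
-/

set_option autoImplicit false

namespace Pool.Agent.MPd439b2.RB

open Pool.Agent.MPd439b2 Pool.Agent.MPd439b2.Rep Pool.Agent.MPd439b2.NK Pool.Agent.MPd439b2.H1T

theorem pt_val {V : Type} {S : Set V} (B : Set S) :
    ON.Pt S (Subtype.val '' B) (Subtype.val '' Bᶜ) := by
  constructor
  · rw [← Set.image_union, Set.union_compl_self, Set.image_univ, Subtype.range_coe]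
  · rw [Set.disjoint_image_iff Subtype.val_injective]
    exact disjoint_compl_right

theorem uLW : S_LW := by
  intro k k' g V _ D S π hπ hf hcut hlay
  have claim : ∀ B : Set S, Lay (D.induce S) k B →
      Lay D (2 ^ g + k') {x | π x ∈ Subtype.val '' B} := by
    intro B hB
    induction hB with
    | empty =>
      have h0 : {x | π x ∈ Subtype.val '' (∅ : Set S)} = ∅ := by
        rw [Set.image_empty]
        rfl
      rw [h0]
      exact Lay.empty
    | single v h =>
      rw [Set.image_singleton]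
      exact (hf v.1 v.2).mono (Nat.le_add_left _ _)
    | @union A B hA hB hd ht ihA ihB =>
      have hU : {x | π x ∈ Subtype.val '' (A ∪ B)} =
          {x | π x ∈ Subtype.val '' A} ∪ {x | π x ∈ Subtype.val '' B} := by
        rw [Set.image_union]
        rfl
      have hC : {x | π x ∈ Subtype.val '' (A ∪ B)ᶜ} = {x | π x ∈ Subtype.val '' (A ∪ B)}ᶜ := by
        have hp := pt_val (A ∪ B)
        ext x
        constructor
        · intro h1 h2
          exact Set.disjoint_left.1 hp.2 h2 h1
        · intro h1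
          have h2 : π x ∈ Subtype.val '' (A ∪ B) ∪ Subtype.val '' (A ∪ B)ᶜ := by
            rw [hp.1]
            exact hπ x
          exact h2.resolve_left h1
      rw [hU]
      refine Lay.union ihA ihB ?_ ?_
      · have hdv : Disjoint (Subtype.val '' A) (Subtype.val '' B) :=
          (Set.disjoint_image_iff Subtype.val_injective).2 hd
        rw [Set.disjoint_left]
        intro x hx hx'
        exact Set.disjoint_left.1 hdv hx hx'
      · have hcr : LK.cr (D.induce S) (A ∪ B) ≤ k := cr_types _ ht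
        unfold LK.cr at hcr
        rw [ON.oRI] at hcr
        have hg := hcut _ _ (pt_val (A ∪ B)) hcr
        rw [hC] at hg
        have h3 := LK.a3 V D {x | π x ∈ Subtype.val '' (A ∪ B)}
        rw [← hU]
        refine h3.trans ?_
        have h4 : 2 ^ LK.cr D {x | π x ∈ Subtype.val '' (A ∪ B)} ≤ 2 ^ g + k' :=
          (Nat.pow_le_pow_right (by norm_num) hg).trans (Nat.le_add_right _ _)
        exact_mod_cast h4
  have h := claim Set.univ hlay
  have huniv : {x | π x ∈ Subtype.val '' (Set.univ : Set S)} = Set.univ := by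
    rw [Set.image_univ, Subtype.range_coe]
    ext x
    exact iff_of_true (hπ x) (Set.mem_univ _)
  rw [huniv] at h
  exact h

theorem uCu : S_Cu := by
  intro L₁ B N n₀ k g₂ g₃ h2 h3
  refine ⟨g₃ + 2 * g₂, fun V _ G L hE hL hR r κ p π hP A A' hA hk => ?_⟩
  have hA' : ON.Pt (Sv p) A' A := ⟨by rw [Set.union_comm]; exact hA.1, hA.2.symm⟩
  have hk' : LK.rk G A' A ≤ k := by rw [rk_symm]; exact hk
  have e1 := h2 V G L hE hL hR r κ p π hP A A' hA hk
  have e2 := h2 V G L hE hL hR r κ p π hP A' A hA' hk'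
  have e3 := h3 V G L hE hL hR r κ p π hP A A' hA hk
  have hps : ∀ x, p x ∈ A ∨ p x ∈ A' := by
    intro x
    have h1 : p x ∈ A ∪ A' := by
      rw [hA.1]
      exact hP.ps x
    exact h1
  have s1 : {x | π x ∈ A} ⊆ {x | p x ∈ A ∧ π x ∈ A} ∪ {w | p w ∈ A' ∧ π w ∈ A} := by
    intro x hx
    rcases hps x with h | h
    · exact Or.inl ⟨h, hx⟩
    · exact Or.inr ⟨h, hx⟩
  have s2 : {x | π x ∈ A'} ⊆ {y | p y ∈ A' ∧ π y ∈ A'} ∪ {w | p w ∈ A ∧ π w ∈ A'} := by
    intro x hx
    rcases hps x with h | h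
    · exact Or.inr ⟨h, hx⟩
    · exact Or.inl ⟨h, hx⟩
  have c1 := (rk_mono G s1 (le_refl {x | π x ∈ A'})).trans (rk_union G _ _ _)
  have c2 := (rk_mono G (le_refl {x | p x ∈ A ∧ π x ∈ A}) s2).trans (rk_union_right G _ _ _)
  have c3 : LK.rk G {x | p x ∈ A ∧ π x ∈ A} {w | p w ∈ A ∧ π w ∈ A'} ≤ g₂ := by
    rw [rk_symm]
    exact (rk_mono G (le_refl _) fun x hx => hx.2).trans e2
  omega

end Pool.Agent.MPd439b2.RB
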