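import Pool.Agent.Lib.MP_d439b2_co.RB.SpecB

/-!
# MP_d439b2_co, RB/M0: cells with a mixed vertex in a cell on the other side (helper88)
-/

set_option autoImplicit false

namespace Pool.Agent.MPd439b2.RB

open Pool.Agent.MPd439b2 Pool.Agent.MPd439b2.Rep Pool.Agent.MPd439b2.NK Pool.Agent.MPd439b2.H1T
open Pool.Agent.MPd439b2.P41N (LS Mi)

theorem uM0 : S_M0 := by
  classical
  intro hEq L₁ hAG B N n₀ k
  obtain ⟨M, hM⟩ := hAG N B k n₀
  refine ⟨(2 * (2 * B) + 1) * M, ?_⟩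
  intro V _ G L hE hL hRg r hr A A' hd hrk I K K' y h1 h2
  by_contra hc
  rw [not_lt] at hc
  have gK : ∀ i ∈ I, GK G B L (K i) := fun i hi => (h1 i hi).1.1
  have gK' : ∀ i ∈ I, GK G B L (K' i) := fun i hi => (h1 i hi).2.1.1
  have dis : ∀ C C' : Set V, GK G B L C → GK G B L C' → C ≠ C' → Disjoint C C' := by
    intro C C' hC hC' hne
    by_contra hx
    rw [Set.not_disjoint_iff_nonempty_inter] at hx
    exact hne (hEq V G B L N hE C C' hC hC' hx)
  have nKK : ∀ i ∈ I, ∀ j ∈ I, K i ≠ K' j := by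
    intro i hi j hj h
    have h3 := (h1 i hi).2.2.1
    rw [h] at h3
    exact Set.disjoint_left.1 hd h3 (h1 j hj).2.2.2.1
  have dKK : ∀ i ∈ I, ∀ j ∈ I, Disjoint (K i) (K' j) := fun i hi j hj =>
    dis _ _ (gK i hi) (gK' j hj) (nKK i hi j hj)
  have dK : ∀ i ∈ I, ∀ j ∈ I, i ≠ j → Disjoint (K i) (K j) := fun i hi j hj hij =>
    dis _ _ (gK i hi) (gK j hj) (h2 i hi j hj hij).1
  have dK' : ∀ i ∈ I, ∀ j ∈ I, i ≠ j → Disjoint (K' i) (K' j) := fun i hi j hj hij =>
    dis _ _ (gK' i hi) (gK' j hj) (h2 i hi j hj hij).2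
  obtain ⟨J₁, hJ₁, hc₁, hR⟩ := thin (2 * B) M I
    (fun i j => (K' j ∩ Xc G (K i)).Nonempty ∨ (K j ∩ Xc G (K' i)).Nonempty) (by
      intro i hi J hJ hj
      have e1 : (J.filter fun j => (K' j ∩ Xc G (K i)).Nonempty).card ≤ B := by
        refine le_trans (count (T := K') (X := Xc G (K i)) ?_ ?_) (gK i hi).bd
        · intro a ha b hb hab
          exact dK' a (hJ (Finset.mem_filter.1 ha).1) b (hJ (Finset.mem_filter.1 hb).1) hab
        · intro a ha
          exact (Finset.mem_filter.1 ha).2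
      have e2 : (J.filter fun j => (K j ∩ Xc G (K' i)).Nonempty).card ≤ B := by
        refine le_trans (count (T := K) (X := Xc G (K' i)) ?_ ?_) (gK' i hi).bd
        · intro a ha b hb hab
          exact dK a (hJ (Finset.mem_filter.1 ha).1) b (hJ (Finset.mem_filter.1 hb).1) hab
        · intro a ha
          exact (Finset.mem_filter.1 ha).2
      have e3 : J ⊆ (J.filter fun j => (K' j ∩ Xc G (K i)).Nonempty) ∪
          (J.filter fun j => (K j ∩ Xc G (K' i)).Nonempty) := by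
        intro j hjJ
        rcases (hj j hjJ).2 with h | h
        · exact Finset.mem_union_left _ (Finset.mem_filter.2 ⟨hjJ, h⟩)
        · exact Finset.mem_union_right _ (Finset.mem_filter.2 ⟨hjJ, h⟩)
      have e4 := (Finset.card_le_card e3).trans (Finset.card_union_le _ _)
      omega) hc
  have hy : ∀ i ∈ I, y i ∈ K' i := fun i hi => (h1 i hi).2.2.2.2.1
  have hm : ∀ i ∈ I, y i ∈ Mi G (K i) := fun i hi => (h1 i hi).2.2.2.2.2
  obtain ⟨J₂, hJ₂, hc₂, hAF⟩ := hM V G L hE hL A A' hrk J₁ K (fun i => r (K i)) y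
    (fun i => r (K' i)) hc₁.ge (by
      intro i hi
      have hi' := hJ₁ hi
      exact ⟨gK i hi', hr _ (h1 i hi').1, (h1 i hi').2.2.1, hm i hi', (h1 i hi').2.2.2.1⟩) (by
      intro i hi j hj hij
      have hi' := hJ₁ hi
      have hj' := hJ₁ hj
      refine ⟨(h2 i hi' j hj' hij).1, ?_, ?_, ?_⟩
      · intro h
        exact Set.disjoint_left.1 (dK' i hi' j hj' hij) (hy i hi') (h ▸ hy j hj')
      · intro h
        exact Set.disjoint_left.1 (dKK i hi' j hj') h (hy j hj')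
      · have h3 : r (K i) ∉ Xc G (K' j) := by
          intro h
          exact hR j hj i hi hij.symm (Or.inr ⟨_, hr _ (h1 i hi').1, h⟩)
        rcases ho h3 with h4 | h4
        · exact iff_of_true (h4 _ (hy j hj')) (h4 _ (hr _ (h1 j hj').2.1))
        · exact iff_of_false (h4 _ (hy j hj')) (h4 _ (hr _ (h1 j hj').2.1)))
  obtain ⟨J, hJ, hb, hn, hrg⟩ := hRg V G hE J₂ y K hAF hc₂.ge
  have hne : J.Nonempty := by
    rw [← Finset.card_pos]
    omega
  obtain ⟨i, hi⟩ := hne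
  have hi' : i ∈ I := hJ₁ (hJ₂ (hJ hi))
  exact (h1 i hi').2.1.2 (y i) (hy i hi') (K i)
    ⟨J, y, K, hAF.mono hJ, hrg, hb, hn, i, hi, rfl, rfl⟩

end Pool.Agent.MPd439b2.RB
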