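import Pool.Agent.Lib.MP_d439b2_co.RB.SpecB

/-!
# MP_d439b2_co, RB/M1: few cells on one side have a mixed vertex on the other side which is not moved (helper28)
-/

set_option autoImplicit false

namespace Pool.Agent.MPd439b2.RB

open Pool.Agent.MPd439b2 Pool.Agent.MPd439b2.Rep Pool.Agent.MPd439b2.NK Pool.Agent.MPd439b2.H1T
open Pool.Agent.MPd439b2.P41N (LS Mi)

theorem uM1 : S_M1 := by
  classical
  intro hEq hGd hK5 hMx L₁ hAn hAG B N n₀ k q₀ q₃ hM0 hZs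
  obtain ⟨R₁, hR₁⟩ := hAn N
  obtain ⟨m₂, hm₂⟩ := hAG N B k ((2 * B + 1) * q₃ + n₀)
  refine ⟨(2 * R₁ + 1) * (m₂ + (2 * B + 1) * q₀), ?_⟩
  intro V _ G L hE hL hRg r κ p π hP A A' hPt hrk I K y h1 h2
  by_contra hc
  rw [not_lt] at hc
  have hr : ∀ K, KS G B L n₀ K → r K ∈ K := hP.pl.rm
  have gK : ∀ i ∈ I, GK G B L (K i) := fun i hi => (h1 i hi).1.1
  -- (1)
  obtain ⟨I₁, hI₁, hc₁, hR⟩ := thin R₁ (m₂ + (2 * B + 1) * q₀) I (fun i j => y i = y j) (by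
    intro i hi J hJ hj
    by_contra hcon
    rw [not_le] at hcon
    obtain ⟨J', hJ', hJc, hJa⟩ := hR₁ V G B L N hE hL J K hcon.le (fun j hjJ => gK j (hJ hjJ))
      fun j hjJ l hlJ hjl => h2 j (hJ hjJ) l (hJ hlJ) hjl
    exact hMx hEq hGd hK5 V G B L N hE J' K (y i) hJc.ge (fun j hjJ => gK j (hJ (hJ' hjJ))) hJa
      fun j hjJ => by
        rw [(hj j (hJ' hjJ)).2]
        exact (h1 j (hJ (hJ' hjJ))).2.2.1) hc
  -- (2)
  obtain ⟨I₁', hI₁'⟩ : ∃ J, J = I₁.filter fun i => ∃ K', KS G B L n₀ K' ∧ y i ∈ K' := ⟨_, rfl⟩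
  obtain ⟨I₂, hI₂⟩ : ∃ J, J = I₁.filter fun i => ¬ ∃ K', KS G B L n₀ K' ∧ y i ∈ K' := ⟨_, rfl⟩
  have hsum : I₁'.card + I₂.card = I₁.card := by
    rw [hI₁', hI₂]
    exact Finset.card_filter_add_card_filter_not _
  have hs1 : I₁' ⊆ I₁ := by
    rw [hI₁']
    exact Finset.filter_subset _ _
  have hs2 : I₂ ⊆ I₁ := by
    rw [hI₂]
    exact Finset.filter_subset _ _
  have hlt : I₁'.card < (2 * B + 1) * q₀ := by
    by_contra hcon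
    rw [not_lt] at hcon
    have hex : ∀ i, ∃ K', i ∈ I₁' → KS G B L n₀ K' ∧ y i ∈ K' := by
      intro i
      by_cases hi : i ∈ I₁'
      · have := hi
        rw [hI₁', Finset.mem_filter] at this
        obtain ⟨K', h3⟩ := this.2
        exact ⟨K', fun _ => h3⟩
      · exact ⟨∅, fun h => absurd h hi⟩
    choose K' hK' using hex
    obtain ⟨J, hJ, hJc, hJR⟩ := thin B q₀ I₁' (fun i j => K' i = K' j) (by
      intro i hi J hJ hj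
      refine (count1 (X := K' i) (y := y) (fun a ha b hb hab => hR a (hs1 (hJ ha)) b (hs1 (hJ hb)) hab)
        fun a ha => ?_).trans (hK' i hi).1.1.kb
      rw [(hj a ha).2]
      exact (hK' a (hJ ha)).2) hcon
    refine absurd (hM0 V G L hE hL hRg r hr A A' hPt.2 hrk J K K' y (fun i hi => ?_) fun i hi j hj hij =>
      ⟨h2 i (hI₁ (hs1 (hJ hi))) j (hI₁ (hs1 (hJ hj))) hij, hJR i hi j hj hij⟩) (by rw [hJc]; exact lt_irrefl _)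
    obtain ⟨h3, h4, h5, h6, h7⟩ := h1 i (hI₁ (hs1 (hJ hi)))
    obtain ⟨h8, h9⟩ := hK' i (hJ hi)
    rw [hP.pl.p1 _ h8 _ h9] at h6
    exact ⟨h3, h8, h4, h6, h9, h5⟩
  have hno : ∀ i ∈ I₂, ∀ Q, KS G B L n₀ Q → y i ∉ Q := by
    intro i hi Q hQ hy
    rw [hI₂, Finset.mem_filter] at hi
    exact hi.2 ⟨Q, hQ, hy⟩
  -- (3)
  obtain ⟨I₃, hI₃, hc₃, hAF⟩ := hm₂ V G L hE hL A A' hrk I₂ K (fun i => r (K i)) y y (by omega)
    (fun i hi => by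
      obtain ⟨h3, h4, h5, h6, h7⟩ := h1 i (hI₁ (hs2 hi))
      rw [hP.pl.p2 _ fun Q hQ => hno i hi Q hQ] at h6
      exact ⟨h3.1, hr _ h3, h4, h5, h6⟩)
    fun i hi j hj hij => ⟨h2 i (hI₁ (hs2 hi)) j (hI₁ (hs2 hj)) hij, hR i (hs2 hi) j (hs2 hj) hij,
      hno j hj _ (h1 i (hI₁ (hs2 hi))).1, Iff.rfl⟩
  -- (4)
  obtain ⟨I₄, hI₄⟩ : ∃ J, J = I₃.filter fun i => Ap G B L n₀ (y i) (K i) := ⟨_, rfl⟩
  obtain ⟨I₄', hI₄'⟩ : ∃ J, J = I₃.filter fun i => ¬ Ap G B L n₀ (y i) (K i) := ⟨_, rfl⟩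
  have hsum4 : I₄.card + I₄'.card = I₃.card := by
    rw [hI₄, hI₄']
    exact Finset.card_filter_add_card_filter_not _
  have hs4 : I₄ ⊆ I₃ := by
    rw [hI₄]
    exact Finset.filter_subset _ _
  have hs4' : I₄' ⊆ I₃ := by
    rw [hI₄']
    exact Finset.filter_subset _ _
  have hlt4 : I₄'.card < n₀ := by
    by_contra hcon
    rw [not_lt] at hcon
    obtain ⟨J, hJ, hb, hn, hrg⟩ := hRg V G hE I₄' y K (hAF.mono hs4') hcon
    obtain ⟨i, hi⟩ : J.Nonempty := by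
      rw [← Finset.card_pos]
      omega
    have hi' := hJ hi
    rw [hI₄', Finset.mem_filter] at hi'
    exact hi'.2 ⟨J, y, K, hAF.mono (hJ.trans hs4'), hrg, hb, hn, i, hi, rfl, rfl⟩
  have hI4 : ∀ i ∈ I₄, i ∈ I₂ ∧ i ∈ I := fun i hi => ⟨hI₃ (hs4 hi), hI₁ (hs2 (hI₃ (hs4 hi)))⟩
  have hW : ∀ i ∈ I₄, y i ∈ Wm G B L n₀ := by
    intro i hi
    refine ⟨K i, (h1 i (hI4 i hi).2).1, ?_⟩
    rw [hI₄, Finset.mem_filter] at hi
    exact hi.2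
  have hCi : ∀ i ∈ I₄, KS G B L n₀ (κ (y i)) ∧ y i ∈ Mi G (κ (y i)) ∧ r (κ (y i)) ∈ A' := by
    intro i hi
    obtain ⟨h3, h4⟩ := hP.pl.k1 _ (hW i hi)
    refine ⟨h3, h4.mx, ?_⟩
    rw [← hP.pl.q1 _ (hW i hi)]
    exact (h1 i (hI4 i hi).2).2.2.2.2
  have hyne : ∀ i ∈ I₄, ∀ j ∈ I₄, i ≠ j → y i ≠ y j := fun i hi j hj hij =>
    hR i (hs2 (hI4 i hi).1) j (hs2 (hI4 j hj).1) hij
  -- (5)
  obtain ⟨I₅, hI₅, hc₅, hR₅⟩ := thin B q₃ I₄ (fun i j => κ (y i) = κ (y j)) (by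
    intro i hi J hJ hj
    refine (count1 (X := Mi G (κ (y i))) (y := y) (fun a ha b hb hab => hyne a (hJ ha) b (hJ hb) hab)
      fun a ha => ?_).trans (hCi i hi).1.1.mi
    rw [(hj a ha).2]
    exact (hCi a (hJ ha)).2.1) (by omega)
  refine absurd (hZs V G L hE hL hRg r hr A A' hPt.2 hrk I₅ K (fun i => κ (y i)) y
    (hAF.mono (hI₅.trans hs4)) (fun i hi => ?_) hR₅) (by rw [hc₅]; exact lt_irrefl _)
  have hi4 := hI₅ hi
  obtain ⟨h3, h4, h5⟩ := hCi i hi4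
  exact ⟨(h1 i (hI4 i hi4).2).1, h3, (h1 i (hI4 i hi4).2).2.1, h5, h4, hno i (hI4 i hi4).1⟩

end Pool.Agent.MPd439b2.RB
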