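import Pool.Agent.Lib.MP_d439b2_co.RB.SpecB

/-!
# MP_d439b2_co, RB: `S_M2`, the moved vertices have bounded rank to the other side (helper26)
-/

set_option autoImplicit false

namespace Pool.Agent.MPd439b2.RB

open Pool.Agent.MPd439b2 Pool.Agent.MPd439b2.Rep Pool.Agent.MPd439b2.NK Pool.Agent.MPd439b2.H1T
open Pool.Agent.MPd439b2.P41N (LS Mi)

/-- the three patterns have different rows and columns, and are not constant on the middle column of three -/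
theorem m2_pat {V : Type} {G : SimpleGraph V} {A B : Set V} {m : ℕ} {a b : ℕ → V}
    (h : BP G A B m a b (fun i j => i = j) ∨ BP G A B m a b (fun i j => i ≠ j) ∨
      BP G A B m a b (fun i j => i ≤ j)) : ∃ R : ℕ → ℕ → Prop, BP G A B m a b R ∧
      (∀ i j, i ≠ j → ¬ ((R i i ↔ R j i) ∧ (R i j ↔ R j j))) ∧
      (∀ i j, i ≠ j → ¬ ((R i i ↔ R i j) ∧ (R j i ↔ R j j))) ∧
      ∀ a b c, a < b → b < c → ¬ ((R a b ↔ R b b) ∧ (R b b ↔ R c b)) := by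
  rcases h with h | h | h
  · exact ⟨_, h, fun i j _ h' => by omega, fun i j _ h' => by omega, fun i j l _ _ h' => by omega⟩
  · exact ⟨_, h, fun i j _ h' => by omega, fun i j _ h' => by omega, fun i j l _ _ h' => by omega⟩
  · exact ⟨_, h, fun i j _ h' => by omega, fun i j _ h' => by omega, fun i j l _ _ h' => by omega⟩

theorem uM2 : S_M2 := by
  classical
  intro hEq L₁ hAG B N n₀ k q₁ q₃ n₃ hM1 hZs hRg
  obtain ⟨M₂, hM₂⟩ := hAG N B k q₃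
  obtain ⟨m₁, hm₁⟩ := hAG N B k ((2 * B + 1) * (n₃ + q₁ + (2 * B + 1) * M₂))
  obtain ⟨g, hg⟩ := rk3 ((2 * B + 1) * m₁)
  refine ⟨g, fun V _ G L hE hL hR r κ p π hP A A' hPt hrk => hg V G _ _ ?_⟩
  rintro ⟨w, y, hpat⟩
  obtain ⟨R, ⟨hw, hy, hwy⟩, hrow, hcol, hmid⟩ := m2_pat hpat
  have hdis : ∀ v, v ∈ A → v ∉ A' := fun v h1 h2 => Set.disjoint_left.1 hPt.2 h1 h2
  -- rows and columns
  have hwd : ∀ i < (2 * B + 1) * m₁, ∀ j < (2 * B + 1) * m₁, i ≠ j → w i ≠ w j := by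
    intro i hi j hj hij h
    refine hrow i j hij ⟨?_, ?_⟩
    · rw [← hwy i hi i hi, ← hwy j hj i hi, h]
    · rw [← hwy i hi j hj, ← hwy j hj j hj, h]
  have hyd : ∀ i < (2 * B + 1) * m₁, ∀ j < (2 * B + 1) * m₁, i ≠ j → y i ≠ y j := by
    intro i hi j hj hij h
    refine hcol i j hij ⟨?_, ?_⟩
    · rw [← hwy i hi i hi, ← hwy i hi j hj, h]
    · rw [← hwy j hj i hi, ← hwy j hj j hj, h]
  -- moved vertices
  have mov : ∀ v, p v ≠ π v → v ∈ Wm G B L n₀ ∧ p v = v ∧ KS G B L n₀ (κ v) ∧ v ∈ Mi G (κ v) ∧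
      r (κ v) = π v ∧ ∀ Q, KS G B L n₀ Q → v ∉ Q := by
    intro v hv
    have h1 := hP.ne v hv
    have h2 := hP.wm v h1
    have h3 := hP.pl.k1 v h1
    exact ⟨h1, h2.2, h3.1, h3.2.mx, (hP.pl.q1 v h1).symm, h2.1⟩
  have hK : ∀ i < (2 * B + 1) * m₁, p (w i) = w i ∧ KS G B L n₀ (κ (w i)) ∧ w i ∈ Mi G (κ (w i)) ∧
      r (κ (w i)) ∈ A ∧ w i ∈ A' ∧ ∀ Q, KS G B L n₀ Q → w i ∉ Q := by
    intro i hi
    obtain ⟨h1, h2⟩ := hw i hi
    obtain ⟨-, h3, h4, h5, h6, h7⟩ := mov (w i) fun h' => hdis _ h2 (h' ▸ h1)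
    exact ⟨h3, h4, h5, h6 ▸ h2, h3 ▸ h1, h7⟩
  -- (1)
  obtain ⟨I₁, hI₁, hc₁, hn₁⟩ := thin B m₁ (Finset.range ((2 * B + 1) * m₁))
    (fun i j => κ (w i) = κ (w j)) (by
      intro i hi J hJ h
      refine (count1 (X := Mi G (κ (w i))) (y := w) (fun a ha b hb hab =>
        hwd a (Finset.mem_range.1 (hJ ha)) b (Finset.mem_range.1 (hJ hb)) hab) fun j hj => ?_).trans
          (hK i (Finset.mem_range.1 hi)).2.1.1.mi
      rw [(h j hj).2]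
      exact (hK j (Finset.mem_range.1 (hJ hj))).2.2.1) (by rw [Finset.card_range])
  have s1 : ∀ i ∈ I₁, i < (2 * B + 1) * m₁ := fun i hi => Finset.mem_range.1 (hI₁ hi)
  -- (2)
  obtain ⟨I₂, hI₂, hc₂, hAF⟩ := hm₁ V G L hE hL A A' hrk I₁ (fun i => κ (w i)) (fun i => r (κ (w i))) w w
    hc₁.ge (fun i hi => by
      obtain ⟨-, h4, h5, h6, h7, -⟩ := hK i (s1 i hi)
      exact ⟨h4.1, hP.pl.rm _ h4, h6, h5, h7⟩)
    (fun i hi j hj hij => ⟨hn₁ i hi j hj hij, hwd i (s1 i hi) j (s1 j hj) hij,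
      (hK j (s1 j hj)).2.2.2.2.2 _ (hK i (s1 i hi)).2.1, Iff.rfl⟩)
  have s2 : ∀ i ∈ I₂, i < (2 * B + 1) * m₁ := fun i hi => s1 i (hI₂ hi)
  -- (3)
  obtain ⟨I₃, hI₃, hc₃, hn₃⟩ := thin B (n₃ + q₁ + (2 * B + 1) * M₂) I₂ (fun i j => y j ∈ Xc G (κ (w i)))
    (by
      intro i hi J hJ h
      exact (count1 (X := Xc G (κ (w i))) (y := y) (fun a ha b hb hab =>
        hyd a (s2 a (hJ ha)) b (s2 b (hJ hb)) hab) fun j hj => (h j hj).2).trans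
          (hK i (s2 i hi)).2.1.1.bd) hc₂.ge
  have s3 : ∀ i ∈ I₃, i < (2 * B + 1) * m₁ := fun i hi => s2 i (hI₃ hi)
  -- (4)
  obtain ⟨I₄, hI₄⟩ : ∃ I₄, I₄ = I₃.filter fun i => y i ∈ Xc G (κ (w i)) := ⟨_, rfl⟩
  have hym : ∀ i ∈ I₄, i ∈ I₃ ∧ y i ∈ Mi G (κ (w i)) := by
    intro i hi
    rw [hI₄, Finset.mem_filter] at hi
    refine ⟨hi.1, hi.2.resolve_left fun h' => ?_⟩
    obtain ⟨-, h4, -, h6, -, -⟩ := hK i (s3 i hi.1)
    have h1 := hP.uk _ h4 _ h'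
    have h2 : π (y i) ∈ A' := hy i (s3 i hi.1)
    rw [h1] at h2
    exact hdis _ h6 h2
  have hkd : ∀ i ∈ I₃, ∀ j ∈ I₃, i ≠ j → κ (w i) ≠ κ (w j) := fun i hi j hj hij =>
    hn₁ i (hI₂ (hI₃ hi)) j (hI₂ (hI₃ hj)) hij
  -- (4a)
  have h4a : (I₄.filter fun i => p (y i) ∈ A').card < q₁ := by
    refine hM1 V G L hE hL hR r κ p π hP A A' hPt hrk _ (fun i => κ (w i)) y (fun i hi => ?_)
      fun i hi j hj hij => hkd i (hym i (Finset.mem_filter.1 hi).1).1 j (hym j (Finset.mem_filter.1 hj).1).1 hij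
    obtain ⟨h1, h2⟩ := Finset.mem_filter.1 hi
    obtain ⟨h3, h4⟩ := hym i h1
    obtain ⟨-, h5, -, h6, -, -⟩ := hK i (s3 i h3)
    exact ⟨h5, h6, h4, h2, hy i (s3 i h3)⟩
  -- (4b)
  have h4b : (I₄.filter fun i => p (y i) ∉ A').card < (2 * B + 1) * M₂ := by
    by_contra hcon
    rw [not_lt] at hcon
    have hC : ∀ i ∈ I₄.filter (fun i => p (y i) ∉ A'), KS G B L n₀ (κ (y i)) ∧ y i ∈ Mi G (κ (y i)) ∧
        r (κ (y i)) ∈ A' ∧ y i ∈ A ∧ ∀ Q, KS G B L n₀ Q → y i ∉ Q := by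
      intro i hi
      obtain ⟨h1, h2⟩ := Finset.mem_filter.1 hi
      have h3 : π (y i) ∈ A' := hy i (s3 i (hym i h1).1)
      obtain ⟨-, h4, h5, h6, h7, h8⟩ := mov (y i) fun h' => h2 (h' ▸ h3)
      refine ⟨h5, h6, h7 ▸ h3, ?_, h8⟩
      have h9 := hP.ps (y i)
      rw [← hPt.1] at h9
      rcases h9 with h9 | h9
      · exact h4 ▸ h9
      · exact absurd h9 h2
    have t0 : ∀ i ∈ I₄.filter (fun i => p (y i) ∉ A'), i ∈ I₃ := fun i hi =>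
      (hym i (Finset.mem_filter.1 hi).1).1
    obtain ⟨J₁, hJ₁, hd₁, hm₁'⟩ := thin B M₂ (I₄.filter fun i => p (y i) ∉ A')
      (fun i j => κ (y i) = κ (y j)) (by
        intro i hi J hJ h
        refine (count1 (X := Mi G (κ (y i))) (y := y) (fun a ha b hb hab =>
          hyd a (s3 a (t0 a (hJ ha))) b (s3 b (t0 b (hJ hb))) hab) fun j hj => ?_).trans (hC i hi).1.1.mi
        rw [(h j hj).2]
        exact (hC j (hJ hj)).2.1) hcon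
    obtain ⟨J₂, hJ₂, hd₂, hAF'⟩ := hM₂ V G L hE hL A' A (by rw [rk_symm]; exact hrk) J₁ (fun i => κ (y i))
      (fun i => r (κ (y i))) y y hd₁.ge (fun i hi => by
        obtain ⟨h4, h5, h6, h7, -⟩ := hC i (hJ₁ hi)
        exact ⟨h4.1, hP.pl.rm _ h4, h6, h5, h7⟩)
      (fun i hi j hj hij => ⟨hm₁' i hi j hj hij,
        hyd i (s3 i (t0 i (hJ₁ hi))) j (s3 j (t0 j (hJ₁ hj))) hij,
        (hC j (hJ₁ hj)).2.2.2.2 _ (hC i (hJ₁ hi)).1, Iff.rfl⟩)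
    have h5 := hZs V G L hE hL hR r hP.pl.rm A' A hPt.2.symm (by rw [rk_symm]; exact hrk) J₂
      (fun i => κ (y i)) (fun i => κ (w i)) y hAF' (fun i hi => by
        obtain ⟨h4, h5, h6, h7, h8⟩ := hC i (hJ₁ (hJ₂ hi))
        have h9 := hym i (Finset.mem_filter.1 (hJ₁ (hJ₂ hi))).1
        obtain ⟨-, h10, -, h11, -, -⟩ := hK i (s3 i h9.1)
        exact ⟨h4, h10, h6, h11, h9.2, h8⟩)
      fun i hi j hj hij => hkd i (t0 i (hJ₁ (hJ₂ hi))) j (t0 j (hJ₁ (hJ₂ hj))) hij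
    omega
  have h4 : I₄.card < q₁ + (2 * B + 1) * M₂ := by
    have h5 := Finset.card_filter_add_card_filter_not (s := I₄) (fun i => p (y i) ∈ A')
    omega
  have hI₄₃ : I₄ ⊆ I₃ := by
    rw [hI₄]
    exact Finset.filter_subset _ _
  have h5 : n₃ ≤ (I₃ \ I₄).card := by
    have h6 := Finset.card_sdiff_add_card_eq_card hI₄₃
    omega
  -- (5)
  obtain ⟨J, hJ, hJ3, -, hJR⟩ := hRg L V G hE (I₃ \ I₄) w (fun i => κ (w i))
    (hAF.mono (Finset.sdiff_subset.trans hI₃)) h5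
  have hout : ∀ b ∈ J, ∀ i ∈ J, y b ∉ Xc G (κ (w i)) := by
    intro b hb i hi h'
    have hb' := Finset.mem_sdiff.1 (hJ hb)
    have hi' := Finset.mem_sdiff.1 (hJ hi)
    by_cases hib : i = b
    · refine hb'.2 ?_
      rw [hI₄, Finset.mem_filter]
      exact ⟨hb'.1, hib ▸ h'⟩
    · exact hn₃ i hi'.1 b hb'.1 hib h'
  have hJ' : ∀ i ∈ J, i < (2 * B + 1) * m₁ := fun i hi => s3 i (Finset.mem_sdiff.1 (hJ hi)).1
  let f := J.orderEmbOfCardLe hJ3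
  have hf : ∀ i, f i ∈ J := fun i => J.orderEmbOfCardLe_mem hJ3 i
  have hf1 : f 0 < f 1 := f.strictMono (by decide)
  have hf2 : f 1 < f 2 := f.strictMono (by decide)
  refine hmid (f 0) (f 1) (f 2) hf1 hf2 ⟨?_, ?_⟩
  · rw [← hwy _ (hJ' _ (hf 0)) _ (hJ' _ (hf 1)), ← hwy _ (hJ' _ (hf 1)) _ (hJ' _ (hf 1))]
    exact hJR (y (f 1)) (hout _ (hf 1)) _ (hf 0) _ (hf 1)
  · rw [← hwy _ (hJ' _ (hf 1)) _ (hJ' _ (hf 1)), ← hwy _ (hJ' _ (hf 2)) _ (hJ' _ (hf 1))]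
    exact hJR (y (f 1)) (hout _ (hf 1)) _ (hf 1) _ (hf 2)

end Pool.Agent.MPd439b2.RB
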