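import Pool.Agent.Lib.MP_d439b2_co.RB.SpecB
import Pool.Agent.Lib.MP_d439b2_co.RN.End

/-!
# MP_d439b2_co, RB/M3: the vertices which are not moved (helper88)
-/

set_option autoImplicit false

namespace Pool.Agent.MPd439b2.RB

open Pool.Agent.MPd439b2 Pool.Agent.MPd439b2.Rep Pool.Agent.MPd439b2.NK Pool.Agent.MPd439b2.H1T
open Pool.Agent.MPd439b2.P41N (LS Mi)

/-- replacing the rows -/
private theorem rowRep {V : Type} [Finite V] (D : SimpleGraph V) {X Y Z : Set V}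
    (h : ∀ x ∈ X, ∃ z ∈ Z, ∀ y ∈ Y, (D.Adj x y ↔ D.Adj z y)) : LK.rk D X Y ≤ LK.rk D Z Y := by
  classical
  unfold LK.rk
  apply Submodule.finrank_mono
  apply Submodule.span_mono
  rintro _ ⟨x, hx, rfl⟩
  obtain ⟨z, hz, h1⟩ := h x hx
  refine ⟨z, hz, ?_⟩
  funext y
  unfold LK.row
  by_cases hy : y ∈ Y
  · by_cases h2 : D.Adj x y
    · rw [if_pos ⟨hy, (h1 y hy).1 h2⟩, if_pos ⟨hy, h2⟩]
    · rw [if_neg (fun h => h2 ((h1 y hy).2 h.2)), if_neg (fun h => h2 h.2)]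
  · rw [if_neg (fun h => hy h.1), if_neg (fun h => hy h.1)]

/-- an enumeration of `q` elements of a set of sets -/
private theorem enumSet {V : Type} [Finite V] {q : ℕ} (S : Set (Set V)) (h : q ≤ S.ncard) :
    ∃ K : ℕ → Set V, (∀ i < q, K i ∈ S) ∧ ∀ i < q, ∀ j < q, i ≠ j → K i ≠ K j := by
  classical
  obtain ⟨s, rfl⟩ := (Set.toFinite S).exists_finset_coe
  rw [Set.ncard_coe_finset] at h
  refine ⟨fun i => if hi : i < s.card then (s.equivFin.symm ⟨i, hi⟩ : Set V) else ∅, ?_, ?_⟩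
  · intro i hi
    have hi' : i < s.card := by omega
    simp only [hi', dif_pos]
    exact (s.equivFin.symm ⟨i, hi'⟩).2
  · intro i hi j hj hij hK
    have hi' : i < s.card := by omega
    have hj' : j < s.card := by omega
    simp only [hi', hj', dif_pos] at hK
    have h1 := s.equivFin.symm.injective (Subtype.ext hK)
    exact hij (congrArg Fin.val h1)

theorem uM3 : S_M3 := by
  classical
  intro L₁ B N n₀ k q hM1
  refine ⟨k + 2 * (q * B), ?_⟩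
  intro V _ G L hE hL hRg r κ p π hP A A' hPt hrk
  have bad : ∀ A A' : Set V, ON.Pt (Sv p) A A' → LK.rk G A A' ≤ k →
      {K | KS G B L n₀ K ∧ r K ∈ A ∧ ∃ y, y ∈ Mi G K ∧ p y ∈ A' ∧ π y ∈ A'}.ncard ≤ q := by
    intro A A' hPt hrk
    by_contra hc
    rw [not_le] at hc
    have hV : Nonempty V := by
      have h0 : {K | KS G B L n₀ K ∧ r K ∈ A ∧ ∃ y, y ∈ Mi G K ∧ p y ∈ A' ∧ π y ∈ A'}.Nonempty :=
        Set.nonempty_of_ncard_ne_zero (by omega)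
      obtain ⟨K₀, -, -, y₀, -⟩ := h0
      exact ⟨y₀⟩
    obtain ⟨K, hK, hne⟩ := enumSet _ hc.le
    choose! y hy using fun i (hi : i < q) => (hK i hi).2.2
    have h1 := hM1 V G L hE hL hRg r κ p π hP A A' hPt hrk (Finset.range q) K y
      (fun i hi => ⟨(hK i (Finset.mem_range.1 hi)).1, (hK i (Finset.mem_range.1 hi)).2.1,
        hy i (Finset.mem_range.1 hi)⟩)
      (fun i hi j hj hij => hne i (Finset.mem_range.1 hi) j (Finset.mem_range.1 hj) hij)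
    rw [Finset.card_range] at h1
    omega
  have claim : ∀ A A' : Set V, Disjoint A A' → ∀ x y, p x ∈ A →
      (∀ K, KS G B L n₀ K → x ∈ K → ¬ ∃ y, y ∈ Mi G K ∧ p y ∈ A' ∧ π y ∈ A') →
      p y ∈ A' → π y ∈ A' → (G.Adj x y ↔ G.Adj (p x) y) := by
    intro A A' hd x y hx hK hy hy'
    by_cases hc : ∃ K, KS G B L n₀ K ∧ x ∈ K
    · obtain ⟨K, hKS, hxK⟩ := hc
      have e1 : p x = r K := hP.pl.p1 K hKS x hxK
      have e2 : y ∉ Xc G K := by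
        rintro (h | h)
        · rw [hP.pl.p1 K hKS y h, ← e1] at hy
          exact Set.disjoint_left.1 hd hx hy
        · exact hK K hKS hxK ⟨y, h, hy, hy'⟩
      rw [e1]
      rcases ho e2 with h | h
      · exact iff_of_true (h x hxK).symm (h _ (hP.pl.rm K hKS)).symm
      · exact iff_of_false (fun h' => h x hxK h'.symm) fun h' => h _ (hP.pl.rm K hKS) h'.symm
    · push Not at hc
      rw [hP.pl.p2 x hc]
  have hd : Disjoint A A' := hPt.2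
  have hPt' : ON.Pt (Sv p) A' A := ⟨by rw [Set.union_comm]; exact hPt.1, hPt.2.symm⟩
  have hrk' : LK.rk G A' A ≤ k := by rw [rk_symm]; exact hrk
  obtain ⟨Bd, hBd⟩ : ∃ S, S = {K | KS G B L n₀ K ∧ r K ∈ A ∧ ∃ y, y ∈ Mi G K ∧ p y ∈ A' ∧ π y ∈ A'} :=
    ⟨_, rfl⟩
  obtain ⟨Bd', hBd'⟩ : ∃ S, S = {K | KS G B L n₀ K ∧ r K ∈ A' ∧ ∃ y, y ∈ Mi G K ∧ p y ∈ A ∧ π y ∈ A} :=
    ⟨_, rfl⟩
  have n1 : (⋃₀ Bd).ncard ≤ q * B := by
    refine (RN.ncard_sUnion_le (n := B) Bd ?_).trans ?_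
    · intro K hK
      rw [hBd] at hK
      exact hK.1.1.kb
    · rw [hBd]
      exact Nat.mul_le_mul_right _ (bad A A' hPt hrk)
  have n2 : (⋃₀ Bd').ncard ≤ q * B := by
    refine (RN.ncard_sUnion_le (n := B) Bd' ?_).trans ?_
    · intro K hK
      rw [hBd'] at hK
      exact hK.1.1.kb
    · rw [hBd']
      exact Nat.mul_le_mul_right _ (bad A' A hPt' hrk')
  obtain ⟨X, hX⟩ : ∃ X, X = {x | p x ∈ A ∧ π x ∈ A} := ⟨_, rfl⟩
  obtain ⟨Y, hY⟩ : ∃ Y, Y = {y | p y ∈ A' ∧ π y ∈ A'} := ⟨_, rfl⟩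
  rw [← hX, ← hY]
  have s1 : LK.rk G X Y ≤ LK.rk G (X \ ⋃₀ Bd) Y + q * B := by
    have h1 : X ⊆ (X \ ⋃₀ Bd) ∪ ⋃₀ Bd := by
      intro x hx
      by_cases h : x ∈ ⋃₀ Bd
      · exact Or.inr h
      · exact Or.inl ⟨hx, h⟩
    have h2 := rk_mono G h1 (le_refl Y)
    have h3 := rk_union G (X \ ⋃₀ Bd) (⋃₀ Bd) Y
    have h4 := rk_card G (⋃₀ Bd) Y
    omega
  have s2 : LK.rk G (X \ ⋃₀ Bd) Y ≤ LK.rk G (X \ ⋃₀ Bd) (Y \ ⋃₀ Bd') + q * B := by
    have h1 : Y ⊆ (Y \ ⋃₀ Bd') ∪ ⋃₀ Bd' := by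
      intro x hx
      by_cases h : x ∈ ⋃₀ Bd'
      · exact Or.inr h
      · exact Or.inl ⟨hx, h⟩
    have h2 := rk_mono G (le_refl (X \ ⋃₀ Bd)) h1
    have h3 := rk_union_right G (X \ ⋃₀ Bd) (Y \ ⋃₀ Bd') (⋃₀ Bd')
    have h4 := rk_card_right G (X \ ⋃₀ Bd) (⋃₀ Bd')
    omega
  have s3 : LK.rk G (X \ ⋃₀ Bd) (Y \ ⋃₀ Bd') ≤ LK.rk G (A ∩ X) (Y \ ⋃₀ Bd') := by
    refine rowRep G fun x hx => ?_
    obtain ⟨hx1, hx2⟩ := hx
    rw [hX] at hx1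
    refine ⟨p x, ⟨hx1.1, ?_⟩, fun y hy => ?_⟩
    · rw [hX]
      refine ⟨?_, ?_⟩
      · have h1 : p (p x) = p x := hP.ps x
        rw [h1]
        exact hx1.1
      · by_cases hc : ∃ K, KS G B L n₀ K ∧ x ∈ K
        · obtain ⟨K, hKS, hxK⟩ := hc
          have e1 : p x = r K := hP.pl.p1 K hKS x hxK
          rw [e1, hP.uk K hKS _ (hP.pl.rm K hKS), ← e1]
          exact hx1.1
        · push Not at hc
          rw [hP.pl.p2 x hc]
          exact hx1.2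
    · have hy1 := hy.1
      rw [hY] at hy1
      refine claim A A' hd x y hx1.1 (fun K hKS hxK h => hx2 ?_) hy1.1 hy1.2
      refine ⟨K, ?_, hxK⟩
      rw [hBd]
      refine ⟨hKS, ?_, h⟩
      rw [← hP.pl.p1 K hKS x hxK]
      exact hx1.1
  have s4 : LK.rk G (Y \ ⋃₀ Bd') (A ∩ X) ≤ LK.rk G A' (A ∩ X) := by
    refine rowRep G fun y hy => ?_
    obtain ⟨hy1, hy2⟩ := hy
    rw [hY] at hy1
    refine ⟨p y, hy1.1, fun x hx => ?_⟩
    have hx1 := hx.2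
    rw [hX] at hx1
    refine claim A' A hd.symm y x hy1.1 (fun K hKS hyK h => hy2 ?_) hx1.1 hx1.2
    refine ⟨K, ?_, hyK⟩
    rw [hBd']
    refine ⟨hKS, ?_, h⟩
    rw [← hP.pl.p1 K hKS y hyK]
    exact hy1.1
  have s5 : LK.rk G A' (A ∩ X) ≤ LK.rk G A' A := rk_mono G (le_refl _) Set.inter_subset_left
  rw [rk_symm G (A ∩ X)] at s3
  omega

end Pool.Agent.MPd439b2.RB
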