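import Pool.Agent.Lib.MP_d439b2_co.RB.SpecB

/-!
# MP_d439b2_co, RB/Pf: the placement (helper38; proof of helper79)
-/

set_option autoImplicit false

namespace Pool.Agent.MPd439b2.RB

open Pool.Agent.MPd439b2 Pool.Agent.MPd439b2.Rep Pool.Agent.MPd439b2.NK Pool.Agent.MPd439b2.H1T
open Pool.Agent.MPd439b2.P41N (LS Mi)

theorem uPf : S_Pf := by
  intro hEq V _ _ G B L N n₀ hEn
  classical
  have eqK : ∀ K K', KS G B L n₀ K → KS G B L n₀ K' → (K ∩ K').Nonempty → K = K' :=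
    fun K K' h h' hne => hEq V G B L N hEn K K' h.1 h'.1 hne
  have h1 : ∀ K : Set V, ∃ x, KS G B L n₀ K → x ∈ K := fun K => by
    by_cases h : KS G B L n₀ K
    · obtain ⟨x, hx⟩ := h.1.cn.1
      exact ⟨x, fun _ => hx⟩
    · exact ⟨Classical.arbitrary V, fun h' => absurd h' h⟩
  choose r hr using h1
  have h2 : ∀ w : V, ∃ K, w ∈ Wm G B L n₀ → KS G B L n₀ K ∧ Ap G B L n₀ w K := fun w => by
    by_cases h : w ∈ Wm G B L n₀
    · obtain ⟨K, hK⟩ := id h
      exact ⟨K, fun _ => hK⟩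
    · exact ⟨∅, fun h' => absurd h' h⟩
  choose κ hκ using h2
  have h3 : ∀ x : V, ∃ y, (∀ K, KS G B L n₀ K → x ∈ K → y = r K) ∧ ((∀ K, KS G B L n₀ K → x ∉ K) → y = x) :=
    fun x => by
      by_cases h : ∃ K, KS G B L n₀ K ∧ x ∈ K
      · obtain ⟨K, hK, hx⟩ := h
        exact ⟨r K, fun K' hK' hx' => by rw [eqK K K' hK hK' ⟨x, hx, hx'⟩], fun h' => absurd hx (h' K hK)⟩
      · exact ⟨x, fun K hK hx => absurd ⟨K, hK, hx⟩ h, fun _ => rfl⟩
  choose p hp1 hp2 using h3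
  let π : V → V := fun x => if x ∈ Wm G B L n₀ then r (κ x) else p x
  have q1 : ∀ w ∈ Wm G B L n₀, π w = r (κ w) := fun w hw => if_pos hw
  have q2 : ∀ w, w ∉ Wm G B L n₀ → π w = p w := fun w hw => if_neg hw
  have pr : ∀ K, KS G B L n₀ K → p (r K) = r K := fun K hK => hp1 _ K hK (hr K hK)
  have ps : ∀ x, p (p x) = p x := fun x => by
    by_cases h : ∃ K, KS G B L n₀ K ∧ x ∈ K
    · obtain ⟨K, hK, hx⟩ := h
      rw [hp1 x K hK hx, pr K hK]
    · have h' : p x = x := hp2 x fun K hK hx => h ⟨K, hK, hx⟩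
      rw [h', h']
  have wn : ∀ w ∈ Wm G B L n₀, ∀ K, KS G B L n₀ K → w ∉ K := by
    rintro w ⟨K₀, hK₀, hA⟩ K hK hw
    exact hK.2 w hw K₀ hA
  have nw : ∀ K, KS G B L n₀ K → ∀ x ∈ K, x ∉ Wm G B L n₀ := fun K hK x hx hw => wn x hw K hK hx
  refine ⟨r, κ, p, π, ⟨⟨hr, fun K hK x hx => hp1 x K hK hx, hp2, fun w hw => hκ w hw, q1, q2⟩, eqK, ps,
    fun x => ?_, fun w hw => ⟨wn w hw, hp2 w (wn w hw)⟩, fun K hK x hx => ?_, fun x hx => ?_, fun v => ?_⟩⟩
  · show p (π x) = π x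
    by_cases hw : x ∈ Wm G B L n₀
    · rw [q1 x hw, pr _ (hκ x hw).1]
    · rw [q2 x hw, ps]
  · rw [q2 x (nw K hK x hx), hp1 x K hK hx]
  · by_contra hw
    exact hx (q2 x hw).symm
  · by_cases h : ∃ K, KS G B L n₀ K ∧ v ∈ K
    · obtain ⟨K, hK, hv⟩ := h
      refine (Set.ncard_le_ncard (t := Xc G K) (fun x hx => ?_) (Set.toFinite _)).trans
        (hK.1.bd.trans (Nat.le_succ B))
      have hx' : π x = v := hx
      by_cases hw : x ∈ Wm G B L n₀
      · rw [q1 x hw] at hx'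
        have h4 : κ x = K := eqK _ _ (hκ x hw).1 hK ⟨v, hx' ▸ hr _ (hκ x hw).1, hv⟩
        exact Or.inr (h4 ▸ (hκ x hw).2.mx)
      · rw [q2 x hw] at hx'
        left
        by_cases h5 : ∃ K', KS G B L n₀ K' ∧ x ∈ K'
        · obtain ⟨K', hK', hxK'⟩ := h5
          rw [hp1 x K' hK' hxK'] at hx'
          have h6 : K' = K := eqK _ _ hK' hK ⟨v, hx' ▸ hr _ hK', hv⟩
          exact h6 ▸ hxK'
        · rw [hp2 x fun K' hK' hx'' => h5 ⟨K', hK', hx''⟩] at hx'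
          rw [hx']
          exact hv
    · have h' : ∀ K, KS G B L n₀ K → v ∉ K := fun K hK hv => h ⟨K, hK, hv⟩
      refine (Set.ncard_le_ncard (t := {v}) (fun x hx => ?_) (Set.toFinite _)).trans ?_
      · have hx' : π x = v := hx
        by_cases hw : x ∈ Wm G B L n₀
        · rw [q1 x hw] at hx'
          exact absurd (hx' ▸ hr _ (hκ x hw).1) (h' _ (hκ x hw).1)
        · rw [q2 x hw] at hx'
          by_cases h5 : ∃ K', KS G B L n₀ K' ∧ x ∈ K'
          · obtain ⟨K', hK', hxK'⟩ := h5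
            rw [hp1 x K' hK' hxK'] at hx'
            exact absurd (hx' ▸ hr _ hK') (h' _ hK')
          · rw [hp2 x fun K' hK' hx'' => h5 ⟨K', hK', hx''⟩] at hx'
            exact hx'
      · rw [Set.ncard_singleton]
        omega

end Pool.Agent.MPd439b2.RB
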