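import Pool.Agent.Lib.MP_d439b2_co.RB.SpecB
import Pool.Agent.Lib.MP_d439b2_co.ON.LS

/-!
# MP_d439b2_co, RB/SB: bounded cells, STEP B from its parts (helper85)
-/

set_option autoImplicit false

namespace Pool.Agent.MPd439b2.RB

open Pool.Agent.MPd439b2 Pool.Agent.MPd439b2.Rep Pool.Agent.MPd439b2.NK Pool.Agent.MPd439b2.H1T
open Pool.Agent.MPd439b2.P41N (LS Mi)

/-- **SB.** Assembly. -/
theorem uSB : S_SB := by
  intro L₁ hPf hEq _ _ hRg hAl hCu hLW B N
  obtain ⟨n₀, hn₀⟩ := hRg B N (B + 1) (by omega)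
  obtain ⟨N₁, hN₁⟩ := hAl B N n₀
  have hg := fun k => hCu B N n₀ k hn₀
  choose g hg using hg
  refine ⟨N₁ + 1, fun k => 2 ^ g k + (B + 1), ?_⟩
  intro V _ G L hE hL
  rcases isEmpty_or_nonempty V with hV | hV
  · refine ⟨∅, fun e T hT hS => ?_, fun k _ => ?_⟩
    · rcases T.eq_empty_or_nonempty with rfl | ⟨i, hi⟩
      · simp
      · exact (hV.false (e false i)).elim
    · refine ON.oLS _ V G Set.univ ?_
      rw [Set.ncard_univ, Nat.card_of_isEmpty]
      exact Nat.zero_le _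
  · obtain ⟨r, κ, p, π, hP⟩ := hPf hEq V G B L N n₀ hE
    refine ⟨Sv p, fun e T hT hS => ?_, fun k hk => ?_⟩
    · by_contra hcon
      obtain ⟨i, hi, K, hK, hKe⟩ := hN₁ V G L hE hL e T hT (by omega)
      have h1 : ∀ s, e s i = r K := fun s => by
        rw [← hP.pl.p1 K hK _ (hKe s)]
        exact (hS i hi s).symm
      have h2 : G.Adj (e false i) (e true i) := (hT i hi i hi false true).2 ⟨rfl, by decide⟩
      rw [h1 false, h1 true] at h2
      exact h2.ne rfl
    · refine hLW k (B + 1) (g k) V G (Sv p) π hP.us (fun v _ => ON.oLS _ V G _ (hP.fi v)) ?_ hk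
      intro A A' hA hr
      exact hg k V G L hE hL (hn₀ L) r κ p π hP A A' hA hr

end Pool.Agent.MPd439b2.RB
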