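import Pool.Agent.Lib.MP_d439b2_co.RB.SpecB

/-!
# MP_d439b2_co, RB/Zs: vertices of alpha-families which are mixed on cells of the other side
-/

set_option autoImplicit false

namespace Pool.Agent.MPd439b2.RB

open Pool.Agent.MPd439b2 Pool.Agent.MPd439b2.Rep Pool.Agent.MPd439b2.NK Pool.Agent.MPd439b2.H1T
open Pool.Agent.MPd439b2.P41N (LS Mi)

theorem uZs : S_Zs := by
  classical
  intro hEq L₁ B N n₀ k q₀ hM0
  refine ⟨(2 * B + 1) * n₀ + q₀, ?_⟩
  intro V _ G L hE hL hRg r hr A A' hd hrk I K C y hAF h1 h2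
  by_contra hc
  rw [not_lt] at hc
  have gC : ∀ i ∈ I, GK G B L (C i) := fun i hi => (h1 i hi).2.1.1
  have dis : ∀ C C' : Set V, GK G B L C → GK G B L C' → C ≠ C' → Disjoint C C' := by
    intro C C' hC hC' hne
    by_contra hx
    rw [Set.not_disjoint_iff_nonempty_inter] at hx
    exact hne (hEq V G B L N hE C C' hC hC' hx)
  have nKC : ∀ i ∈ I, ∀ j ∈ I, K i ≠ C j := by
    intro i hi j hj h
    have h3 := (h1 i hi).2.2.1
    rw [h] at h3
    exact Set.disjoint_left.1 hd h3 (h1 j hj).2.2.2.1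
  have nKK : ∀ i ∈ I, ∀ j ∈ I, i ≠ j → K i ≠ K j := by
    intro i hi j hj hij h
    obtain ⟨a, ha, b, hb, hab⟩ := (hAF.gk i hi).edge
    exact hAF.an i hi j hj hij a ha b (h ▸ hb) hab
  have dC : ∀ i ∈ I, ∀ j ∈ I, i ≠ j → Disjoint (C i) (C j) := fun i hi j hj hij =>
    dis _ _ (gC i hi) (gC j hj) (h2 i hi j hj hij)
  set I₁ := I.filter fun i => ¬ (C i ∩ Xc G (K i)).Nonempty with hI₁
  have hb0 : (I.filter fun i => ¬ ¬ (C i ∩ Xc G (K i)).Nonempty).card < q₀ := by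
    have hex : ∀ i ∈ I.filter (fun i => ¬ ¬ (C i ∩ Xc G (K i)).Nonempty),
        ∃ x, x ∈ C i ∧ x ∈ Mi G (K i) := by
      intro i hi
      rw [Finset.mem_filter, not_not] at hi
      obtain ⟨hi, x, hx1, hx2⟩ := hi
      rcases hx2 with hx2 | hx2
      · exact absurd hx1 (Set.disjoint_left.1
          (dis _ _ (hAF.gk i hi) (gC i hi) (nKC i hi i hi)) hx2)
      · exact ⟨x, hx1, hx2⟩
    set x : ℕ → V := fun i => if h : ∃ x, x ∈ C i ∧ x ∈ Mi G (K i) then h.choose else y i with hx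
    have hxm : ∀ i ∈ I.filter (fun i => ¬ ¬ (C i ∩ Xc G (K i)).Nonempty),
        x i ∈ C i ∧ x i ∈ Mi G (K i) := by
      intro i hi
      have h := hex i hi
      rw [hx]
      dsimp only
      rw [dif_pos h]
      exact h.choose_spec
    refine hM0 V G L hE hL hRg r hr A A' hd hrk _ K C x ?_ ?_
    · intro i hi
      have hi' := (Finset.mem_filter.1 hi).1
      have hh := h1 i hi'
      exact ⟨hh.1, hh.2.1, hh.2.2.1, hh.2.2.2.1, (hxm i hi).1, (hxm i hi).2⟩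
    · intro i hi j hj hij
      have hi' := (Finset.mem_filter.1 hi).1
      have hj' := (Finset.mem_filter.1 hj).1
      exact ⟨nKK i hi' j hj' hij, h2 i hi' j hj' hij⟩
  have hcard : I₁.card + (I.filter fun i => ¬ ¬ (C i ∩ Xc G (K i)).Nonempty).card = I.card := by
    rw [hI₁]
    convert Finset.card_filter_add_card_filter_not (s := I)
      (fun i => ¬ (C i ∩ Xc G (K i)).Nonempty)
  have hI₁I : I₁ ⊆ I := Finset.filter_subset _ _
  obtain ⟨I₂, hI₂, hc₂, hR⟩ := thin B n₀ I₁ (fun j i => (C i ∩ Xc G (K j)).Nonempty) (by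
    intro j hj J hJ hJ2
    refine le_trans (count (T := C) (X := Xc G (K j)) ?_ ?_) (hAF.gk j (hI₁I hj)).bd
    · intro a ha b hb hab
      exact dC a (hI₁I (hJ ha)) b (hI₁I (hJ hb)) hab
    · intro a ha
      exact (hJ2 a ha).2) (by omega)
  have hdis : ∀ i ∈ I₂, ∀ j ∈ I₂, ∀ x ∈ C i, x ∉ Xc G (K j) := by
    intro i hi j hj x hx hx2
    by_cases hij : j = i
    · subst hij
      exact (Finset.mem_filter.1 (hI₂ hi)).2 ⟨x, hx, hx2⟩
    · exact hR j hj i hi hij ⟨x, hx, hx2⟩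
  have hI₂I : I₂ ⊆ I := hI₂.trans hI₁I
  obtain ⟨J, hJ, hb, hn, hrg⟩ := hRg V G hE I₂ y K (hAF.mono hI₂I) hc₂.ge
  have hne : J.Nonempty := by
    rw [← Finset.card_pos]
    omega
  obtain ⟨i, hi⟩ := hne
  have hiI : i ∈ I := hI₂I (hJ hi)
  have hmi : ∀ j ∈ J, y j ∈ Mi G (C i) := by
    intro j hj
    have hjI : j ∈ I := hI₂I (hJ hj)
    obtain ⟨_, ⟨a, ha, ha2⟩, b, hb, hb2⟩ := (h1 i hiI).2.2.2.2.1
    have hiff : ∀ x ∈ C i, (G.Adj (y j) x ↔ G.Adj (y i) x) := fun x hx =>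
      hrg x (fun l hl => hdis i (hJ hi) l (hJ hl) x hx) j hj i hi
    exact ⟨(h1 j hjI).2.2.2.2.2 (C i) (h1 i hiI).2.1, ⟨a, ha, (hiff a ha).2 ha2⟩, b, hb,
      fun h => hb2 ((hiff b hb).1 h)⟩
  have hcnt : J.card ≤ (Mi G (C i)).ncard :=
    count1 (fun a ha b hb hab h => hab (hAF.inj (hI₂I (hJ ha)) (hI₂I (hJ hb)) h)) hmi
  have := (gC i hiI).mi
  omega

end Pool.Agent.MPd439b2.RB
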