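import Pool.Agent.Lib.MP_d439b2_co.RB.FinA
import Pool.Agent.Lib.MP_d439b2_co.RB.Pf
import Pool.Agent.Lib.MP_d439b2_co.RB.M0
import Pool.Agent.Lib.MP_d439b2_co.RB.Zs
import Pool.Agent.Lib.MP_d439b2_co.RB.M1
import Pool.Agent.Lib.MP_d439b2_co.RB.M2
import Pool.Agent.Lib.MP_d439b2_co.RB.M3
import Pool.Agent.Lib.MP_d439b2_co.RB.LW
import Pool.Agent.Lib.MP_d439b2_co.RB.SB

/-!
# MP_d439b2_co, RB/FinB: STEP B without hypotheses (helper85)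
-/

set_option autoImplicit false

namespace Pool.Agent.MPd439b2.RB

open Pool.Agent.MPd439b2 Pool.Agent.MPd439b2.Rep Pool.Agent.MPd439b2.NK Pool.Agent.MPd439b2.H1T
open Pool.Agent.MPd439b2.P41N (LS Mi)

/-- **STEP B**: bounded cells -/
theorem stepB : ∃ L₁ : ℕ, C_SB L₁ := by
  obtain ⟨L₁, hAn, hAG, hAl⟩ := finA
  refine ⟨L₁, uSB L₁ uPf uEq hAn uGd fRg hAl (fun B N n₀ k _ => ?_) uLW⟩
  obtain ⟨q₀, h0⟩ := uM0 uEq L₁ hAG B N n₀ k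
  obtain ⟨q₃, h3⟩ := uZs uEq L₁ B N n₀ k q₀ h0
  obtain ⟨q₁, h1⟩ := uM1 uEq uGd uK5 uMx L₁ hAn hAG B N n₀ k q₀ q₃ h0 h3
  obtain ⟨n₃, hn₃⟩ := fRg B N 3 (by omega)
  obtain ⟨g₂, h2⟩ := uM2 uEq L₁ hAG B N n₀ k q₁ q₃ n₃ h1 h3 hn₃
  obtain ⟨g₃, h4⟩ := uM3 L₁ B N n₀ k q₁ h1
  exact uCu L₁ B N n₀ k g₂ g₃ h2 h4

end Pool.Agent.MPd439b2.RB
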