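import Pool.Agent.Lib.MP_d439b2_co.RB.Base
import Pool.Agent.Lib.MP_d439b2_co.ON.TR
import Pool.Agent.Lib.MP_d439b2_co.Rep.Pat3

/-!
# MP_d439b2_co, RB/SpecA: bounded cells, part A (helper79)

Every `S_X` is a statement to be proved in its own file `RB/X.lean`, `theorem uX : S_X` (used statements which are written as
hypotheses of `S_X` are hypotheses; the others may be imported); the docstring contains the complete proof.

Index sets are finite sets of natural numbers, subfamilies are subsets (no renumbering).  `thin` (`Base.lean`): sparse digraphs.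
-/

set_option autoImplicit false

namespace Pool.Agent.MPd439b2.RB

open Pool.Agent.MPd439b2 Pool.Agent.MPd439b2.Rep Pool.Agent.MPd439b2.NK Pool.Agent.MPd439b2.H1T
open Pool.Agent.MPd439b2.P41N (LS Mi)

/-- **Rf** (40 lines).  Ramsey's theorem for sets of indices.

Proof. `W.ramC κ m` gives `N`.  Let `I` with `N ≤ I.card`, `e` = the increasing enumeration of `I` (`I.orderEmbOfFin`, as in `W.enum`, but increasing); colour `χ (e k) (e l)`; `J` = the image of `{s k | k < m}` under `e`; for `i < j` in `J` we have `i = e (s k)`, `j = e (s l)` with `k < l`. -/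
def S_Rf : Prop := ∀ (κ : Type) [Finite κ] (m : ℕ), ∃ N : ℕ, ∀ (χ : ℕ → ℕ → κ) (I : Finset ℕ),
  N ≤ I.card → ∃ J ⊆ I, J.card = m ∧ ∃ c : κ, ∀ i ∈ J, ∀ j ∈ J, i < j → χ i j = c

/-- **Eq** (50 lines).  Good cells are equal or disjoint.

Proof. By symmetry it is enough to show `K' ⊆ K`.  Otherwise (`K'` is connected, take the subset `K ∩ K'` of `K'`) there are `u ∈ K ∩ K'`, `z ∈ K' \ K`, `z ~ u`.  Let `e`, `S`, `i`, `F` be the data of `K`.  `fr` for `v = z`: `s` such that `z` is complete to the letters of `F s`.  For `j ∈ F s` let `y j = e false j`; these are different (`LS.ne`), `L` many.  If one of them is not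
in `Xc G K'` then it is complete to `K'` (`ho`, as it is adjacent to `z ∈ K'`), so `u ~ e false j`, so `u ∈ K` touches `j`: contradiction.  So all of them are in `Xc G K'` (`count1`): `L ≤ B`, against `bl`. -/
def S_Eq : Prop := ∀ (V : Type) [Finite V] (G : SimpleGraph V) (B L N : ℕ), En G B L N →
  ∀ K K', GK G B L K → GK G B L K' → (K ∩ K').Nonempty → K = K'

/-- **Gd** (20 lines).  A good letter for a given family of good cells.

Proof. `gb` gives `i ∈ S` and `K'` with `Gl .. i K'`; `e false i ∈ K' ∩ K i`, both are good cells, so `K' = K i` (`S_Eq`). -/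
def S_Gd : Prop := S_Eq → ∀ (V : Type) [Finite V] (G : SimpleGraph V) (B L N : ℕ), En G B L N →
  ∀ (e : Bool → ℕ → V) (S : Finset ℕ) (K : ℕ → Set V), LS G e S → N ≤ S.card →
  (∀ i ∈ S, GK G B L (K i) ∧ ∀ s, e s i ∈ K i) → ∃ i ∈ S, Gl G B L e S i (K i)

/-- **K5** (60 lines).  In a large family of good cells without edges between them there is a cell such that every vertex outside with a neighbour in it is adjacent to both ends of the edge of another cell.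

Proof. The `K i` are pairwise disjoint: otherwise `K i = K j` (`S_Eq`) contains an edge (`GK.edge`), against `An`.  `e false i = a i`, `e true i = b i`: `LS G e I` (for `i ≠ j` no edges by `An`; for `i = j` `a i ~ b i`).  `S_Gd` gives `i ∈ I`, `Gl G B L e I i (K i)`; let `F` be as in `fr`.  For `y` there is `s` such that `y` is complete to the letters of `F s`; `(F s).card = L ≥ 1`: take
`j ∈ F s`; `j ∈ I`, `j ≠ i`. -/
def S_K5 : Prop := S_Eq → S_Gd → ∀ (V : Type) [Finite V] (G : SimpleGraph V) (B L N : ℕ),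
  En G B L N → ∀ (I : Finset ℕ) (K : ℕ → Set V) (a b : ℕ → V), N ≤ I.card →
  (∀ i ∈ I, GK G B L (K i)) → (∀ i ∈ I, ∀ j ∈ I, i ≠ j → An G (K i) (K j)) →
  (∀ i ∈ I, a i ∈ K i ∧ b i ∈ K i ∧ G.Adj (a i) (b i)) →
  ∃ i ∈ I, ∀ y, y ∉ K i → (∃ x ∈ K i, G.Adj y x) → ∃ j ∈ I, j ≠ i ∧ G.Adj y (a j) ∧ G.Adj y (b j)

/-- the conclusion of `S_Eq` -/
def C_Eq : Prop := S_Eq

/-- **Mx** (30 lines).  A vertex is mixed on few good cells of a family without edges between them.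

Proof. `P41N.mi_edge` gives for `i ∈ I` `b i, a i ∈ K i`, `b i ~ a i`, `v ≁ b i`, `v ~ a i`.  `S_K5` for `y = v`: `v ∉ K i` and `v ~ a i`, so `v ~ b j` for some `j ∈ I`: contradiction. -/
def S_Mx : Prop := S_Eq → S_Gd → S_K5 → ∀ (V : Type) [Finite V] (G : SimpleGraph V) (B L N : ℕ),
  En G B L N → ∀ (I : Finset ℕ) (K : ℕ → Set V) (v : V), N ≤ I.card →
  (∀ i ∈ I, GK G B L (K i)) → (∀ i ∈ I, ∀ j ∈ I, i ≠ j → An G (K i) (K j)) →
  (∀ i ∈ I, v ∈ Mi G (K i)) → False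

/-- the CLQ lemma (`RN/Clq.lean`, helper28, note 3199 (A)): there are no `M` pairwise touching, pairwise disjoint good cells -/
def C_Clq (M L₁ : ℕ) : Prop := ∀ (V : Type) [Finite V] (G : SimpleGraph V), FH G → FJ 2 G →
  ∀ (K : ℕ → Set V) (e : ℕ → Bool → ℕ → Bool → V),
  (∀ i < M, ∀ j < M, i ≠ j → Disjoint (K i) (K j)) →
  (∀ i < M, ∀ s, ∀ a < L₁, G.Adj (e i s a false) (e i s a true)) →
  (∀ i < M, ∀ s s', ∀ a < L₁, ∀ a' < L₁, (s, a) ≠ (s', a') → ∀ b b',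
    e i s a b ≠ e i s' a' b' ∧ ¬ G.Adj (e i s a b) (e i s' a' b')) →
  (∀ i < M, ∀ s, ∀ a < L₁, ∀ b, e i s a b ∉ K i ∧ ∀ x ∈ K i, ¬ G.Adj (e i s a b) x) →
  (∀ i < M, ∀ v, v ∉ K i → (∃ x ∈ K i, G.Adj v x) → ∃ s, ∀ a < L₁, ∀ b, G.Adj v (e i s a b)) →
  (∀ i < M, ∀ j < M, i ≠ j → ∃ x ∈ K i, ∃ y ∈ K j, G.Adj x y) → False

/-- the conclusion of `S_An` -/
def C_An (L₁ : ℕ) : Prop := ∀ m : ℕ, ∃ M : ℕ, ∀ (V : Type) [Finite V] (G : SimpleGraph V) (B L N : ℕ),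
  En G B L N → L₁ ≤ L → ∀ (I : Finset ℕ) (K : ℕ → Set V), M ≤ I.card →
  (∀ i ∈ I, GK G B L (K i)) → (∀ i ∈ I, ∀ j ∈ I, i ≠ j → K i ≠ K j) →
  ∃ J ⊆ I, J.card = m ∧ ∀ i ∈ J, ∀ j ∈ J, i ≠ j → An G (K i) (K j)

/-- **An** (100 lines).  Many good cells: many of them without edges between them.  (Uses `S_Rf`, `S_Eq`, `C_Clq`.)

Proof. `M₁`, `L₁` from `C_Clq`; `M` = the number of `S_Rf` for the colours `Prop` and `max m M₁`; the colour of `i < j`: `An G (K i) (K j)`.  If the colour is `True` on `J` (with `max m M₁` elements) take a subset with `m` elements.  If it is `False`: for `i ≠ j` in `J` there are `x ∈ K i`, `y ∈ K j`, `x ~ y`.  Enumerate `J` injectively by `t : ℕ → ℕ` (`W.enum`), `K' i = K (t i)` for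
`i < M₁`.  The cells are pairwise disjoint (`S_Eq` and `K i ≠ K j`).  For `i < M₁` let `e`, `S`, `F` be the data of `K' i` and enumerate `F s` (with `L ≥ L₁` elements) injectively by `f s : ℕ → ℕ` (`W.enum`): `e' i s a b = e b (f s a)`.  The hypotheses of `C_Clq`: adjacent: `LS.adj`; different, not adjacent: `LS.ne`, `LS.nadj`, where `f s a ≠ f s' a'` for `(s, a) ≠ (s', a')` (`F false` and
`F true` are disjoint); not in `K`: `e b j ∈ K` would touch `j` (`LS.tc`), not adjacent: `x ∈ K` does not touch `j`; the last one: `fr`. -/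
def S_An : Prop := S_Rf → S_Eq → ∀ M₁ L₁ : ℕ, C_Clq M₁ L₁ → C_An L₁

/-- the statement of `S_F1` for the number `n` -/
def C_F1 (n : ℕ) : Prop := ∀ (V : Type) (G : SimpleGraph V), FJ 2 G → ∀ (I : Finset ℕ) (a w : ℕ → V),
  n ≤ I.card → (∀ i ∈ I, ∀ j ∈ I, ¬ G.Adj (a i) (a j) ∧ ¬ G.Adj (w i) (w j)) →
  (∀ i ∈ I, ∀ j ∈ I, a i ≠ w j ∧ (G.Adj (a i) (w j) ↔ i ≠ j)) → False

/-- **F1** (helper79).  Two stable rails with a co-matching contain `co(P_3 + 2 P_2)`. -/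
def S_F1 : Prop := ∃ n : ℕ, C_F1 n

/-- the statement of `S_F2` for the number `n`; `p₁ p₂ p₃`: the relation of the rails `a` and `y` (and `b` and `y`) for `i < j`, `i = j`, `i > j`; `q₁ q₂ q₃`: the same for `w` and `y`; `s`: `y` is a clique -/
def C_F2 (n : ℕ) : Prop := ∀ (V : Type) (G : SimpleGraph V), FH G → FJ 2 G → ∀ (I : Finset ℕ)
  (a b w y : ℕ → V) (p₁ p₂ p₃ q₁ q₂ q₃ s : Prop), n ≤ I.card →
  (∀ i ∈ I, ∀ j ∈ I, i ≠ j → ¬ G.Adj (a i) (a j) ∧ ¬ G.Adj (b i) (b j) ∧ G.Adj (w i) (w j) ∧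
    a i ≠ a j ∧ b i ≠ b j ∧ y i ≠ y j) →
  (∀ i ∈ I, ∀ j ∈ I, (G.Adj (a i) (b j) ↔ i = j) ∧ G.Adj (w i) (a j) ∧ (G.Adj (w i) (b j) ↔ i ≠ j) ∧
    y i ≠ a j ∧ y i ≠ b j ∧ y i ≠ w j ∧ a i ≠ b j ∧ w i ≠ b j) →
  (∀ i ∈ I, (G.Adj (a i) (y i) ↔ p₂) ∧ (G.Adj (b i) (y i) ↔ p₂) ∧ (G.Adj (w i) (y i) ↔ q₂)) →
  (∀ i ∈ I, ∀ j ∈ I, i < j → (G.Adj (a i) (y j) ↔ p₁) ∧ (G.Adj (b i) (y j) ↔ p₁) ∧
    (G.Adj (a j) (y i) ↔ p₃) ∧ (G.Adj (b j) (y i) ↔ p₃) ∧ (G.Adj (w i) (y j) ↔ q₁) ∧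
    (G.Adj (w j) (y i) ↔ q₃) ∧ (G.Adj (y i) (y j) ↔ s)) →
  ¬ ((q₁ ↔ q₂) ∧ (q₂ ↔ q₃)) → ¬ p₁ ∧ p₂ ∧ ¬ p₃ ∧ q₁ ∧ ¬ q₂ ∧ q₃ ∧ ¬ s

/-- **F2** (helper79).  The finite table (95 patterns). -/
def S_F2 : Prop := ∃ n : ℕ, C_F2 n

/-- the conclusion of `S_AG` -/
def C_AG (L₁ : ℕ) : Prop := ∀ (N B k m : ℕ), ∃ M : ℕ, ∀ (V : Type) [Finite V] (G : SimpleGraph V)
  (L : ℕ), En G B L N → L₁ ≤ L → ∀ (A A' : Set V), LK.rk G A A' ≤ k → ∀ (I : Finset ℕ)
  (K : ℕ → Set V) (r y y' : ℕ → V), M ≤ I.card →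
  (∀ i ∈ I, GK G B L (K i) ∧ r i ∈ K i ∧ r i ∈ A ∧ y i ∈ Mi G (K i) ∧ y' i ∈ A') →
  (∀ i ∈ I, ∀ j ∈ I, i ≠ j → K i ≠ K j ∧ y i ≠ y j ∧ y j ∉ K i ∧
    (G.Adj (r i) (y j) ↔ G.Adj (r i) (y' j))) →
  ∃ J ⊆ I, J.card = m ∧ AF G B L J y K

/-- **AG** (150 lines).  The alpha-families.  (Uses `S_Rf`, `S_Eq`, `S_Gd`, `S_K5`, `C_An`, `S_F1`, `ON.oTR`.)

Proof. (1) `thin` with `R i j = (y j ∈ Mi G (K i))`: the `y j` are different, `|Mi G (K i)| ≤ B` (`count1`), `τ = B`.  So on a large `J₁` for `i ≠ j`: `y j ∉ Xc G (K i)`, so `y j` is complete or anticomplete to `K i` (`ho`), complete iff `r i ~ y j` iff `r i ~ y' j`.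
(2) `C_An`: on a large `J₂ ⊆ J₁` there are no edges between the cells.  (3) `S_Rf` with the colour `(G.Adj (r i) (y' j), G.Adj (r j) (y' i), G.Adj (y i) (y j))` of `i < j`: `J₃ ⊆ J₂` with `n₃ = m + N + n + 2 ^ (k + 1) + 2` elements (`n` from `S_F1`) and the colour `(c₁, c₂, c₃)`.
(4) `c₁ ↔ c₂`.  Otherwise let `t` be the increasing enumeration of `J₃`; the traces on `A'` of `r (t 0), r (t 2), r (t 4), .., r (t (2 * 2 ^ k))` are different: for `u < v` the vertex `y' (t (2 u + 1))` is adjacent to exactly one of `r (t (2 u))` (`c₁`) and `r (t (2 v))` (`c₂`).  These are `2 ^ k + 1` elements of `Tr G A A'`, against `ON.oTR` and `rk ≤ k`.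
(5) `c₁` (and `c₂`) false: for all `i ≠ j` in `J₃` `y j` is anticomplete to `K i`.  `S_K5` with any edges `a i`, `b i` of `K i` (`GK.edge`) gives `i` such that every `y ∉ K i` with a neighbour in `K i` is adjacent to some `a j`, `j ≠ i`, `j ∈ J₃`; `y = y i` (mixed on `K i`): contradiction.
(6) So `y j` is complete to `K i` for all `i ≠ j` in `J₃`.  `c₃` false: choose `a i ∈ K i` with `y i ≁ a i` (`Mi`): `C_F1` for `a`, `w = y` (`y i ≁ y i`; `a i ≠ y j` since `y j ∉ K i` for `i ≠ j`, and `y i ∉ K i`).  `c₃` true: `AF` on `J₃`; take a subset with `m` elements (`AF.mono`). -/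
def S_AG : Prop := S_Rf → S_Eq → S_Gd → S_K5 → S_F1 → ∀ L₁ : ℕ, C_An L₁ → C_AG L₁

/-- **Sq** (70 lines).  A sequence of distinguishing vertices.

Proof. Induction on `s` (for all `I`).  `s = 0`: nothing (`V` is not empty: apply `h` to `I`; or use any functions, `σ = fun _ => 0`, and `y` from the vertex of `h I`).  Step: `h I` gives `v` (`v ∉ U i` for `i ∈ I`) such that both classes `{i ∈ I | Q i v}`, `{i ∈ I | ¬ Q i v}` are not empty.  Let `I'` be the larger one, `|I'| ≥ m * 2 ^ s`, `i₀` an element of the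
other one.  Induction for `I'`: `σ'`, `y'`.  Put `σ 0 = i₀`, `σ (t + 1) = σ' t`, `y 0 = v`, `y (t + 1) = y' t`.  `y' t` distinguishes two elements of `I'`, `v` does not: `v ≠ y' t`. -/
def S_Sq : Prop := ∀ (V : Type) (m s : ℕ) (Q : ℕ → V → Prop) (U : ℕ → Set V) (I : Finset ℕ),
  1 ≤ m → m * 2 ^ s ≤ I.card →
  (∀ J ⊆ I, m ≤ J.card → ∃ v, (∀ i ∈ J, v ∉ U i) ∧ (∃ i ∈ J, Q i v) ∧ ∃ i ∈ J, ¬ Q i v) →
  ∃ (σ : ℕ → ℕ) (y : ℕ → V), (∀ t < s, σ t ∈ I) ∧
    (∀ t < s, (∃ i ∈ I, Q i (y t)) ∧ ∃ i ∈ I, ¬ Q i (y t)) ∧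
    (∀ t t', t ≤ t' → t' < s → y t ∉ U (σ t')) ∧
    ∀ t t', t < t' → t' < s → σ t ≠ σ t' ∧ y t ≠ y t' ∧ (Q (σ t') (y t) ↔ ¬ Q (σ t) (y t))

/-- the conclusion of `S_Rg` -/
def C_Rg (B L N m M : ℕ) : Prop := ∀ (V : Type) [Finite V] (G : SimpleGraph V), En G B L N →
  ∀ (I : Finset ℕ) (w : ℕ → V) (K : ℕ → Set V), AF G B L I w K → M ≤ I.card →
  ∃ J ⊆ I, m ≤ J.card ∧ J.card ≤ M ∧ Rg G J w K

/-- **Rg** (170 lines).  Large alpha-families contain regular ones.  (Uses `S_Rf`, `S_Eq`, `S_Gd`, `S_K5`, `S_F2`, `S_Sq`.)  (`M` does not depend on `L`.)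

Proof. `n₂` from `S_F2`; `n₄ = n₂ + N + 2`; `n₃` = the number of `S_Rf` for the colours `Fin 7 → Prop` and `n₄ + 1`; `s = (2 * B + 1) * n₃`; `M = m * 2 ^ s`.  Take a subset of `I` with `M` elements; suppose that no `J ⊆ I` with `m ≤ J.card` (so `J.card ≤ M`) is regular.  Then `S_Sq` with `Q i v = G.Adj (w i) v`, `U i = Xc G (K i)` applies (not `Rg`: there are `v` outside all `Xc G (K i)`, `i ∈ J`,
and `i, j ∈ J` with `w i ~ v`, `w j ≁ v`): `σ`, `y`.  Put `u t = w (σ t)`, `C t = K (σ t)`, `t < s`: `AF G B L (Finset.range s) u C` (`σ` is injective).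
(1) `thin` on `range s` with `R t' t = (y t ∈ Xc G (C t'))`: the `y t` are different, `count1`, `τ = B`.  So on `T₁` (`n₃` elements) `y t ∉ Xc G (C t')` for `t ≠ t'`, and for `t = t'` by `S_Sq`.  So (`ho`) every `y t` is complete or anticomplete to every `C t'`.
(2) Choose `b t, a t ∈ C t` with `b t ~ a t`, `u t ≁ b t`, `u t ~ a t` (`P41N.mi_edge`).  `S_Rf`: colour of `t < t'`: `(a t ~ y t', a t' ~ y t, a t ~ y t, u t ~ y t', u t' ~ y t, u t ~ y t, y t ~ y t')`; a homogeneous `T₂'` with `n₄ + 1` elements; remove the largest element (so that the diagonal colours hold for all elements): `T₂`, `n₄` elements.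
(3) `C_F2` on `T₂` (`b t ~ y t'` iff `a t ~ y t'` by (1); `y t ≠ a t', b t', u t'` since these are in `Xc G (C t')`; `a t ≠ b t'`, `a t ≠ a t'`: the cells are disjoint (for `t ≠ t'`: no edges between them and each of them contains an edge, so `S_Eq`); `u t ≠ b t'`: `u t ∉ C t`, and for `t ≠ t'` `u t ~ b t'`).  `q₃ ↔ ¬ q₂` by `S_Sq`, so the last hypothesis holds.
Result: `a t ~ y t`, `a t ≁ y t'` for `t ≠ t'`.  (4) `S_K5` on `T₂` for the cells `C t` and the edges `a t`, `b t`: there is `t` such that every `y ∉ C t` with a neighbour in `C t` is adjacent to `a t'` for some `t' ≠ t` in `T₂`.  `y = y t`: `y t ∉ C t`, `y t ~ a t`: contradiction. -/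
def S_Rg : Prop := S_Rf → S_Eq → S_Gd → S_K5 → S_F2 → S_Sq → ∀ B N m : ℕ, 1 ≤ m → ∃ M : ℕ,
  ∀ L : ℕ, C_Rg B L N m M

/-- **Al** (150 lines).  Long matchings have a letter in a good cell without alpha-vertices.  (Uses `S_Eq`, `S_Gd`, `C_An`.)

Proof. Let `n₀`.  `D = n₀ * B + n₀`; `m₂ = (2 * D + 1) * N`; `m₁` = the number of `C_An` for `m₂`; `N₁ = (2 * B + 1) * m₁ + N`.  Suppose that there is no such letter `i ∈ S`.  (0) `S₀ = {i ∈ S | ∃ K, GK G B L K ∧ ∀ s, e s i ∈ K}`; `S \ S₀` has less than `N` elements (otherwise `gb` for `S \ S₀` gives a letter `i ∈ S \ S₀` and a good cell `K` which contains it (`Gl.mem`)).  Choose `K i` for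
`i ∈ S₀`.  (1) `thin` with `R i j = (K i = K j)`, `τ = B` (the `e false j` with `K j = K i` are different elements of `K i`, at most `B`; `GK.kb`): `S₁` with `m₁` elements and different cells.  (2) `C_An`: `S₂ ⊆ S₁` with `m₂` elements, no edges between the cells; they are disjoint (`S_Eq`).
(3) For `i ∈ S₂` `K i` is a good cell but not `KS`: there is `w i ∈ K i` and an alpha-pair with `w i`: a regular alpha-family `J i`, `u i`, `C i`, `B + 1 ≤ |J i| ≤ n₀`, `u i (c i) = w i`, `c i ∈ J i`.  Let `R i j`: some `l ∈ J i` with `u i l ∈ K j` or `u i l ~ x` for some `x ∈ K j`.  For `i ≠ j` with `R i j` the cell `K j` meets `X = {u i l | l ∈ J i} ∪ ⋃ l ∈ J i, Xc G (C i l)`: if `u i l ~ x ∈ K j` then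
`w i ≁ x` (`w i ∈ K i`), so by `Rg` `x` is not outside all `Xc G (C i l')`.  `|X| ≤ n₀ + n₀ * B = D`, so `thin` with `τ = D` (`count`): `S₃ ⊆ S₂` with `N` elements and `¬ R i j` for `i ≠ j`.
(4) `S_Gd` for `S₃` (`LS.mono`): `i ∈ S₃` with `Gl G B L e S₃ i (K i)`.  Every `u i l`, `l ∈ J i`, is in `K i`: for `l = c i` clear; otherwise `u i l ~ w i ∈ K i` (`AF.cl`), and if `u i l ∉ K i` then by `fr` there are `s` and `j ∈ F s` (`F s` has `L ≥ 1` elements), `j ∈ S₃`, `j ≠ i`, `u i l ~ e false j ∈ K j`: `R i j`, contradiction.  The `u i l` are different (`AF.inj`): `B + 1 ≤ |K i| ≤ B`. Contradiction. -/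
def S_Al : Prop := S_Eq → S_Gd → ∀ L₁ : ℕ, C_An L₁ → ∀ B N n₀ : ℕ, ∃ N₁ : ℕ, ∀ (V : Type) [Finite V]
  (G : SimpleGraph V) (L : ℕ), En G B L N → L₁ ≤ L → ∀ (e : Bool → ℕ → V) (S : Finset ℕ), LS G e S →
  N₁ ≤ S.card → ∃ i ∈ S, ∃ K, KS G B L n₀ K ∧ ∀ s, e s i ∈ K

end Pool.Agent.MPd439b2.RB
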