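import Pool.Agent.Lib.MP_d439b2_co.RB.SpecA
import Pool.Agent.Lib.MP_d439b2_co.Rep.RowX4

/-!
# MP_d439b2_co, RB/SpecB: bounded cells, part B: the placement and the lifting of layouts (helper79)

Every `S_X` is a statement to be proved in its own file `RB/X.lean`, `theorem uX : S_X`; the docstring contains the complete
proof.  `n₀` is the number of `C_Rg B L N (B + 1) n₀`: every alpha-family with `n₀` members has a regular subfamily with at least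
`B + 1` and at most `n₀` members; so all its pairs are alpha-pairs (`Ap G B L n₀`).
-/

set_option autoImplicit false

namespace Pool.Agent.MPd439b2.RB

open Pool.Agent.MPd439b2 Pool.Agent.MPd439b2.Rep Pool.Agent.MPd439b2.NK Pool.Agent.MPd439b2.H1T
open Pool.Agent.MPd439b2.P41N (LS Mi)

variable {V : Type}

/-- the placement with the easy facts -/
structure Pf (G : SimpleGraph V) (B L n₀ : ℕ) (r : Set V → V) (κ : V → Set V) (p π : V → V) :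
    Prop where
  pl : Pl G B L n₀ r κ p π
  eq : ∀ K K', KS G B L n₀ K → KS G B L n₀ K' → (K ∩ K').Nonempty → K = K'
  ps : ∀ x, p x ∈ Sv p
  us : ∀ x, π x ∈ Sv p
  wm : ∀ w ∈ Wm G B L n₀, (∀ K, KS G B L n₀ K → w ∉ K) ∧ p w = w
  uk : ∀ K, KS G B L n₀ K → ∀ x ∈ K, π x = r K
  ne : ∀ x, p x ≠ π x → x ∈ Wm G B L n₀
  fi : ∀ v, {x | π x = v}.ncard ≤ B + 1

/-- **Pf** (120 lines).  The placement exists.  (Uses `S_Eq`.)

Proof. `r K` = an element of `K` for `KS` cells (`Conn` sets are not empty; or `GK.edge`), arbitrary otherwise.  For `x` in a `KS` cell `K` (unique by `S_Eq`) `p x = r K`, otherwise `p x = x`.  For `w ∈ Wm` choose `κ w`; `π w = r (κ w)`; `π x = p x` for `x ∉ Wm`.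
`wm`: `w ∈ Wm` is the vertex of an alpha-pair, so it is in no `KS` cell (definition of `KS`), `p w = w`.  `ps`: `p x` is `x` (not in a cell, `p x = x`) or `r K` (`p (r K) = r K` as `r K ∈ K`).  `uk`: `x ∈ K` is not in `Wm`: `π x = p x = r K`.  `us`: `π w = r (κ w)`, fixed by `p`; otherwise `π x = p x`.  `ne`: clear.
`fi`: (1) `v ∈ K` for a `KS` cell `K`: the fibre is contained in `Xc G K`: let `π x = v`.  If `x ∈ Wm` then `v = r (κ x) ∈ κ x`, so `κ x = K` and `x ∈ Mi G K` (`k1`, `Ap.mx`).  Otherwise `p x = v`: if `x ∈ K''` then `v = r K'' ∈ K''`, so `K'' = K`; if `x` is in no cell then `v = x ∈ K`.  `GK.bd`.  (2) `v` is in no `KS` cell: the fibre is contained in `{v}`: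
`x ∈ Wm` is impossible (`v = r (κ x) ∈ κ x`), `x ∈ K''` is impossible (`v = r K''`), so `x = p x = v`. -/
def S_Pf : Prop := S_Eq → ∀ (V : Type) [Finite V] [Nonempty V] (G : SimpleGraph V) (B L N n₀ : ℕ),
  En G B L N → ∃ (r : Set V → V) (κ : V → Set V) (p π : V → V), Pf G B L n₀ r κ p π

/-- the conclusion of `S_M0` -/
def C_M0 (L₁ B N n₀ k q : ℕ) : Prop := ∀ (V : Type) [Finite V] (G : SimpleGraph V) (L : ℕ),
  En G B L N → L₁ ≤ L → C_Rg B L N (B + 1) n₀ → ∀ r : Set V → V, (∀ K, KS G B L n₀ K → r K ∈ K) →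
  ∀ A A' : Set V, Disjoint A A' → LK.rk G A A' ≤ k → ∀ (I : Finset ℕ) (K K' : ℕ → Set V)
  (y : ℕ → V), (∀ i ∈ I, KS G B L n₀ (K i) ∧ KS G B L n₀ (K' i) ∧ r (K i) ∈ A ∧ r (K' i) ∈ A' ∧
    y i ∈ K' i ∧ y i ∈ Mi G (K i)) → (∀ i ∈ I, ∀ j ∈ I, i ≠ j → K i ≠ K j ∧ K' i ≠ K' j) →
  I.card < q

/-- **M0** (120 lines).  Few cells on one side have a mixed vertex in a cell on the other side (different cells).  (Uses `S_Eq`, `C_AG`.)

Proof. `M` = the number of `C_AG L₁` for `N B k n₀`; `q = (2 * (2 * B) + 1) * M`.  Suppose `q ≤ I.card`.  `K i ≠ K' j` for all `i`, `j` (`r (K i) ∈ A`, `r (K' j) ∈ A'`); different cells are disjoint (`S_Eq`).  (1) `thin`, `τ = 2 * B`, `R i j = ((K' j ∩ Xc G (K i)).Nonempty ∨ (K j ∩ Xc G (K' i)).Nonempty)` (split `J` into two parts, `count` for both): `J₁` with `M` elements.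
(2) For `i ≠ j` in `J₁`: `r (K i) ∉ Xc G (K' j)`, so it is complete or anticomplete to `K' j`, which contains `y j` and `r (K' j)`: `r (K i) ~ y j` iff `r (K i) ~ r (K' j)`.  `y j ∉ K i`, `y i ≠ y j` (disjoint cells).  (3) `C_AG` for `K`, `r i = r (K i)`, `y`, `y' i = r (K' i)`: `J₂` with `n₀` elements, `AF G B L J₂ y K`.  (4) `C_Rg`: a regular `J ⊆ J₂` with
`B + 1 ≤ |J| ≤ n₀`; for `i ∈ J` (not empty) `Ap G B L n₀ (y i) (K i)`, but `y i ∈ K' i` is in a `KS` cell: contradiction. -/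
def S_M0 : Prop := S_Eq → ∀ L₁ : ℕ, C_AG L₁ → ∀ B N n₀ k : ℕ, ∃ q : ℕ, C_M0 L₁ B N n₀ k q

/-- the conclusion of `S_Zs` -/
def C_Zs (L₁ B N n₀ k q : ℕ) : Prop := ∀ (V : Type) [Finite V] (G : SimpleGraph V) (L : ℕ),
  En G B L N → L₁ ≤ L → C_Rg B L N (B + 1) n₀ → ∀ r : Set V → V, (∀ K, KS G B L n₀ K → r K ∈ K) →
  ∀ A A' : Set V, Disjoint A A' → LK.rk G A A' ≤ k → ∀ (I : Finset ℕ) (K C : ℕ → Set V)
  (y : ℕ → V), AF G B L I y K → (∀ i ∈ I, KS G B L n₀ (K i) ∧ KS G B L n₀ (C i) ∧ r (K i) ∈ A ∧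
    r (C i) ∈ A' ∧ y i ∈ Mi G (C i) ∧ ∀ Q, KS G B L n₀ Q → y i ∉ Q) →
  (∀ i ∈ I, ∀ j ∈ I, i ≠ j → C i ≠ C j) → I.card < q

/-- **Zs** (100 lines).  Vertices of alpha-families which are mixed on cells of the other side.  (Uses `S_Eq`, `C_M0`.)

Proof. `q₀` from `C_M0`, `q = (2 * B + 1) * n₀ + q₀`.  Suppose `q ≤ I.card`.  `K i ≠ C j` for all `i`, `j` (representatives), `K i ≠ K j` for `i ≠ j` (no edges between them, but each contains an edge).  (1) `I₁ = {i ∈ I | C i ∩ Xc G (K i) = ∅}`: for the other `i` the cell `C i` is disjoint from `K i` and meets `Mi G (K i)`: choose `x i` in the intersection; `C_M0` for `K`, `K' = C`,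
`y = x`: less than `q₀`.  (2) `thin` on `I₁`, `τ = B`, `R j i = (C i ∩ Xc G (K j)).Nonempty` (`count`; the `C i` are disjoint): `I₂` with `n₀` elements; `Disjoint (C i) (Xc G (K j))` for all `i, j ∈ I₂`.  (3) `C_Rg` on `I₂` (`AF.mono`): a regular `J ⊆ I₂`, `B + 1 ≤ |J|`.  Fix `i ∈ J`.  For `j ∈ J`: `y j ∉ C i`, and for `x ∈ C i`
`y j ~ x` iff `y i ~ x` (`Rg`, `x` is outside all `Xc G (K l)`); `y i ∈ Mi G (C i)`, so `y j ∈ Mi G (C i)`.  The `y j` are different (`AF.inj`): `B + 1 ≤ |Mi G (C i)| ≤ B` (`count1`, `GK.mi`). -/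
def S_Zs : Prop := S_Eq → ∀ L₁ B N n₀ k q₀ : ℕ, C_M0 L₁ B N n₀ k q₀ → ∃ q : ℕ, C_Zs L₁ B N n₀ k q

/-- the conclusion of `S_M1` -/
def C_M1 (L₁ B N n₀ k q : ℕ) : Prop := ∀ (V : Type) [Finite V] (G : SimpleGraph V) (L : ℕ),
  En G B L N → L₁ ≤ L → C_Rg B L N (B + 1) n₀ → ∀ (r : Set V → V) (κ : V → Set V) (p π : V → V),
  Pf G B L n₀ r κ p π → ∀ A A' : Set V, ON.Pt (Sv p) A A' → LK.rk G A A' ≤ k →
  ∀ (I : Finset ℕ) (K : ℕ → Set V) (y : ℕ → V), (∀ i ∈ I, KS G B L n₀ (K i) ∧ r (K i) ∈ A ∧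
    y i ∈ Mi G (K i) ∧ p (y i) ∈ A' ∧ π (y i) ∈ A') → (∀ i ∈ I, ∀ j ∈ I, i ≠ j → K i ≠ K j) →
  I.card < q

/-- **M1** (170 lines).  Few cells on one side have a mixed vertex on the other side which is not moved.  (Uses `S_Eq`, `S_Gd`, `S_K5`, `S_Mx`, `C_An`, `C_AG`, `C_M0`, `C_Zs`.)

Proof. `R₁` = the number of `C_An L₁` for `N`; `q₀` from `C_M0`; `q₃` from `C_Zs`; `m₄ = (2 * B + 1) * q₃`; `m₃ = m₄ + n₀`; `m₂` = the number of `C_AG L₁` for `N B k m₃`; `m₁ = m₂ + (2 * B + 1) * q₀`; `q = (2 * R₁ + 1) * m₁`.  Suppose `q ≤ I.card`.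
(1) `thin`, `τ = R₁`, `R i j = (y i = y j)`: if `y j = y i` for all `j ∈ J` and `R₁ ≤ |J|` then `C_An` gives `N` of these cells without edges between them, and `y i` is mixed on all of them: `S_Mx`.  `I₁` with `m₁` elements and different `y i`.
(2) `I₁' = {i ∈ I₁ | ∃ K', KS K' ∧ y i ∈ K'}`: choose `K' i`; `p (y i) = r (K' i) ∈ A'`.  If `(2 * B + 1) * q₀ ≤ |I₁'|` then `thin` with `τ = B`, `R i j = (K' i = K' j)` (`count1` in `K' i`, `GK.kb`) gives `q₀` indices with different `K' i`: against `C_M0`.  So `I₂ = I₁ \ I₁'` has at least `m₂` elements; for `i ∈ I₂`: `p (y i) = y i ∈ A'` (`p2`), and `y i` is in no `KS` cell.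
(3) `C_AG` with `r i = r (K i)`, `y' = y`: `I₃ ⊆ I₂`, `m₃` elements, `AF G B L I₃ y K`.  (4) `I₄ = {i ∈ I₃ | Ap G B L n₀ (y i) (K i)}`: `I₃ \ I₄` has less than `n₀` elements (otherwise `C_Rg` gives a regular `J ⊆ I₃ \ I₄`, not empty, and for `i ∈ J` `Ap (y i) (K i)`).  So `|I₄| ≥ m₄`.  For `i ∈ I₄` `y i ∈ Wm`; `C i = κ (y i)`: `KS (C i)`, `Ap (y i) (C i)`, so
`y i ∈ Mi G (C i)`, `r (C i) = π (y i) ∈ A'`.  (5) `thin`, `τ = B`, `R i j = (C i = C j)` (`count1` in `Mi G (C i)`, `GK.mi`): `I₅` with `q₃` elements and different `C i`: `C_Zs` for `A`, `A'`, `K`, `C`, `y`: contradiction. -/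
def S_M1 : Prop := S_Eq → S_Gd → S_K5 → S_Mx → ∀ L₁ : ℕ, C_An L₁ → C_AG L₁ →
  ∀ B N n₀ k q₀ q₃ : ℕ, C_M0 L₁ B N n₀ k q₀ → C_Zs L₁ B N n₀ k q₃ → ∃ q : ℕ, C_M1 L₁ B N n₀ k q

/-- the conclusion of `S_M2` -/
def C_M2 (L₁ B N n₀ k g : ℕ) : Prop := ∀ (V : Type) [Finite V] (G : SimpleGraph V) (L : ℕ),
  En G B L N → L₁ ≤ L → C_Rg B L N (B + 1) n₀ → ∀ (r : Set V → V) (κ : V → Set V) (p π : V → V),
  Pf G B L n₀ r κ p π → ∀ A A' : Set V, ON.Pt (Sv p) A A' → LK.rk G A A' ≤ k →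
  LK.rk G {w | p w ∈ A' ∧ π w ∈ A} {y | π y ∈ A'} ≤ g

/-- **M2** (190 lines).  The moved vertices have bounded rank to the other side.  (Uses `S_Eq`, `C_AG`, `C_M1`, `C_Zs`, `Rep.rk3`.)

Proof. `n₃` with `∀ L, C_Rg B L N 3 n₃`; `q₁` from `C_M1`, `q₃` from `C_Zs`; `q₂ = (2 * B + 1) *` (the number of `C_AG L₁` for `N B k q₃`); `m₃ = n₃ + q₁ + q₂`; `m₂ = (2 * B + 1) * m₃`; `m₁` = the number of `C_AG L₁` for `N B k m₂`; `m = (2 * B + 1) * m₁`; `g` = the number of `rk3 m`.  Suppose `Has3` with `w i`, `y i` (`i < m`), `w i ~ y j` iff `R i j` (`R` is `=`, `≠` or `≤`); `I₀ = range m`.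
The `w i` are different and the `y i` are different (rows, columns).  `p (w i) ∈ A'`, `π (w i) ∈ A`, `A`, `A'` disjoint: `w i ∈ Wm`, `p (w i) = w i`, `K i = κ (w i)`: `KS`, `w i ∈ Mi G (K i)`, `r (K i) = π (w i) ∈ A`.
(1) `thin`, `τ = B`, `R i j = (K i = K j)` (`count1` in `Mi G (K i)`): `I₁` with `m₁` elements.  (2) `C_AG` with `r i = r (K i)`, `y := w`, `y' := w` (`w j` is in no `KS` cell): `I₂`, `AF G B L I₂ w K`.  (3) `thin`, `τ = B`, `R i j = (y j ∈ Xc G (K i))` (`count1`): `I₃` with `m₃` elements, `y j ∉ Xc G (K i)` for `i ≠ j`.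
(4) `I₄ = {i ∈ I₃ | y i ∈ Xc G (K i)}`.  `y i ∉ K i` (otherwise `π (y i) = r (K i) ∈ A` by `uk`), so `y i ∈ Mi G (K i)`.  (4a) Those with `p (y i) ∈ A'`: less than `q₁` by `C_M1`.  (4b) Let `J₀` = those with `p (y i) ∉ A'`, so `p (y i) ∈ A` (`ps`, `Pt`); `y i ∈ Wm`, `p (y i) = y i ∈ A`; `C i = κ (y i)`, `r (C i) = π (y i) ∈ A'`, `y i ∈ Mi G (C i)`.  If `q₂ ≤ |J₀|`: `thin`, `τ = B`,
`R i j = (C i = C j)`; `C_AG` for the cut `A', A` (`rk_symm`), the cells `C i`, `r i = r (C i) ∈ A'`, `y' = y` (`∈ A`): `J₂` with `q₃` elements, `AF G B L J₂ y C`.  `C_Zs` for the cut `A', A`, `K := C`, `C := K` (`y i ∈ Mi G (K i)`, `y i` in no `KS` cell, `r (K i) ∈ A`; the `K i` are different): contradiction.  So `|I₄| < q₁ + q₂` and `I₅ = I₃ \ I₄` has at least `n₃` elements.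
(5) `C_Rg` with `3`: a regular `J ⊆ I₅` with `3 ≤ |J|`; take `a < b < c` in `J`.  `y b` is outside all `Xc G (K i)`, `i ∈ J`: `R a b ↔ R b b ↔ R c b`.  For `=` and `≠`: `a`, `b`; for `≤`: `b`, `c`: contradiction. -/
def S_M2 : Prop := S_Eq → ∀ L₁ : ℕ, C_AG L₁ → ∀ B N n₀ k q₁ q₃ n₃ : ℕ, C_M1 L₁ B N n₀ k q₁ →
  C_Zs L₁ B N n₀ k q₃ → (∀ L, C_Rg B L N 3 n₃) → ∃ g : ℕ, C_M2 L₁ B N n₀ k g

/-- the conclusion of `S_M3` -/
def C_M3 (L₁ B N n₀ k g : ℕ) : Prop := ∀ (V : Type) [Finite V] (G : SimpleGraph V) (L : ℕ),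
  En G B L N → L₁ ≤ L → C_Rg B L N (B + 1) n₀ → ∀ (r : Set V → V) (κ : V → Set V) (p π : V → V),
  Pf G B L n₀ r κ p π → ∀ A A' : Set V, ON.Pt (Sv p) A A' → LK.rk G A A' ≤ k →
  LK.rk G {x | p x ∈ A ∧ π x ∈ A} {y | p y ∈ A' ∧ π y ∈ A'} ≤ g

/-- **M3** (140 lines).  The vertices which are not moved.  (Uses `C_M1`.)

Proof. `g = k + 2 * (q * B)`.  `X₀`, `Y₀` = the two sets.  `𝓑 = {K | KS K ∧ r K ∈ A ∧ (Mi G K ∩ Y₀).Nonempty}`: less than `q` elements (otherwise enumerate `q` of them injectively, choose `y i ∈ Mi G (K i) ∩ Y₀`: `C_M1`); `𝓑' = {K | KS K ∧ r K ∈ A' ∧ (Mi G K ∩ X₀).Nonempty}` in the same way (`C_M1` for `A', A`, `rk_symm`, `Pt` is symmetric).  `Z = ⋃₀ 𝓑`, `Z' = ⋃₀ 𝓑'`: at most `q * B`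
elements each (`RN.ncard_sUnion_le` in `RN/End.lean`; `GK.kb`).  `rk X₀ Y₀ ≤ rk (X₀ \ Z) (Y₀ \ Z') + q * B + q * B` (`rk_union`, `rk_union_right`, `rk_card`).  CLAIM: `x ∈ X₀ \ Z`, `y ∈ Y₀ \ Z'`: `x ~ y` iff `p x ~ p y`.  (a) `x ~ y` iff `p x ~ y`: if `x` is in no `KS` cell `p x = x`.  If `x ∈ K`: `p x = r K ∈ A`, `K ∉ 𝓑`, so `y ∉ Mi G K`; `y ∉ K` (otherwise
`p y = r K ∈ A`, but `p y ∈ A'`): `y` is complete or anticomplete to `K ∋ x, r K`.  (b) `p x ~ y` iff `p x ~ p y`: if `y` is in no cell `p y = y`.  If `y ∈ K'`: `p y = r K' ∈ A'`, `K' ∉ 𝓑'`; `p x ∈ X₀` (`p (p x) = p x ∈ A`; `π (p x)`: if `x ∈ K` then `p x = r K ∈ K`, `π (r K) = r K` (`uk`); otherwise `p x = x ∈ X₀`), so `p x ∉ Mi G K'`; `p x ∉ K'` (otherwise `p (p x) = r K' ∈ A'`).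
So the row of `x` on `Y₀ \ Z'` is determined by `p x ∈ A` and `rk (X₀ \ Z) (Y₀ \ Z') ≤ rk A A' ≤ k` (as in the proof of `P41.tHr`, or `rk (X₀ \ Z) (Y₀ \ Z') ≤ rk A (Y₀ \ Z')`: the rows of `x` and of `p x` on `Y₀ \ Z'` are equal by (a); then `rk_symm` and the same with (b)). -/
def S_M3 : Prop := ∀ L₁ B N n₀ k q : ℕ, C_M1 L₁ B N n₀ k q → ∃ g : ℕ, C_M3 L₁ B N n₀ k g

/-- the conclusion of `S_Cu` -/
def C_Cu (L₁ B N n₀ k g : ℕ) : Prop := ∀ (V : Type) [Finite V] (G : SimpleGraph V) (L : ℕ),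
  En G B L N → L₁ ≤ L → C_Rg B L N (B + 1) n₀ → ∀ (r : Set V → V) (κ : V → Set V) (p π : V → V),
  Pf G B L n₀ r κ p π → ∀ A A' : Set V, ON.Pt (Sv p) A A' → LK.rk G A A' ≤ k →
  LK.rk G {x | π x ∈ A} {x | π x ∈ A'} ≤ g

/-- **Cu** (50 lines).  The cut lemma.  (Uses `C_M2`, `C_M3`.)

Proof. `g = g₃ + 2 * g₂`.  `X = {x | π x ∈ A}`, `Y = {x | π x ∈ A'}`, `X₁ = {x | p x ∈ A' ∧ π x ∈ A}`, `X₀ = {x | p x ∈ A ∧ π x ∈ A}`, `Y₁ = {x | p x ∈ A ∧ π x ∈ A'}`, `Y₀ = {x | p x ∈ A' ∧ π x ∈ A'}`; `X ⊆ X₀ ∪ X₁`, `Y ⊆ Y₀ ∪ Y₁` (`ps`).  `rk X Y ≤ rk X₀ Y + rk X₁ Y`, `rk X₁ Y ≤ g₂` (`C_M2`), `rk X₀ Y ≤ rk X₀ Y₀ + rk X₀ Y₁`, `rk X₀ Y₀ ≤ g₃` (`C_M3`), `rk X₀ Y₁ ≤ rk X Y₁ = rk Y₁ X ≤ g₂`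
(`C_M2` for `A', A`). -/
def S_Cu : Prop := ∀ L₁ B N n₀ k g₂ g₃ : ℕ, C_M2 L₁ B N n₀ k g₂ → C_M3 L₁ B N n₀ k g₃ →
  ∃ g : ℕ, C_Cu L₁ B N n₀ k g

/-- **LW** (80 lines).  Extension of layouts (a variant of `ON.S_LX`; some leaves may have empty fibres).

Proof. CLAIM: `Lay (D.induce S) k B` implies `Lay D (2 ^ g + k') {x | π x ∈ val '' B}`; induction as in `ON/LX.lean` (`{x | π x ∈ A ∪ B} = {x | π x ∈ A} ∪ {x | π x ∈ B}`, the complement of `{x | π x ∈ A}` is `{x | π x ∈ A'}` for `Pt S A A'`, as all `π x ∈ S`).  Empty: empty set; single: the hypothesis; union: `cr_types`, `ON.oRI`, the hypothesis and `LK.a3`. -/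
def S_LW : Prop := ∀ (k k' g : ℕ) (V : Type) [Finite V] (D : SimpleGraph V) (S : Set V)
  (π : V → V), (∀ v, π v ∈ S) → (∀ v ∈ S, Lay D k' {x | π x = v}) →
    (∀ A A' : Set V, ON.Pt S A A' → LK.rk D A A' ≤ k → LK.rk D {x | π x ∈ A} {x | π x ∈ A'} ≤ g) →
    Lay (D.induce S) k Set.univ → Lay D (2 ^ g + k') Set.univ

/-- **STEP B.** -/
def C_SB (L₁ : ℕ) : Prop := ∀ B N : ℕ, ∃ (N₁ : ℕ) (f : ℕ → ℕ), ∀ (V : Type) [Finite V]
  (G : SimpleGraph V) (L : ℕ), En G B L N → L₁ ≤ L → ∃ S : Set V,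
    (∀ (e : Bool → ℕ → V) (T : Finset ℕ), LS G e T → (∀ i ∈ T, ∀ s, e s i ∈ S) → T.card < N₁) ∧
    ∀ k : ℕ, Lay (G.induce S) k Set.univ → Lay G (f k) Set.univ

/-- **SB** (80 lines).  Assembly.

Proof. `n₀` = the number of `S_Rg` for `m = B + 1` (`∀ L, C_Rg B L N (B + 1) n₀`), `N₁` from `S_Al`, `f k = 2 ^ g + (B + 1)`, `g` = the number of `S_Cu` for `k` (`choose`).  If `V` is empty: `S = ∅`, no letters, `Lay G _ univ` by `ON.oLS` (`0` elements).  Otherwise `S_Pf`, `S = Sv p`.  Letters in `S`: if `N₁ ≤ |T|` then `S_Al` gives `i ∈ T` and a `KS` cell `K` with `e s i ∈ K`; `e s i = p (e s i) = r K`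
for both `s`, but `e false i ~ e true i`: contradiction.  Layouts: `S_LW` with `k' = B + 1`: the fibres by `fi` and `ON.oLS`. -/
def S_SB : Prop := ∀ L₁ : ℕ, S_Pf → S_Eq → C_An L₁ → S_Gd →
  (∀ B N m : ℕ, 1 ≤ m → ∃ M : ℕ, ∀ L : ℕ, C_Rg B L N m M) →
  (∀ B N n₀ : ℕ, ∃ N₁ : ℕ, ∀ (V : Type) [Finite V] (G : SimpleGraph V) (L : ℕ), En G B L N →
    L₁ ≤ L → ∀ (e : Bool → ℕ → V) (S : Finset ℕ), LS G e S → N₁ ≤ S.card →
    ∃ i ∈ S, ∃ K, KS G B L n₀ K ∧ ∀ s, e s i ∈ K) →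
  (∀ B N n₀ k : ℕ, (∀ L, C_Rg B L N (B + 1) n₀) → ∃ g : ℕ, C_Cu L₁ B N n₀ k g) → S_LW → C_SB L₁

/-- **(G)**: the hypothesis on the ladders, for the class of graphs without thin spiders -/
def C_G : Prop := ∀ m : ℕ, 1 ≤ m → ∀ β : ℕ → ℕ, ∃ B : ℕ, ∀ L : ℕ, ∃ c N : ℕ, ∀ (V : Type) [Finite V]
  (G : SimpleGraph V), Rep.Fr K302 (A0.JP 2) G → NoT {(true, false, false)} m G → Link β c G →
  ∀ (e : Bool → ℕ → V) (S : Finset ℕ), LS G e S → N ≤ S.card → ∃ i ∈ S, ∃ K, Gl G B L e S i K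

/-- **Fin** (60 lines).  The removal of the large induced matchings from (G) and STEP B.

Proof. `Rep.blt_replace` for the type `(false, false, false)` (compare `P41N/Nk.lean`): `m`, `β` given; `B` from (G), `L = max (B + 1) L₁`, `c`, `N` from (G); `N₁`, `f` from `C_SB`; `n = max N₁ m`, `c₀ = c`, `k' = f k`.  `En G B L N`: `fh`, `fj` from `Fr` (`JP 2` is the graph of `FJ 2`).  `G' = G.induce S`: `fr_induce`, `noT_induce`; a pattern `TP (G.induce S) N₁ false false false a b` gives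
`e false i = a i`, `e true i = b i`, `T = range N₁`: against the first property of `S`. -/
def S_Fin : Prop := C_G → ∀ L₁ : ℕ, C_SB L₁ → BLT K302 (A0.JP 2) {(false, false, false), (true, false, false)} →
  BLT K302 (A0.JP 2) {(true, false, false)}

end Pool.Agent.MPd439b2.RB
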